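import Pool.Agent.MP_5bc3cb_al.Defs

namespace Pool.Agent.MP_5bc3cb_al

/-- evaluation of a word -/
def ev {G α : Type} [Group G] (π : α → G) (u : List α) : G := (u.map π).prod

section
variable {G α : Type} [Group G] (π : α → G)

@[simp] theorem ev_nil : ev π [] = 1 := rfl
@[simp] theorem ev_cons (a : α) (u : List α) : ev π (a :: u) = π a * ev π u := by simp [ev]
@[simp] theorem ev_append (u v : List α) : ev π (u ++ v) = ev π u * ev π v := by simp [ev]

/-- ball of radius `K` -/
def ball (K : ℕ) : Set G := ev π '' {z | z.length ≤ K}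

theorem ball_finite [Finite α] (K : ℕ) : (ball π K).Finite :=
  (List.finite_length_le α K).image _

end

/-- left quotient -/
def quot {α : Type} (L : Set (List α)) (u : List α) : Set (List α) := {σ | u ++ σ ∈ L}

theorem quot_append {α : Type} (L : Set (List α)) (u v : List α) :
    quot L (u ++ v) = quot (quot L u) v := by
  ext σ; simp [quot]

/-- automatic structure with uniqueness -/
structure UA (G : Type) [Group G] where
  α : Type
  fin : Finite α
  π : α → G
  L : Set (List α)
  w : G → List α
  w_mem : ∀ g, w g ∈ L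
  ev_w : ∀ g, ev π (w g) = g
  uniq : ∀ u ∈ L, w (ev π u) = u
  finQ : (Set.range (quot L)).Finite
  ft : ∃ S : Set G, S.Finite ∧ ∀ g a t,
    (ev π ((w g).take t))⁻¹ * ev π ((w (g * π a)).take t) ∈ S

theorem finite_range_of_factor {X Y S : Type} [Nonempty X] (f : X → Y) (st : X → S)
    (hs : (Set.range st).Finite) (h : ∀ x x', st x = st x' → f x = f x') :
    (Set.range f).Finite := by
  refine (hs.image fun s => f (Function.invFun st s)).subset ?_
  rintro _ ⟨x, rfl⟩
  exact ⟨st x, ⟨x, rfl⟩, h _ _ (Function.invFun_eq ⟨x, rfl⟩)⟩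

theorem lex_append_iff {α : Type} (r : α → α → Prop) (a b c e : List α)
    (h : a.length = b.length) :
    List.Lex r (a ++ c) (b ++ e) ↔ List.Lex r a b ∨ (a = b ∧ List.Lex r c e) := by
  induction a generalizing b with
  | nil =>
    cases b with
    | nil => simp
    | cons y b => simp at h
  | cons x a ih =>
    cases b with
    | nil => simp at h
    | cons y b =>
      simp only [List.length_cons, add_left_inj] at h
      simp only [List.cons_append, List.cons_lex_cons_iff, ih b h, List.cons.injEq]
      tauto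

theorem shortlex_append_iff {α : Type} (r : α → α → Prop) (a b c e : List α)
    (h : a.length = b.length) :
    List.Shortlex r (a ++ c) (b ++ e) ↔ c.length < e.length ∨
      (c.length = e.length ∧ (List.Lex r a b ∨ (a = b ∧ List.Lex r c e))) := by
  rw [List.shortlex_def, lex_append_iff r a b c e h]
  simp [h]

theorem exists_UA {G : Type} [Group G] (hG : IsAutomatic G) : Nonempty (UA G) := by
  classical
  obtain ⟨α, hfin, π, L, K, -, hreg, hsurj, hft⟩ := hG
  let r : α → α → Prop := WellOrderingRel
  have hwf : WellFounded (List.Shortlex r) := List.Shortlex.wf WellOrderingRel.isWellOrder.wf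
  let L0 : Set (List α) := L
  have hft' : ∀ u ∈ L0, ∀ v ∈ L0, ∀ z : List α, z.length ≤ 1 → ev π u * ev π z = ev π v →
      ∀ t, (ev π (u.take t))⁻¹ * ev π (v.take t) ∈ ball π K := by
    intro u hu v hv z hz he t
    obtain ⟨y, hy, hy'⟩ := hft u hu v hv ⟨z, hz, he⟩ t
    exact ⟨y, hy, (eq_inv_mul_of_mul_eq hy')⟩
  let L' : Set (List α) := {u | u ∈ L0 ∧ ∀ v ∈ L0, ev π v = ev π u → ¬ List.Shortlex r v u}
  have hex : ∀ g, ∃ u ∈ L', ev π u = g := by
    intro g
    obtain ⟨u0, hu0, he0⟩ := hsurj g
    obtain ⟨u, ⟨hu, he⟩, hmin⟩ := hwf.has_min {u | u ∈ L0 ∧ ev π u = g} ⟨u0, hu0, he0⟩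
    exact ⟨u, ⟨hu, fun v hv hev => hmin v ⟨hv, hev.trans he⟩⟩, he⟩
  have huniq : ∀ u ∈ L', ∀ v ∈ L', ev π u = ev π v → u = v := by
    intro u hu v hv he
    exact Std.Trichotomous.trichotomous (r := List.Shortlex r) u v
      (hv.2 u hu.1 he) (hu.2 v hv.1 he.symm)
  choose w hw hew using hex
  have hQ : (Set.range (quot L0)).Finite := hreg.finite_range_leftQuotient
  let Φ : List α → Set (G × Set (List α) × Prop × Prop) := fun u =>
    {x | x.1 ∈ ball π K ∧ ∃ v : List α, v.length = u.length ∧
      x = ((ev π u)⁻¹ * ev π v, quot L0 v, List.Lex r v u, v = u)}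
  let Ψ : List α → Set G := fun u =>
    {x | x ∈ ball π K ∧ ∃ v ∈ L0, v.length < u.length ∧ ev π v = ev π u * x}
  let st : List α → Set (List α) × Set (G × Set (List α) × Prop × Prop) × Set G :=
    fun u => (quot L0 u, Φ u, Ψ u)
  have hst : (Set.range st).Finite := by
    have h1 : ((ball π K) ×ˢ (Set.range (quot L0)) ×ˢ (Set.univ : Set (Prop × Prop))).Finite :=
      (ball_finite π K).prod (hQ.prod Set.finite_univ)
    refine (hQ.prod (h1.finite_subsets.prod (ball_finite π K).finite_subsets)).subset ?_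
    rintro _ ⟨u, rfl⟩
    refine ⟨⟨u, rfl⟩, ?_, fun x hx => hx.1⟩
    rintro x ⟨hx, v, -, rfl⟩
    exact ⟨hx, ⟨v, rfl⟩, trivial⟩
  have hkey : ∀ u u', st u = st u' → ∀ σ, u ++ σ ∈ L' → u' ++ σ ∈ L' := by
    intro u u' h σ hσ
    have h1 : quot L0 u = quot L0 u' := congrArg Prod.fst h
    have h2 : Φ u = Φ u' := congrArg (fun x => x.2.1) h
    have h3 : Ψ u = Ψ u' := congrArg (fun x => x.2.2) h
    have hm : u' ++ σ ∈ L0 := by
      have : σ ∈ quot L0 u := hσ.1
      rw [h1] at this; exact this
    refine ⟨hm, fun v hv hev hlt => ?_⟩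
    have hb := hft' _ hm v hv [] (by simp) (by simp [hev]) u'.length
    rw [List.take_left'  rfl] at hb
    rcases lt_or_ge v.length u'.length with hl | hl
    · rw [List.take_of_length_le hl.le, hev, ev_append, inv_mul_cancel_left] at hb
      have : ev π σ ∈ Ψ u' := ⟨hb, v, hv, hl, by rw [hev, ev_append]⟩
      rw [← h3] at this
      obtain ⟨-, v0, hv0, hl0, he0⟩ := this
      exact hσ.2 v0 hv0 (by rw [he0, ev_append])
        (List.Shortlex.of_length_lt (by rw [List.length_append]; omega))
    · have hlen : (v.take u'.length).length = u'.length := by simp [hl]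
      have : ((ev π u')⁻¹ * ev π (v.take u'.length), quot L0 (v.take u'.length),
          List.Lex r (v.take u'.length) u', v.take u'.length = u') ∈ Φ u' := ⟨hb, _, hlen, rfl⟩
      rw [← h2] at this
      obtain ⟨-, x, hx, he⟩ := this
      simp only [Prod.mk.injEq, eq_iff_iff] at he
      obtain ⟨e1, e2, e3, e4⟩ := he
      have hv2 : v.drop u'.length ∈ quot L0 x := by
        rw [← e2]; simpa [quot] using hv
      refine hσ.2 (x ++ v.drop u'.length) hv2 ?_ ?_
      · have : ev π v = ev π (v.take u'.length) * ev π (v.drop u'.length) := by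
          rw [← ev_append, List.take_append_drop]
        rw [hev, ev_append] at this
        rw [ev_append, ev_append, eq_mul_of_inv_mul_eq e1.symm, mul_assoc, mul_assoc, ← this]
        simp
      · rw [← List.take_append_drop u'.length v, shortlex_append_iff r _ _ _ _ hlen] at hlt
        rw [shortlex_append_iff r _ _ _ _ hx, ← e3, ← e4]
        exact hlt
  refine ⟨⟨α, hfin, π, L', w, hw, hew, fun u hu => huniq _ (hw _) _ hu (hew _), ?_,
    ball π K, ball_finite π K, fun g a t => ?_⟩⟩
  · refine finite_range_of_factor _ st hst fun u u' h => ?_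
    ext σ
    exact ⟨hkey u u' h σ, hkey u' u h.symm σ⟩
  · exact hft' _ (hw g).1 _ (hw _).1 [a] (by simp) (by simp [hew]) t

end Pool.Agent.MP_5bc3cb_al
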