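import Pool.Agent.MP_5bc3cb_al.Auto

namespace Pool.Agent.MP_5bc3cb_al
open Pointwise

namespace UA
variable {G : Type} [Group G] (U : UA G)

instance : Finite U.α := U.fin

/-- forward path -/
def F (g : G) (i : ℕ) : G := ev U.π ((U.w g).take i)

/-- backward path -/
def B (g : G) (s : ℕ) : G := U.F g ((U.w g).length - s)

theorem F_of_le {g : G} {i : ℕ} (h : (U.w g).length ≤ i) : U.F g i = g := by
  rw [F, List.take_of_length_le h, U.ev_w]

@[simp] theorem B_zero (g : G) : U.B g 0 = g := U.F_of_le (by simp)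

theorem B_of_le {g : G} {s : ℕ} (h : (U.w g).length ≤ s) : U.B g s = 1 := by
  simp [B, F, Nat.sub_eq_zero_of_le h]

theorem w_eq_of_mem {u : List U.α} {g : G} (hu : u ∈ U.L) (he : ev U.π u = g) : U.w g = u := by
  rw [← he, U.uniq u hu]

theorem inj {u v : List U.α} (hu : u ∈ U.L) (hv : v ∈ U.L) (h : ev U.π u = ev U.π v) :
    u = v := by
  rw [← U.uniq u hu, h, U.uniq v hv]

theorem F_seg (g : G) {i j C : ℕ} (hij : i ≤ j) (hC : j ≤ i + C) :
    (U.F g i)⁻¹ * U.F g j ∈ ball U.π C := by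
  obtain ⟨k, rfl⟩ := Nat.exists_eq_add_of_le hij
  refine ⟨((U.w g).drop i).take k, ?_, ?_⟩
  · simp only [Set.mem_ofPred_eq, List.length_take]; omega
  · simp [F, List.take_add]

theorem F_seg' (g : G) {i j C : ℕ} (hij : i ≤ j + C) (hC : j ≤ i + C) :
    (U.F g i)⁻¹ * U.F g j ∈ ball U.π C ∪ (ball U.π C)⁻¹ := by
  rcases le_total i j with h | h
  · exact Or.inl (U.F_seg g h hC)
  · right; simpa using U.F_seg g h hij

theorem B_seg (g : G) {i j C : ℕ} (hij : i ≤ j + C) (hC : j ≤ i + C) :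
    (U.B g i)⁻¹ * U.B g j ∈ ball U.π C ∪ (ball U.π C)⁻¹ :=
  U.F_seg' g (by omega) (by omega)

theorem len_bound {S : Set G} (hS : S.Finite) : ∃ C, ∀ g x m,
    (∀ i, m ≤ i → x⁻¹ * U.F g i ∈ S) → (U.w g).length ≤ m + C := by
  classical
  refine ⟨(hS.prod U.finQ).toFinset.card, fun g x m h => ?_⟩
  by_contra hlt
  push Not at hlt
  obtain ⟨i, hi, j, hj, hne, he⟩ := Finset.exists_ne_map_eq_of_card_lt_of_maps_to
    (s := Finset.Icc m (m + (hS.prod U.finQ).toFinset.card)) (t := (hS.prod U.finQ).toFinset)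
    (by simp only [Nat.card_Icc]; omega) (f := fun i => (x⁻¹ * U.F g i, quot U.L ((U.w g).take i)))
    (fun i hi => by
      simp only [Finset.coe_Icc, Set.mem_Icc] at hi
      simp only [Set.Finite.coe_toFinset, Set.mem_prod]
      exact ⟨h i hi.1, _, rfl⟩)
  wlog hij : i < j generalizing i j
  · exact this j hj i hi hne.symm he.symm (by omega)
  simp only [Finset.mem_Icc] at hi hj
  simp only [Prod.mk.injEq, mul_right_inj] at he
  have h1 : (U.w g).drop j ∈ quot U.L ((U.w g).take j) := by simpa [quot] using U.w_mem g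
  rw [← he.2] at h1
  have h2 := U.w_eq_of_mem (g := g) h1 (by
    rw [ev_append]
    change U.F g i * _ = g
    rw [he.1, F, ← ev_append, List.take_append_drop, U.ev_w])
  have := congrArg List.length h2
  simp only [List.length_append, List.length_take, List.length_drop] at this
  omega

theorem bft_letter : ∃ S : Set G, S.Finite ∧ ∀ g a s, (U.B g s)⁻¹ * U.B (g * U.π a) s ∈ S := by
  obtain ⟨S, hS, h⟩ := U.ft
  obtain ⟨C, hC⟩ := U.len_bound (hS.union hS.inv)
  refine ⟨(ball U.π C ∪ (ball U.π C)⁻¹) * S,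
    ((ball_finite _ C).union (ball_finite _ C).inv).mul hS, fun g a s => ?_⟩
  have h1 : (U.w (g * U.π a)).length ≤ (U.w g).length + C := hC _ g _ fun i hi => by
    left
    have := h g a i
    rw [List.take_of_length_le hi, U.ev_w] at this
    exact this
  have h2 : (U.w g).length ≤ (U.w (g * U.π a)).length + C := hC _ (g * U.π a) _ fun i hi => by
    right
    have := h g a i
    rw [List.take_of_length_le hi, U.ev_w] at this
    simpa [F] using this
  refine ⟨_, U.F_seg' g (i := (U.w g).length - s) (j := (U.w (g * U.π a)).length - s)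
    (by omega) (by omega), _, h g a ((U.w (g * U.π a)).length - s), ?_⟩
  simp [B, F, mul_assoc]

theorem bft (f : G) : ∃ S : Set G, S.Finite ∧ ∀ g s, (U.B g s)⁻¹ * U.B (g * f) s ∈ S := by
  obtain ⟨S, hS, h⟩ := U.bft_letter
  rw [← U.ev_w f]
  induction U.w f with
  | nil => exact ⟨{1}, Set.finite_singleton _, fun g s => by simp⟩
  | cons a u ih =>
    obtain ⟨S', hS', h'⟩ := ih
    refine ⟨S * S', hS.mul hS', fun g s => ⟨_, h g a s, _, h' (g * U.π a) s, ?_⟩⟩
    simp [mul_assoc]

theorem B_step (g : G) (s : ℕ) : (U.B g (s + 1))⁻¹ * U.B g s ∈ ball U.π 1 :=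
  U.F_seg g (by omega) (by omega)

end UA
end Pool.Agent.MP_5bc3cb_al
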