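import Pool.Agent.MP_5bc3cb_al.Defs

/-! From a combing of the vertex set to a combing of the metric Cayley graph. -/

namespace Pool.Agent.MP_5bc3cb_al

section
variable {G : Type} [Group G] {A : Set G}

/-- The distance of two vertices of the Cayley graph. -/
noncomputable def dv (hA : Subgroup.closure A = ⊤) (g h : G) : ℝ :=
  @dist (CayleyPt A) (cayleyMetric hA).toDist (CayleyPt.vert g) (CayleyPt.vert h)

lemma dist_le_route (hA : Subgroup.closure A = ⊤) {x y : CayleyPt A} {r : ℝ} (h : Route x y r) :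
    @dist (CayleyPt A) (cayleyMetric hA).toDist x y ≤ r :=
  csInf_le ⟨0, fun _ h => Route.nonneg h⟩ h

lemma dv_self (hA : Subgroup.closure A = ⊤) (g : G) : dv hA g g = 0 :=
  @dist_self _ (cayleyMetric hA).toPseudoMetricSpace _

lemma dv_comm (hA : Subgroup.closure A = ⊤) (g h : G) : dv hA g h = dv hA h g :=
  @dist_comm _ (cayleyMetric hA).toPseudoMetricSpace _ _

lemma dv_triangle (hA : Subgroup.closure A = ⊤) (g h k : G) :
    dv hA g k ≤ dv hA g h + dv hA h k :=
  @dist_triangle _ (cayleyMetric hA).toPseudoMetricSpace _ _ _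

lemma dv_edge (hA : Subgroup.closure A = ⊤) (g : G) {a : G} (ha : a ∈ A) :
    dv hA g (g * a) ≤ 1 :=
  dist_le_route hA (route_edge g ⟨a, ha⟩)

/-- A function that changes by at most `K` along edges is `K`-Lipschitz on vertices. -/
lemma lip_vert (hA : Subgroup.closure A = ⊤) (f : G → ℝ) (K : ℝ) (hK : 0 < K)
    (hf : ∀ g, ∀ a ∈ A, |f g - f (g * a)| ≤ K) (g h : G) : |f g - f h| ≤ K * dv hA g h := by
  let F : CayleyPt A → ℝ := fun z => match z with
    | .vert g => f g / K
    | .edge g a s => (f g + s * (f (g * a) - f g)) / K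
  have hF : ∀ g a (s : Set.Icc (0 : ℝ) 1), F (edgePt g a s) =
      (f g + s * (f (g * a) - f g)) / K := by
    intro g a s
    unfold edgePt
    split_ifs with h0 h1
    · simp [F, h0]
    · simp [F, h1]
    · rfl
  have hL : ∀ g a s s', |F (edgePt g a s) - F (edgePt g a s')| ≤ |(s : ℝ) - (s' : ℝ)| := by
    intro g a s s'
    rw [hF, hF, ← sub_div, add_sub_add_left_eq_sub, ← sub_mul, abs_div, abs_mul, abs_of_pos hK,
      div_le_iff₀ hK]
    refine mul_le_mul_of_nonneg_left ?_ (abs_nonneg _)
    rw [abs_sub_comm]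
    exact hf g a a.2
  have h1 : |F (.vert g) - F (.vert h)| ≤ dv hA g h :=
    le_csInf (route_exists hA _ _) fun r hr => Route.lip_le hL hr
  simp only [F] at h1
  rw [← sub_div, abs_div, abs_of_pos hK, div_le_iff₀ hK] at h1
  linarith

/-- The initial vertex of a point of the Cayley graph. -/
def basev : CayleyPt A → G
  | .vert g => g
  | .edge g _ _ => g

lemma dist_basev (hA : Subgroup.closure A = ⊤) (x : CayleyPt A) :
    @dist (CayleyPt A) (cayleyMetric hA).toDist x (.vert (basev x)) ≤ 1 := by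
  cases x with
  | vert g => exact (dv_self hA g).le.trans zero_le_one
  | edge g a s =>
    have h := Route.single g a ⟨s, s.2.1.le, s.2.2.le⟩ 0
    rw [edgePt_mid, edgePt_zero] at h
    refine (dist_le_route hA h).trans ?_
    simp only [Set.Icc.coe_zero, sub_zero]
    rw [abs_of_pos s.2.1]
    exact s.2.2.le

theorem combable_of_discrete (hA : Subgroup.closure A = ⊤) (s : G → ℝ → G) (b : G → ℝ)
    (k ε K : ℝ) (hk : 1 ≤ k) (hε : 0 ≤ ε) (hK : 1 ≤ K)
    (hb : ∀ g, 0 ≤ b g) (h0 : ∀ g, s g 0 = 1) (hend : ∀ g τ, b g ≤ τ → s g τ = g)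
    (hlip : ∀ g τ τ', 0 ≤ τ → 0 ≤ τ' → dv hA (s g τ) (s g τ') ≤ k * |τ - τ'| + ε)
    (hadj : ∀ g, ∀ a ∈ A, ∀ τ, 0 ≤ τ → dv hA (s g τ) (s (g * a) τ) ≤ K)
    (hbadj : ∀ g, ∀ a ∈ A, |b g - b (g * a)| ≤ K) :
    @Combable (CayleyPt A) (cayleyMetric hA) (CayleyPt.vert 1) := by
  let _ := cayleyMetric hA
  classical
  let P : CayleyPt A → ℝ → CayleyPt A := fun x τ =>
    if b (basev x) + 1 ≤ τ then x else .vert (s (basev x) τ)
  have hP : ∀ x τ, dist (P x τ) (.vert (s (basev x) τ)) ≤ 1 := by
    intro x τ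
    simp only [P]
    split_ifs with h
    · rw [hend _ _ (by linarith)]; exact dist_basev hA x
    · simp
  have hdv : ∀ g h : G, dist (CayleyPt.vert g : CayleyPt A) (.vert h) = dv hA g h :=
    fun _ _ => rfl
  have hPP : ∀ x y τ τ', dist (P x τ) (P y τ') ≤ dv hA (s (basev x) τ) (s (basev y) τ') + 2 := by
    intro x y τ τ'
    have h1 := hP x τ
    have h2 := hP y τ'
    have h3 := dist_triangle4 (P x τ) (.vert (s (basev x) τ)) (.vert (s (basev y) τ')) (P y τ')
    rw [dist_comm] at h2
    rw [hdv] at h3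
    linarith
  let σ : CayleyPt A → BrokenPath (CayleyPt A) (.vert 1) k (ε + 2) := fun x =>
    { b := b (basev x) + 1
      b_nonneg := by have := hb (basev x); linarith
      toFun := fun τ => P x τ
      start := by
        have := hb (basev x)
        simp only [P]
        rw [if_neg (by linarith), h0]
      bound := fun u v => by
        have h1 := hPP x x u v
        have h2 := hlip (basev x) u v u.2.1 v.2.1
        linarith }
  have hat : ∀ x (τ : NNReal), (σ x).valueAt τ = P x τ := by
    intro x τ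
    simp only [BrokenPath.valueAt, σ, P]
    by_cases h : b (basev x) + 1 ≤ τ
    · rw [min_eq_right h, if_pos le_rfl, if_pos h]
    · rw [min_eq_left (le_of_not_ge h)]
  have hbase : ∀ x y : CayleyPt A, dv hA (basev x) (basev y) ≤ dist x y + 2 := by
    intro x y
    have h1 := dist_basev hA x
    have h2 := dist_basev hA y
    have h3 := dist_triangle4 (CayleyPt.vert (basev x) : CayleyPt A) x y (.vert (basev y))
    rw [dist_comm] at h1
    rw [hdv] at h3
    linarith
  have hup : ∀ x y (τ : NNReal), dist ((σ x).valueAt τ) ((σ y).valueAt τ) ≤ K * (dist x y + 2) + 2 := by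
    intro x y τ
    rw [hat, hat]
    have h1 := hPP x y τ τ
    have h2 := lip_vert hA (fun g => dv hA (s (basev x) τ) (s g τ)) K (by linarith)
      (fun g a ha => by
        have h3 := hadj g a ha τ τ.2
        have h4 := dv_triangle hA (s (basev x) τ) (s g τ) (s (g * a) τ)
        have h5 := dv_triangle hA (s (basev x) τ) (s (g * a) τ) (s g τ)
        rw [dv_comm hA (s (g * a) τ)] at h5
        rw [abs_le]; constructor <;> linarith) (basev x) (basev y)
    simp only [dv_self, zero_sub, abs_neg] at h2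
    have h6 := le_abs_self (dv hA (s (basev x) τ) (s (basev y) τ))
    have h7 := mul_le_mul_of_nonneg_left (hbase x y) (by linarith : (0 : ℝ) ≤ K)
    linarith
  refine ⟨k, ε + 2, hk, by linarith, σ, fun x => by simp [σ, P], 2 * K, 4 * K + 2,
    by linarith, by linarith, fun x y => ⟨?_, ?_⟩⟩
  · have hbdd : BddAbove (Set.range fun τ : NNReal => dist ((σ x).valueAt τ) ((σ y).valueAt τ)) :=
      ⟨_, by rintro _ ⟨τ, rfl⟩; exact hup x y τ⟩
    have hx := hb (basev x)
    have hy := hb (basev y)
    let T : NNReal := ⟨b (basev x) + b (basev y) + 1, by linarith⟩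
    have hT : (T : ℝ) = b (basev x) + b (basev y) + 1 := rfl
    have h1 := le_ciSup hbdd T
    have h2 : (σ x).valueAt T = x := by
      rw [hat]; simp only [P]; rw [if_pos (by linarith)]
    have h3 : (σ y).valueAt T = y := by
      rw [hat]; simp only [P]; rw [if_pos (by linarith)]
    rw [h2, h3] at h1
    have h4 : (2 * K)⁻¹ * dist x y ≤ dist x y := by
      refine mul_le_of_le_one_left dist_nonneg (inv_le_one_of_one_le₀ (by linarith))
    unfold BrokenPath.dP
    have h5 := abs_nonneg ((σ x).b - (σ y).b)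
    linarith
  · have h1 : (⨆ τ : NNReal, dist ((σ x).valueAt τ) ((σ y).valueAt τ)) ≤ K * (dist x y + 2) + 2 :=
      ciSup_le (hup x y)
    have h2 := lip_vert hA b K (by linarith) hbadj (basev x) (basev y)
    have h7 := mul_le_mul_of_nonneg_left (hbase x y) (by linarith : (0 : ℝ) ≤ K)
    unfold BrokenPath.dP
    have h3 : (σ x).b - (σ y).b = b (basev x) - b (basev y) := by simp [σ]
    rw [h3]
    linarith

end

end Pool.Agent.MP_5bc3cb_al
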