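import Mathlib

namespace Pool.Agent.MP_5bc3cb_al

/-- Abstract interface: an HNN extension of an abelian group `H` along subgroups `A`, `B` of
index `d` (`a * t = t * b`), with exponent sum `n`, planar cocycle `p` and the half-space `Hs`
of the Bass-Serre tree behind the edge from `H` to `t H`. -/
structure Geo (G : Type) [Group G] where
  H : Subgroup G
  A : Subgroup G
  B : Subgroup G
  t : G
  n : G → ℤ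
  p : G → ℂ
  lam : ℂ
  Hs : Set G
  d : ℕ
  rA : Fin d → G
  rB : Fin d → G
  c0 : G
  A_le : A ≤ H
  B_le : B ≤ H
  comm : ∀ x ∈ H, ∀ y ∈ H, x * y = y * x
  A_t : ∀ a ∈ A, t⁻¹ * a * t ∈ B
  B_t : ∀ b ∈ B, t * b * t⁻¹ ∈ A
  rA_mem : ∀ i, rA i ∈ H
  rA_cover : ∀ h ∈ H, ∃ i, (rA i)⁻¹ * h ∈ A
  rB_mem : ∀ i, rB i ∈ H
  rB_cover : ∀ h ∈ H, ∃ i, (rB i)⁻¹ * h ∈ B
  rB_inj : ∀ i j, (rB i)⁻¹ * rB j ∈ B → i = j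
  c0_mem : c0 ∈ H
  c0_not : c0 ∉ A
  n_mul : ∀ x y, n (x * y) = n x + n y
  n_H : ∀ h ∈ H, n h = 0
  n_t : n t = 1
  p_mul : ∀ x y, p (x * y) = p x + lam ^ (n x) * p y
  lam_norm : ‖lam‖ = 1
  lam_ne : ∀ j : ℕ, 0 < j → lam ^ j ≠ 1
  p_inj : ∀ h ∈ H, p h = 0 → h = 1
  p_sum : ∀ ε : ℝ, 0 < ε → Summable (fun h : H => Real.exp (-ε * ‖p h‖))
  Hs_H : ∀ x ∈ Hs, ∀ h ∈ H, x * h ∈ Hs
  Hs_t : ∀ x ∈ Hs, x * t ∈ Hs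
  one_not : (1 : G) ∉ Hs
  At_mem : ∀ a ∈ A, a * t ∈ Hs
  cross : ∀ x, x ∉ Hs → x * t ∈ Hs → x ∈ A
  ind : ∀ Q : G → Prop, Q 1 → (∀ x, ∀ h ∈ H, Q x → Q (x * h)) → (∀ x, Q x → Q (x * t)) →
    (∀ x, Q x → Q (x * t⁻¹)) → ∀ g, Q g

end Pool.Agent.MP_5bc3cb_al
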