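import Pool.Agent.MP_5bc3cb_al.LM
import Pool.Agent.MP_5bc3cb_al.Geo

/-! The Leary-Minasyan group satisfies the abstract interface. -/

namespace Pool.Agent.MP_5bc3cb_al

open HNNExtension HNNExtension.NormalWord

noncomputable def subH : Subgroup LM := (of : Lam →* LM).range
noncomputable def geoA : Subgroup LM := subB.map (of : Lam →* LM)
noncomputable def geoB : Subgroup LM := subA.map (of : Lam →* LM)

lemma mem_subH {x : LM} : x ∈ subH ↔ ∃ m, x = o m := by
  constructor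
  · rintro ⟨g, rfl⟩; exact ⟨g.toAdd, rfl⟩
  · rintro ⟨m, rfl⟩; exact ⟨_, rfl⟩

lemma mem_geoA {x : LM} : x ∈ geoA ↔ ∃ m, x = o (piB * m) := by
  constructor
  · rintro ⟨_, ⟨g, rfl⟩, rfl⟩; exact ⟨g.toAdd, rfl⟩
  · rintro ⟨m, rfl⟩; exact ⟨_, ⟨Multiplicative.ofAdd m, rfl⟩, rfl⟩

lemma mem_geoB {x : LM} : x ∈ geoB ↔ ∃ m, x = o (piA * m) := by
  constructor
  · rintro ⟨_, ⟨g, rfl⟩, rfl⟩; exact ⟨g.toAdd, rfl⟩
  · rintro ⟨m, rfl⟩; exact ⟨_, ⟨Multiplicative.ofAdd m, rfl⟩, rfl⟩

lemma cover_piA (m : GaussianInt) : ∃ (i : Fin 5) (q : GaussianInt),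
    m = ((i : ℕ) : GaussianInt) + piA * q := by
  obtain ⟨a, b⟩ := m
  have h5 : ((a + 2 * b) % 5).toNat < 5 := by omega
  refine ⟨⟨_, h5⟩, ⟨2 * ((a + 2 * b) / 5) - b, (a + 2 * b) / 5⟩, ?_⟩
  ext
  · simp [piA]; omega
  · simp [piA]

lemma cover_piB (m : GaussianInt) : ∃ (i : Fin 5) (q : GaussianInt),
    m = ((i : ℕ) : GaussianInt) + piB * q := by
  obtain ⟨a, b⟩ := m
  have h5 : ((a - 2 * b) % 5).toNat < 5 := by omega
  refine ⟨⟨_, h5⟩, ⟨2 * ((a - 2 * b) / 5) + b, - ((a - 2 * b) / 5)⟩, ?_⟩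
  ext
  · simp [piB]; omega
  · simp [piB]

lemma pow_mod_five (j : ℕ) : ((⟨3, 4⟩ : GaussianInt) ^ (j + 1)).re % 5 = 3 ∧
    ((⟨3, 4⟩ : GaussianInt) ^ (j + 1)).im % 5 = 4 := by
  induction j with
  | zero => simp
  | succ j ih =>
    rw [pow_succ]
    simp only [Zsqrtd.re_mul, Zsqrtd.im_mul]
    omega

lemma lam_pow_ne (j : ℕ) (hj : 0 < j) : lam ^ j ≠ 1 := by
  obtain ⟨j, rfl⟩ : ∃ k, j = k + 1 := ⟨j - 1, by omega⟩
  intro h
  have h1 : (((⟨3, 4⟩ : GaussianInt) ^ (j + 1) : GaussianInt) : ℂ) = (5 : ℂ) ^ (j + 1) := by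
    have h2 : ((⟨3, 4⟩ : GaussianInt) : ℂ) = 5 * lam := by
      rw [lam, GaussianInt.toComplex_def']; push_cast; ring
    rw [map_pow, h2, mul_pow, h, mul_one]
  have h3 := congrArg Complex.im h1
  have h4 : ((5 : ℂ) ^ (j + 1)).im = 0 := by
    have : ((5 : ℂ) ^ (j + 1)) = (((5 : ℝ) ^ (j + 1) : ℝ) : ℂ) := by push_cast; rfl
    rw [this, Complex.ofReal_im]
  rw [h4, ← GaussianInt.intCast_im] at h3
  have h5 : ((⟨3, 4⟩ : GaussianInt) ^ (j + 1)).im = 0 := by exact_mod_cast h3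
  have := (pow_mod_five j).2
  omega

lemma summable_int_exp (ε : ℝ) (hε : 0 < ε) :
    Summable (fun n : ℤ => Real.exp (-ε * |(n : ℝ)|)) := by
  have h : Summable (fun n : ℕ => Real.exp (-ε * n)) := by
    have h1 : Real.exp (-ε) < 1 := Real.exp_lt_one_iff.2 (by linarith)
    refine (summable_geometric_of_lt_one (Real.exp_pos _).le h1).congr fun n => ?_
    rw [← Real.exp_nat_mul]; ring_nf
  refine Summable.of_nat_of_neg ?_ ?_
  · simpa using h
  · simpa using h

lemma summable_gauss_exp (ε : ℝ) (hε : 0 < ε) :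
    Summable (fun m : GaussianInt => Real.exp (-ε * ‖(m : ℂ)‖)) := by
  have h := summable_int_exp (ε / 2) (by linarith)
  have h2 := summable_mul_of_summable_norm (f := fun n : ℤ => Real.exp (-(ε / 2) * |(n : ℝ)|))
    (g := fun n : ℤ => Real.exp (-(ε / 2) * |(n : ℝ)|))
    (by simpa [Real.norm_eq_abs, abs_of_pos (Real.exp_pos _)] using h)
    (by simpa [Real.norm_eq_abs, abs_of_pos (Real.exp_pos _)] using h)
  have hinj : Function.Injective (fun m : GaussianInt => (m.re, m.im)) := by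
    intro a b hab
    simp only [Prod.mk.injEq] at hab
    exact Zsqrtd.ext hab.1 hab.2
  refine Summable.of_nonneg_of_le (fun _ => (Real.exp_pos _).le) (fun m => ?_)
    (h2.comp_injective hinj)
  simp only [Function.comp]
  rw [← Real.exp_add]
  apply Real.exp_le_exp.2
  have h3 := Complex.abs_re_le_norm (m : ℂ)
  have h4 := Complex.abs_im_le_norm (m : ℂ)
  rw [← GaussianInt.intCast_re] at h3
  rw [← GaussianInt.intCast_im] at h4
  nlinarith

lemma summable_subH (ε : ℝ) (hε : 0 < ε) :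
    Summable (fun h : subH => Real.exp (-ε * ‖pp h‖)) := by
  let f : GaussianInt → subH := fun m => ⟨o m, mem_subH.2 ⟨m, rfl⟩⟩
  have hf : Function.Bijective f := by
    constructor
    · intro a b hab; exact o_inj (congrArg Subtype.val hab)
    · rintro ⟨x, hx⟩
      obtain ⟨m, rfl⟩ := mem_subH.1 hx
      exact ⟨m, rfl⟩
  rw [← (Equiv.ofBijective f hf).summable_iff]
  refine (summable_gauss_exp ε hε).congr fun m => ?_
  simp [f, pp_o]

lemma lst_mul_tt (x : LM) :
    (∃ g, lst x = (1, g) :: lst (x * tt)) ∨ (∃ g, lst (x * tt) = (-1, g) :: lst x) := by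
  have := lst_mul_tt_pow x 1
  simp only [Units.val_one, zpow_one] at this
  rcases this with ⟨g, h, -⟩ | ⟨g, h, -⟩
  · exact Or.inl ⟨g, h⟩
  · exact Or.inr ⟨g, h⟩

lemma lst_tt : ∃ g, lst tt = [(-1, g)] := by
  rcases lst_mul_tt 1 with ⟨g, h⟩ | ⟨g, h⟩
  · rw [lst_one] at h; simp at h
  · rw [lst_one, one_mul] at h; exact ⟨g, h⟩

lemma britton {a b : GaussianInt} (h : o a * tt = tt * o b) : ∃ m, a = piB * m := by
  let w1 : ReducedWord Lam subA subB := ⟨Multiplicative.ofAdd a, [(1, 1)], List.isChain_singleton _⟩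
  let w2 : ReducedWord Lam subA subB := ⟨1, [(1, Multiplicative.ofAdd b)], List.isChain_singleton _⟩
  have h1 : w1.prod phi = w2.prod phi := by
    simp only [w1, w2, ReducedWord.prod, List.map_cons, List.map_nil, List.prod_cons,
      List.prod_nil, Units.val_one, zpow_one, map_one, mul_one, one_mul]
    exact h
  have h2 := (ReducedWord.map_fst_eq_and_of_prod_eq phi h1).2 1 (by simp [w1])
  simp only [w1, w2, mul_one, toSubgroup_neg_one, inv_mem_iff] at h2
  obtain ⟨m, hm⟩ := h2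
  exact ⟨m.toAdd, (congrArg Multiplicative.toAdd hm).symm⟩

/-- The half-space behind the edge from the base vertex to its translate by the stable letter. -/
def halfSp : Set LM := {x | (lst x).getLast? = (lst tt).getLast?}

lemma LM_right_induction (Q : LM → Prop) (h1 : Q 1) (ho : ∀ x m, Q x → Q (x * o m))
    (ht : ∀ x, Q x → Q (x * tt)) (hti : ∀ x, Q x → Q (x * tt⁻¹)) (g : LM) : Q g := by
  have key : ∀ g : LM, (∀ x, Q x → Q (x * g)) ∧ (∀ x, Q x → Q (x * g⁻¹)) := by
    intro g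
    induction g using LM_induction with
    | ho m => exact ⟨fun x => ho x m, fun x hx => by rw [← o_neg]; exact ho x _ hx⟩
    | ht => exact ⟨ht, hti⟩
    | mul a b ha hb =>
      refine ⟨fun x hx => ?_, fun x hx => ?_⟩
      · rw [← mul_assoc]; exact hb.1 _ (ha.1 _ hx)
      · rw [mul_inv_rev, ← mul_assoc]; exact ha.2 _ (hb.2 _ hx)
    | inv a ha => exact ⟨ha.2, by simpa using ha.1⟩
  simpa using (key g).1 1 h1

/-- The Leary-Minasyan group as an instance of the interface. -/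
noncomputable def lmGeo : Geo LM where
  H := subH
  A := geoA
  B := geoB
  t := tt
  n := nn
  p := pp
  lam := lam
  Hs := halfSp
  d := 5
  rA := fun i => o ((i : ℕ) : GaussianInt)
  rB := fun i => o ((i : ℕ) : GaussianInt)
  c0 := o 1
  A_le := fun x hx => by obtain ⟨m, rfl⟩ := mem_geoA.1 hx; exact mem_subH.2 ⟨_, rfl⟩
  B_le := fun x hx => by obtain ⟨m, rfl⟩ := mem_geoB.1 hx; exact mem_subH.2 ⟨_, rfl⟩
  comm := fun x hx y hy => by
    obtain ⟨a, rfl⟩ := mem_subH.1 hx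
    obtain ⟨b, rfl⟩ := mem_subH.1 hy
    rw [← o_add, ← o_add, add_comm]
  A_t := fun x hx => by
    obtain ⟨m, rfl⟩ := mem_geoA.1 hx
    refine mem_geoB.2 ⟨m, ?_⟩
    rw [mul_assoc, ← tt_mul_o]; group
  B_t := fun x hx => by
    obtain ⟨m, rfl⟩ := mem_geoB.1 hx
    refine mem_geoA.2 ⟨m, ?_⟩
    rw [tt_mul_o]; group
  rA_mem := fun i => mem_subH.2 ⟨_, rfl⟩
  rA_cover := fun x hx => by
    obtain ⟨m, rfl⟩ := mem_subH.1 hx
    obtain ⟨i, q, rfl⟩ := cover_piB m
    exact ⟨i, mem_geoA.2 ⟨q, by rw [o_add]; group⟩⟩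
  rB_mem := fun i => mem_subH.2 ⟨_, rfl⟩
  rB_cover := fun x hx => by
    obtain ⟨m, rfl⟩ := mem_subH.1 hx
    obtain ⟨i, q, rfl⟩ := cover_piA m
    exact ⟨i, mem_geoB.2 ⟨q, by rw [o_add]; group⟩⟩
  rB_inj := fun i j h => by
    obtain ⟨m, hm⟩ := mem_geoB.1 h
    rw [← o_neg, ← o_add] at hm
    have h1 := o_inj hm
    have h2 := congrArg Zsqrtd.re h1
    have h3 := congrArg Zsqrtd.im h1
    simp [piA] at h2 h3
    omega
  c0_mem := mem_subH.2 ⟨_, rfl⟩
  c0_not := fun h => by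
    obtain ⟨m, hm⟩ := mem_geoA.1 h
    have h1 := o_inj hm
    have h2 := congrArg Zsqrtd.re h1
    have h3 := congrArg Zsqrtd.im h1
    simp [piB] at h2 h3
    omega
  n_mul := nn_mul
  n_H := fun x hx => by obtain ⟨m, rfl⟩ := mem_subH.1 hx; exact nn_o m
  n_t := nn_tt
  p_mul := pp_mul
  lam_norm := norm_lam
  lam_ne := lam_pow_ne
  p_inj := fun x hx h => by
    obtain ⟨m, rfl⟩ := mem_subH.1 hx
    rw [pp_o] at h
    have : m = 0 := GaussianInt.toComplex_eq_zero.1 h
    rw [this, o_zero]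
  p_sum := summable_subH
  Hs_H := fun x hx h hh => by
    obtain ⟨m, rfl⟩ := mem_subH.1 hh
    simpa [halfSp, lst_mul_o] using hx
  Hs_t := fun x hx => by
    obtain ⟨g0, h0⟩ := lst_tt
    simp only [halfSp, Set.mem_ofPred_eq, h0, List.getLast?_singleton] at hx ⊢
    rcases lst_mul_tt x with ⟨g, h⟩ | ⟨g, h⟩
    · rw [h] at hx
      cases hl : lst (x * tt) with
      | nil => rw [hl] at hx; simp at hx
      | cons e l => rw [hl] at hx; simpa [List.getLast?_cons_cons] using hx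
    · rw [h]
      cases hl : lst x with
      | nil => rw [hl] at hx; simp at hx
      | cons e l => rw [hl] at hx; simpa [List.getLast?_cons_cons] using hx
  one_not := by
    obtain ⟨g0, h0⟩ := lst_tt
    simp [halfSp, h0, lst_one]
  At_mem := fun x hx => by
    obtain ⟨m, rfl⟩ := mem_geoA.1 hx
    simp only [halfSp, Set.mem_ofPred_eq]
    rw [← tt_mul_o, lst_mul_o]
  cross := fun x hx hxt => by
    obtain ⟨g0, h0⟩ := lst_tt
    simp only [halfSp, Set.mem_ofPred_eq, h0, List.getLast?_singleton] at hx hxt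
    rcases lst_mul_tt x with ⟨g, h⟩ | ⟨g, h⟩
    · exfalso
      apply hx
      rw [h]
      cases hl : lst (x * tt) with
      | nil => rw [hl] at hxt; simp at hxt
      | cons e l => rw [hl] at hxt; simpa [List.getLast?_cons_cons] using hxt
    · cases hl : lst x with
      | nil =>
        obtain ⟨a, rfl⟩ := exists_o_of_lst_nil hl
        rw [h, hl] at hxt
        simp only [List.getLast?_singleton, Option.some.injEq] at hxt
        have h2 : lst tt = lst (o a * tt) := by rw [h, hl, h0, hxt]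
        obtain ⟨b, hb⟩ := exists_o_of_lst_eq h2
        obtain ⟨m, rfl⟩ := britton hb
        exact mem_geoA.2 ⟨m, rfl⟩
      | cons e l =>
        exfalso
        apply hx
        rw [h, hl] at hxt
        rw [hl]
        simpa [List.getLast?_cons_cons] using hxt
  ind := fun Q h1 hH ht hti g =>
    LM_right_induction Q h1 (fun x m hx => hH x _ (mem_subH.2 ⟨m, rfl⟩) hx) ht hti g

end Pool.Agent.MP_5bc3cb_al
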