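import Pool.Agent.MP_5bc3cb_al.Comb1
import Pool.Agent.MP_5bc3cb_al.LMGeo

/-! The Leary-Minasyan group is combable. -/

namespace Pool.Agent.MP_5bc3cb_al

/-- The Gaussian integer `i`. -/
def gI : GaussianInt := ⟨0, 1⟩

/-- The generating set. -/
def gens : Set LM := {o 1, o gI, tt}

lemma o_zsmul (n : ℤ) (m : GaussianInt) : o (n • m) = o m ^ n := by
  unfold o; rw [ofAdd_zsmul, map_zpow]

lemma o_eq (m : GaussianInt) : o m = o 1 ^ m.re * o gI ^ m.im := by
  rw [← o_zsmul, ← o_zsmul, ← o_add]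
  congr 1
  ext <;> simp [gI]

lemma gens_closure : Subgroup.closure gens = ⊤ := by
  rw [eq_top_iff]
  intro x _
  induction x using LM_induction with
  | ho m =>
    rw [o_eq]
    exact Subgroup.mul_mem _
      (Subgroup.zpow_mem _ (Subgroup.subset_closure (by simp [gens])) _)
      (Subgroup.zpow_mem _ (Subgroup.subset_closure (by simp [gens])) _)
  | ht => exact Subgroup.subset_closure (by simp [gens])
  | mul a b ha hb => exact Subgroup.mul_mem _ (ha trivial) (hb trivial)
  | inv a ha => exact Subgroup.inv_mem _ (ha trivial)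

/-- `x` has word length at most `r`. -/
def Wd (x : LM) (r : ℝ) : Prop := ∀ g, dv gens_closure g (g * x) ≤ r

lemma Wd.mono {x : LM} {r r' : ℝ} (h : Wd x r) (hr : r ≤ r') : Wd x r' :=
  fun g => (h g).trans hr

lemma Wd.one : Wd 1 0 := fun g => by rw [mul_one, dv_self]

lemma Wd.mul {x y : LM} {r r' : ℝ} (h : Wd x r) (h' : Wd y r') : Wd (x * y) (r + r') := by
  intro g
  have h1 := dv_triangle gens_closure g (g * x) (g * (x * y))
  have h2 := h' (g * x)
  rw [mul_assoc] at h2
  linarith [h g]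

lemma Wd.inv {x : LM} {r : ℝ} (h : Wd x r) : Wd x⁻¹ r := by
  intro g
  have h1 := h (g * x⁻¹)
  rwa [inv_mul_cancel_right, dv_comm] at h1

lemma Wd.gen {a : LM} (ha : a ∈ gens) : Wd a 1 := fun g => dv_edge _ g ha

lemma Wd.pow {x : LM} (h : Wd x 1) (n : ℕ) : Wd (x ^ n) n := by
  induction n with
  | zero => simpa using Wd.one
  | succ n ih => rw [pow_succ]; push_cast; exact ih.mul h

lemma Wd.zpow {x : LM} (h : Wd x 1) (n : ℤ) : Wd (x ^ n) |(n : ℝ)| := by
  obtain ⟨k, rfl | rfl⟩ := Int.eq_nat_or_neg n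
  · simpa using h.pow k
  · simpa using (h.pow k).inv

lemma Wd_o (m : GaussianInt) : Wd (o m) (2 * ‖(m : ℂ)‖) := by
  have h := ((Wd.gen (a := o 1) (by simp [gens])).zpow m.re).mul
    ((Wd.gen (a := o gI) (by simp [gens])).zpow m.im)
  rw [← o_eq] at h
  refine h.mono ?_
  have h3 := Complex.abs_re_le_norm (m : ℂ)
  have h4 := Complex.abs_im_le_norm (m : ℂ)
  rw [← GaussianInt.intCast_re] at h3
  rw [← GaussianInt.intCast_im] at h4
  linarith

lemma norm_pp_mul (x y : LM) : ‖pp (x * y)‖ ≤ ‖pp x‖ + ‖pp y‖ := by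
  rw [pp_mul]
  refine (norm_add_le _ _).trans ?_
  rw [norm_mul, norm_lam_zpow, one_mul]

/-- `x` lies within `n` steps in the tree, quantitatively. -/
def Tr (n : ℕ) (x : LM) : Prop :=
  ∃ y m, x = y * o m ∧ Wd y (9 * n) ∧ ‖pp y‖ ≤ 9 * n

lemma Tr.zero (m : GaussianInt) : Tr 0 (o m) :=
  ⟨1, m, by simp, by simpa using Wd.one, by simp [pp_one]⟩

lemma Tr.mul_o {n : ℕ} {x : LM} (h : Tr n x) (m : GaussianInt) : Tr n (x * o m) := by
  obtain ⟨y, a, rfl, h1, h2⟩ := h
  exact ⟨y, a + m, by rw [o_add, mul_assoc], h1, h2⟩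

lemma norm_fin5 (i : Fin 5) : ‖((((i : ℕ) : GaussianInt)) : ℂ)‖ ≤ 4 := by
  rw [map_natCast, Complex.norm_natCast]
  have : (i : ℕ) ≤ 4 := by omega
  exact_mod_cast this

lemma Tr.step {n : ℕ} {y : LM} (h1 : Wd y (9 * n)) (h2 : ‖pp y‖ ≤ 9 * n) (i : Fin 5) {w : LM}
    (hw : Wd w 1) (hp : pp w = 0) (m : GaussianInt) :
    Tr (n + 1) (y * o ((i : ℕ) : GaussianInt) * w * o m) := by
  have h3 := norm_fin5 i
  refine ⟨_, m, rfl, ((h1.mul (Wd_o _)).mul hw).mono (by push_cast; linarith), ?_⟩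
  have h4 := norm_pp_mul (y * o ((i : ℕ) : GaussianInt)) w
  have h5 := norm_pp_mul y (o ((i : ℕ) : GaussianInt))
  rw [pp_o] at h5
  rw [hp, norm_zero] at h4
  push_cast; linarith

lemma Tr.mul_tt {n : ℕ} {x : LM} (h : Tr n x) : Tr (n + 1) (x * tt) := by
  obtain ⟨y, a, rfl, h1, h2⟩ := h
  obtain ⟨i, q, rfl⟩ := cover_piB a
  have := Tr.step h1 h2 i (Wd.gen (a := tt) (by simp [gens])) pp_tt (piA * q)
  convert this using 1
  rw [o_add]; simp only [mul_assoc]; rw [tt_mul_o]

lemma Tr.mul_tt_inv {n : ℕ} {x : LM} (h : Tr n x) : Tr (n + 1) (x * tt⁻¹) := by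
  obtain ⟨y, a, rfl, h1, h2⟩ := h
  obtain ⟨i, q, rfl⟩ := cover_piA a
  have := Tr.step h1 h2 i (Wd.gen (a := tt) (by simp [gens])).inv pp_tt_inv (piB * q)
  convert this using 1
  rw [o_add]; simp only [mul_assoc]; rw [o_mul_tt_inv]

lemma Tr.mul_evl {x : LM} (h : Tr 0 x) (l a : List (ℤˣ × Lam)) :
    Tr a.length (x * ((evl l)⁻¹ * evl (a ++ l))) := by
  induction a with
  | nil => simpa using h
  | cons e a ih =>
    rw [List.cons_append, evl_cons, List.length_cons]
    have h1 := ih.mul_o (- e.2.toAdd)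
    rcases Int.units_eq_one_or e.1 with he | he
    · have := h1.mul_tt_inv
      convert this using 1
      rw [he]; simp [mul_assoc]
    · have := h1.mul_tt
      convert this using 1
      rw [he]; simp [mul_assoc]

lemma Tr.wd {n : ℕ} {x : LM} (h : Tr n x) : Wd x (27 * n + 2 * ‖pp x‖) := by
  obtain ⟨y, m, rfl, h1, h2⟩ := h
  refine (h1.mul (Wd_o m)).mono ?_
  have h3 := norm_pp_inv_mul y (y * o m)
  rw [inv_mul_cancel_left, pp_o] at h3
  have h4 := norm_sub_le (pp (y * o m)) (pp y)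
  linarith

lemma dv_evl (l a : List (ℤˣ × Lam)) (m m' : GaussianInt) :
    dv gens_closure (evl l * o m) (evl (a ++ l) * o m') ≤
      27 * a.length + 2 * ‖pp (evl (a ++ l) * o m') - pp (evl l * o m)‖ := by
  have h1 := (((Tr.zero (-m)).mul_evl l a).mul_o m').wd (evl l * o m)
  have h2 : o (-m) * ((evl l)⁻¹ * evl (a ++ l)) * o m' = (evl l * o m)⁻¹ * (evl (a ++ l) * o m') := by
    rw [o_neg]; group
  rw [h2, mul_inv_cancel_left, norm_pp_inv_mul] at h1
  exact h1

/-- The nearest Gaussian integer. -/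
noncomputable def rnd (z : ℂ) : GaussianInt := ⟨round z.re, round z.im⟩

lemma rnd_coe (m : GaussianInt) : rnd m = m := by
  unfold rnd
  rw [← GaussianInt.intCast_re, ← GaussianInt.intCast_im, round_intCast, round_intCast]

lemma norm_rnd_sub (z : ℂ) : ‖(rnd z : ℂ) - z‖ ≤ 1 := by
  refine (Complex.norm_le_abs_re_add_abs_im _).trans ?_
  rw [Complex.sub_re, Complex.sub_im, ← GaussianInt.intCast_re, ← GaussianInt.intCast_im]
  have h1 := abs_sub_round z.re
  have h2 := abs_sub_round z.im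
  rw [abs_sub_comm] at h1 h2
  simp only [rnd]
  linarith

/-- The element above the vertex `l` nearest to the planar position `z`. -/
noncomputable def approx (l : List (ℤˣ × Lam)) (z : ℂ) : LM :=
  evl l * o (rnd (lam ^ (- nn (evl l)) * (z - pp (evl l))))

lemma lam_zpow_mul_neg (k : ℤ) : lam ^ k * lam ^ (-k) = 1 := by
  rw [← zpow_add₀ lam_ne]; simp

lemma norm_pp_approx (l : List (ℤˣ × Lam)) (z : ℂ) : ‖pp (approx l z) - z‖ ≤ 1 := by
  unfold approx
  set w := lam ^ (- nn (evl l)) * (z - pp (evl l)) with hw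
  have h : pp (evl l * o (rnd w)) - z = lam ^ nn (evl l) * ((rnd w : ℂ) - w) := by
    rw [pp_mul, pp_o, hw]
    linear_combination (z - pp (evl l)) * lam_zpow_mul_neg (nn (evl l))
  rw [h, norm_mul, norm_lam_zpow, one_mul]
  exact norm_rnd_sub w

lemma approx_self (g : LM) : approx (lst g) (pp g) = g := by
  obtain ⟨m, hm⟩ := exists_evl g
  unfold approx
  have h : lam ^ (- nn (evl (lst g))) * (pp g - pp (evl (lst g))) = m := by
    conv_lhs => rw [show pp g = pp (evl (lst g) * o m) from congrArg pp hm]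
    rw [pp_mul, pp_o]
    linear_combination (m : ℂ) * lam_zpow_mul_neg (nn (evl (lst g)))
  rw [h, rnd_coe, ← hm]

lemma approx_nil : approx [] 0 = 1 := by
  have := approx_self 1
  rwa [lst_one, pp_one] at this

lemma dv_approx (l a : List (ℤˣ × Lam)) (z z' : ℂ) :
    dv gens_closure (approx l z) (approx (a ++ l) z') ≤ 27 * a.length + 2 * ‖z' - z‖ + 4 := by
  have h1 : dv gens_closure (approx l z) (approx (a ++ l) z') ≤
      27 * a.length + 2 * ‖pp (approx (a ++ l) z') - pp (approx l z)‖ := dv_evl l a _ _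
  have h2 := norm_pp_approx l z
  have h3 := norm_pp_approx (a ++ l) z'
  have h4 : pp (approx (a ++ l) z') - pp (approx l z) =
      (pp (approx (a ++ l) z') - z') + (z' - z) - (pp (approx l z) - z) := by ring
  have h5 := norm_sub_le ((pp (approx (a ++ l) z') - z') + (z' - z)) (pp (approx l z) - z)
  have h6 := norm_add_le (pp (approx (a ++ l) z') - z') (z' - z)
  rw [← h4] at h5
  linarith

/-- Clamping a real number to `[-τ, τ]`. -/
noncomputable def cl (τ x : ℝ) : ℝ := max (-τ) (min τ x)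

lemma abs_cl_sub (τ τ' x x' : ℝ) : |cl τ x - cl τ' x'| ≤ |τ - τ'| + |x - x'| := by
  unfold cl
  refine (abs_max_sub_max_le_max _ _ _ _).trans (max_le ?_ ?_)
  · rw [neg_sub_neg, abs_sub_comm]; linarith [abs_nonneg (x - x')]
  · refine (abs_min_sub_min_le_max _ _ _ _).trans (max_le ?_ ?_)
    · linarith [abs_nonneg (x - x')]
    · linarith [abs_nonneg (τ - τ')]

lemma cl_of_le {τ x : ℝ} (h : |x| ≤ τ) : cl τ x = x := by
  unfold cl
  rw [abs_le] at h
  rw [min_eq_right h.2, max_eq_right h.1]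

lemma cl_zero (x : ℝ) : cl 0 x = 0 := by
  unfold cl
  rw [neg_zero, max_eq_left (min_le_left _ _)]

/-- Clamping a complex number coordinatewise. -/
noncomputable def clC (τ : ℝ) (z : ℂ) : ℂ := ⟨cl τ z.re, cl τ z.im⟩

lemma norm_clC_sub (τ τ' : ℝ) (z z' : ℂ) :
    ‖clC τ z - clC τ' z'‖ ≤ 2 * |τ - τ'| + 2 * ‖z - z'‖ := by
  refine (Complex.norm_le_abs_re_add_abs_im _).trans ?_
  have h1 := abs_cl_sub τ τ' z.re z'.re
  have h2 := abs_cl_sub τ τ' z.im z'.im
  have h3 := Complex.abs_re_le_norm (z - z')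
  have h4 := Complex.abs_im_le_norm (z - z')
  simp only [Complex.sub_re, Complex.sub_im, clC] at *
  linarith

lemma clC_of_le {τ : ℝ} {z : ℂ} (h : ‖z‖ ≤ τ) : clC τ z = z := by
  unfold clC
  rw [cl_of_le ((Complex.abs_re_le_norm z).trans h), cl_of_le ((Complex.abs_im_le_norm z).trans h)]

lemma clC_zero (z : ℂ) : clC 0 z = 0 := by
  unfold clC; rw [cl_zero, cl_zero]; rfl

/-- The last `j` entries of a list. -/
def suf {α : Type} (l : List α) (j : ℕ) : List α := l.drop (l.length - j)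

lemma suf_zero {α : Type} (l : List α) : suf l 0 = [] := by simp [suf]

lemma suf_of_le {α : Type} (l : List α) {j : ℕ} (h : l.length ≤ j) : suf l j = l := by
  simp [suf, Nat.sub_eq_zero_of_le h]

lemma suf_mono {α : Type} (l : List α) {j j' : ℕ} (h : j ≤ j') :
    ∃ a, suf l j' = a ++ suf l j ∧ a.length ≤ j' - j := by
  refine ⟨(suf l j').take ((l.length - j) - (l.length - j')), ?_, ?_⟩
  · have h1 : suf l j = (suf l j').drop ((l.length - j) - (l.length - j')) := by
      unfold suf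
      rw [List.drop_drop]
      congr 1; omega
    rw [h1, List.take_append_drop]
  · rw [List.length_take]; omega

lemma suf_cons {α : Type} (e : α) (l : List α) (j : ℕ) :
    ∃ a, suf (e :: l) j = a ++ suf l j ∧ a.length ≤ 1 := by
  by_cases h : j ≤ l.length
  · refine ⟨[], ?_, by simp⟩
    unfold suf
    rw [List.length_cons, show l.length + 1 - j = (l.length - j) + 1 by omega, List.drop_succ_cons]
    rfl
  · refine ⟨[e], ?_, by simp⟩
    rw [suf_of_le _ (by simp; omega), suf_of_le _ (by omega)]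
    rfl

/-- The combing of the vertex set. -/
noncomputable def comb (g : LM) (τ : ℝ) : LM := approx (suf (lst g) ⌊τ⌋₊) (clC τ (pp g))

/-- The length of the combing line. -/
noncomputable def combLen (g : LM) : ℝ := (lst g).length + ‖pp g‖

lemma lst_adj (g : LM) {a : LM} (ha : a ∈ gens) :
    lst (g * a) = lst g ∨ (∃ e, lst (g * a) = e :: lst g) ∨ (∃ e, lst g = e :: lst (g * a)) := by
  simp only [gens, Set.mem_insert_iff, Set.mem_singleton_iff] at ha
  rcases ha with rfl | rfl | rfl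
  · exact Or.inl (lst_mul_o _ _)
  · exact Or.inl (lst_mul_o _ _)
  · rcases lst_mul_tt g with ⟨e, h⟩ | ⟨e, h⟩
    · exact Or.inr (Or.inr ⟨_, h⟩)
    · exact Or.inr (Or.inl ⟨_, h⟩)

lemma pp_adj (g : LM) {a : LM} (ha : a ∈ gens) : ‖pp (g * a) - pp g‖ ≤ 1 := by
  rw [← norm_pp_inv_mul, inv_mul_cancel_left]
  simp only [gens, Set.mem_insert_iff, Set.mem_singleton_iff] at ha
  rcases ha with rfl | rfl | rfl
  · rw [pp_o]; simp
  · rw [pp_o]; simp [gI, GaussianInt.toComplex_def']
  · rw [pp_tt]; simp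

lemma comb_lip_le (g : LM) {τ τ' : ℝ} (h0 : 0 ≤ τ) (h : τ ≤ τ') :
    dv gens_closure (comb g τ) (comb g τ') ≤ 31 * |τ - τ'| + 31 := by
  obtain ⟨a, ha, hl⟩ := suf_mono (lst g) (Nat.floor_le_floor h)
  unfold comb
  rw [ha]
  have h1 := dv_approx (suf (lst g) ⌊τ⌋₊) a (clC τ (pp g)) (clC τ' (pp g))
  have h2 := norm_clC_sub τ' τ (pp g) (pp g)
  rw [sub_self, norm_zero, abs_sub_comm] at h2
  have h3 : (a.length : ℝ) ≤ |τ - τ'| + 1 := by
    have h4 : (a.length : ℝ) ≤ (⌊τ'⌋₊ : ℝ) - ⌊τ⌋₊ := by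
      rw [← Nat.cast_sub (Nat.floor_le_floor h)]; exact_mod_cast hl
    have h5 := Nat.floor_le (h0.trans h)
    have h6 := Nat.lt_floor_add_one τ
    rw [abs_sub_comm, abs_of_nonneg (sub_nonneg.2 h)]
    linarith
  linarith

theorem LM_combable : GroupCombable LM := by
  refine ⟨gens, gens_closure, by simp [gens], ?_⟩
  refine combable_of_discrete gens_closure comb combLen 31 31 35 (by norm_num) (by norm_num)
    (by norm_num) (fun g => by unfold combLen; positivity) (fun g => ?_) (fun g τ h => ?_)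
    (fun g τ τ' h h' => ?_) (fun g a ha τ _ => ?_) (fun g a ha => ?_)
  · simp [comb, suf_zero, clC_zero, approx_nil]
  · unfold combLen at h
    have h1 : (0 : ℝ) ≤ (lst g).length := by positivity
    have h2 := norm_nonneg (pp g)
    unfold comb
    rw [suf_of_le _ (Nat.le_floor (by linarith)), clC_of_le (by linarith), approx_self]
  · rcases le_total τ τ' with hh | hh
    · exact comb_lip_le g h hh
    · rw [dv_comm, abs_sub_comm]; exact comb_lip_le g h' hh
  · have h1 := pp_adj g ha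
    have h2 := norm_clC_sub τ τ (pp (g * a)) (pp g)
    have h3 := norm_clC_sub τ τ (pp g) (pp (g * a))
    rw [norm_sub_rev (pp g)] at h3
    rw [sub_self, abs_zero] at h2 h3
    unfold comb
    rcases lst_adj g ha with h | ⟨e, h⟩ | ⟨e, h⟩
    · rw [h]
      have h4 := dv_approx (suf (lst g) ⌊τ⌋₊) [] (clC τ (pp g)) (clC τ (pp (g * a)))
      simp only [List.nil_append, List.length_nil, Nat.cast_zero] at h4
      linarith
    · obtain ⟨c, hc, hl⟩ := suf_cons e (lst g) ⌊τ⌋₊
      rw [h, hc]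
      have h4 := dv_approx (suf (lst g) ⌊τ⌋₊) c (clC τ (pp g)) (clC τ (pp (g * a)))
      have h5 : (c.length : ℝ) ≤ 1 := by exact_mod_cast hl
      linarith
    · obtain ⟨c, hc, hl⟩ := suf_cons e (lst (g * a)) ⌊τ⌋₊
      rw [h, hc, dv_comm]
      have h4 := dv_approx (suf (lst (g * a)) ⌊τ⌋₊) c (clC τ (pp (g * a))) (clC τ (pp g))
      have h5 : (c.length : ℝ) ≤ 1 := by exact_mod_cast hl
      linarith
  · have h1 := pp_adj g ha
    have h2 := abs_norm_sub_norm_le (pp (g * a)) (pp g)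
    rw [abs_le] at h2 ⊢
    unfold combLen
    rcases lst_adj g ha with h | ⟨e, h⟩ | ⟨e, h⟩
    · rw [h]; constructor <;> linarith
    · rw [h, List.length_cons]; push_cast; constructor <;> linarith
    · rw [h, List.length_cons]; push_cast; constructor <;> linarith

theorem exists_geo_combable :
    ∃ (G : Type) (_ : Group G), Nonempty (Geo G) ∧ GroupCombable G :=
  ⟨LM, inferInstance, ⟨lmGeo⟩, LM_combable⟩

end Pool.Agent.MP_5bc3cb_al
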