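import Pool.Agent.MP_5bc3cb_al.MeanAPI

namespace Pool.Agent.MP_5bc3cb_al
open Filter

/-- abstract cut-and-paste system -/
structure CutSys {G : Type} [Group G] (Γ : Geo G) (S β Y : Type) where
  D : ℕ → Set G
  Q : ℕ → G → S
  σ : ℕ → G → β
  Z : ℕ → G → Y
  e : β → G
  D_sub : ∀ l, D l ⊆ Γ.CA
  cp : ∀ l1 l2 g1 g2, g1 ∈ D l1 → g2 ∈ D l2 → Q l1 g1 = Q l2 g2 →
    g1 * ((e (σ l1 g1))⁻¹ * e (σ l2 g2)) ∈ D l2 ∧
    Q l2 (g1 * ((e (σ l1 g1))⁻¹ * e (σ l2 g2))) = Q l2 g2 ∧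
    σ l2 (g1 * ((e (σ l1 g1))⁻¹ * e (σ l2 g2))) = σ l2 g2 ∧
    Z l2 (g1 * ((e (σ l1 g1))⁻¹ * e (σ l2 g2))) = Z l1 g1

namespace CutSys
variable {G : Type} [Group G] {Γ : Geo G} {S β Y : Type} (C : CutSys Γ S β Y) (M : Mean Γ)

/-- cell -/
def Cell (l : ℕ) (q : S) (x : β) (B : Set Y) : Set G :=
  {g | (g ∈ C.D l ∧ C.Q l g = q ∧ C.Z l g ∈ B) ∧ C.σ l g = x}

theorem cell_le {l1 l2 : ℕ} {q : S} {x1 x2 : β} (h2 : (C.Cell l2 q x2 Set.univ).Nonempty)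
    (B : Set Y) : M.m (C.Cell l1 q x1 B) ≤
      (Γ.d : ℝ) ^ Γ.n ((C.e x1)⁻¹ * C.e x2) * M.m (C.Cell l2 q x2 B) := by
  obtain ⟨g2, ⟨hd2, hq2, -⟩, rfl⟩ := h2
  refine M.qi _ _ _ (fun g hg => C.D_sub _ hg.1.1) (fun g hg => C.D_sub _ hg.1.1) ?_
  rintro g1 ⟨⟨hd1, hq1, hz⟩, rfl⟩
  obtain ⟨e1, e2, e3, e4⟩ := C.cp l1 l2 g1 g2 hd1 hd2 (hq1.trans hq2.symm)
  exact ⟨⟨e1, e2.trans hq2, e4 ▸ hz⟩, e3⟩

theorem cell_eq {l1 l2 : ℕ} {q : S} {x1 x2 : β} (h1 : (C.Cell l1 q x1 Set.univ).Nonempty)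
    (h2 : (C.Cell l2 q x2 Set.univ).Nonempty) (B : Set Y) : M.m (C.Cell l1 q x1 B) =
      (Γ.d : ℝ) ^ Γ.n ((C.e x1)⁻¹ * C.e x2) * M.m (C.Cell l2 q x2 B) := by
  have hd : (0 : ℝ) < Γ.d := by exact_mod_cast Γ.d_pos
  refine le_antisymm (C.cell_le M h2 B) ?_
  have := mul_le_mul_of_nonneg_left (C.cell_le M (l1 := l2) (x1 := x2) h1 B)
    (zpow_pos hd (Γ.n ((C.e x1)⁻¹ * C.e x2))).le
  rwa [← mul_assoc, ← zpow_add₀ hd.ne', ← Γ.n_mul, mul_assoc (C.e x1)⁻¹, mul_inv_cancel_left,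
    inv_mul_cancel, Γ.n_one, zpow_zero, one_mul] at this

theorem cell_zero {l : ℕ} {q : S} {x : β} (h : ¬ (C.Cell l q x Set.univ).Nonempty) (B : Set Y) :
    M.m (C.Cell l q x B) = 0 := by
  have : C.Cell l q x B = ∅ := Set.eq_empty_of_forall_notMem fun g hg =>
    h ⟨g, ⟨hg.1.1, hg.1.2.1, trivial⟩, hg.2⟩
  rw [this, M.m_empty]

theorem cell_prod (l1 l2 : ℕ) (q : S) (x1 x2 : β) (B : Set Y) :
    M.m (C.Cell l1 q x1 B) * M.m (C.Cell l2 q x2 Set.univ) =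
      M.m (C.Cell l1 q x1 Set.univ) * M.m (C.Cell l2 q x2 B) := by
  by_cases h1 : (C.Cell l1 q x1 Set.univ).Nonempty
  · by_cases h2 : (C.Cell l2 q x2 Set.univ).Nonempty
    · rw [C.cell_eq M h1 h2 B, C.cell_eq M h1 h2 Set.univ]; ring
    · simp [C.cell_zero M h2]
  · simp [C.cell_zero M h1]

theorem homog (hD : ∀ l, ∀ᶠ g in M.ae, g ∈ C.D l)
    (hσ : ∀ l, ∃ F : Finset β, ∀ᶠ g in M.ae, C.σ l g ∈ F) (l1 l2 : ℕ) (q : S) (B : Set Y) :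
    M.m {g | C.Q l1 g = q ∧ C.Z l1 g ∈ B} * M.m {g | C.Q l2 g = q} =
      M.m {g | C.Q l1 g = q} * M.m {g | C.Q l2 g = q ∧ C.Z l2 g ∈ B} := by
  choose F hF using hσ
  have h1 : ∀ l B, M.m {g | C.Q l g = q ∧ C.Z l g ∈ B} = ∑ x ∈ F l, M.m (C.Cell l q x B) := by
    intro l B
    rw [show ∑ x ∈ F l, M.m (C.Cell l q x B) = _ from
      (M.partition (F l) (C.σ l) (hF l) {g | g ∈ C.D l ∧ C.Q l g = q ∧ C.Z l g ∈ B}).symm]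
    exact le_antisymm (M.mono_ae ((hD l).mono fun g hg h => ⟨hg, h⟩)) (M.mono fun g hg => hg.2)
  have h2 : ∀ l, M.m {g | C.Q l g = q} = ∑ x ∈ F l, M.m (C.Cell l q x Set.univ) := by
    intro l; rw [← h1]; simp
  rw [h1, h1, h2, h2, Finset.sum_mul_sum, Finset.sum_mul_sum]
  exact Finset.sum_congr rfl fun x1 _ => Finset.sum_congr rfl fun x2 _ => C.cell_prod M _ _ _ _ _ _

theorem bdd (l : ℕ) (hD : ∀ᶠ g in M.ae, g ∈ C.D l) (FS : Finset S)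
    (hS : ∀ g ∈ C.D l, C.Q l g ∈ FS)
    (hn : ∀ g ∈ C.D l, ∀ g' ∈ C.D l, C.Q l g = C.Q l g' →
      Γ.n (C.e (C.σ l g)) = Γ.n (C.e (C.σ l g')))
    (ht : ∀ δ : ℝ, 0 < δ → ∃ F : Finset β, M.m {g | C.σ l g ∉ F} ≤ δ) :
    ∃ F : Finset β, ∀ᶠ g in M.ae, C.σ l g ∈ F := by
  classical
  have key : ∀ q, {x | M.m (C.Cell l q x Set.univ) ≠ 0}.Finite := by
    intro q
    by_contra hinf
    obtain ⟨x0, hx0⟩ := Set.Infinite.nonempty hinf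
    have hne : ∀ x, M.m (C.Cell l q x Set.univ) ≠ 0 → (C.Cell l q x Set.univ).Nonempty :=
      fun x hx => by by_contra h; exact hx (C.cell_zero M h _)
    refine hx0 (le_antisymm (Mean.le_of_forall_nat fun J => ?_) (M.nonneg _))
    obtain ⟨s, hs, hJ⟩ := Set.Infinite.exists_subset_card_eq hinf J
    have h1 := M.disj_le s (fun x => C.Cell l q x Set.univ) Set.univ
      (fun _ _ => Set.subset_univ _) fun i _ j _ g h1 h2 => h1.2.symm.trans h2.2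
    rw [M.m_univ, Finset.sum_congr rfl (g := fun _ => M.m (C.Cell l q x0 Set.univ))] at h1
    · simpa [hJ] using h1
    · intro x hx
      have hx' := hne x (hs hx)
      rw [C.cell_eq M hx' (hne x0 hx0)]
      obtain ⟨g, ⟨e1, e2, -⟩, rfl⟩ := hx'
      obtain ⟨g', ⟨e1', e2', -⟩, rfl⟩ := hne x0 hx0
      rw [Γ.n_mul, Γ.n_inv, hn g e1 g' e1' (e2.trans e2'.symm)]; simp
  refine ⟨FS.biUnion fun q => (key q).toFinset, ?_⟩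
  rw [M.ae_iff]
  refine le_antisymm (le_of_forall_pos_le_add fun δ hδ => ?_) (M.nonneg _)
  obtain ⟨F, hF⟩ := ht δ hδ
  set F0 := FS.biUnion fun q => (key q).toFinset
  have h0 : M.m {g | g ∈ C.D l ∧ C.σ l g ∈ F ∧ C.σ l g ∉ F0} ≤ 0 := by
    refine (M.cover_le (FS ×ˢ (F \ F0)) _ (fun c => C.Cell l c.1 c.2 Set.univ) ?_).trans
      (Finset.sum_eq_zero fun c hc => ?_).le
    · rintro g ⟨e1, e2, e3⟩
      exact ⟨(C.Q l g, C.σ l g), Finset.mem_product.2 ⟨hS g e1, Finset.mem_sdiff.2 ⟨e2, e3⟩⟩,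
        ⟨e1, rfl, trivial⟩, rfl⟩
    · by_contra h
      rw [Finset.mem_product, Finset.mem_sdiff] at hc
      exact hc.2.2 (Finset.mem_biUnion.2 ⟨c.1, hc.1, (key _).mem_toFinset.2 h⟩)
  have h1 := M.mono_ae (E := {g | C.σ l g ∉ F0}) (E' := {g | g ∈ C.D l ∧ C.σ l g ∉ F0})
    (hD.mono fun g hg h => ⟨hg, h⟩)
  have h2 := M.union_le (E := {g | g ∈ C.D l ∧ C.σ l g ∉ F0})
    (E1 := {g | g ∈ C.D l ∧ C.σ l g ∈ F ∧ C.σ l g ∉ F0}) (E2 := {g | C.σ l g ∉ F})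
    fun g hg => by
      by_cases h : C.σ l g ∈ F
      · exact Or.inl ⟨hg.1, h, hg.2⟩
      · exact Or.inr h
  linarith

end CutSys
end Pool.Agent.MP_5bc3cb_al
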