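import Pool.Agent.MP_5bc3cb_al.Tight
import Pool.Agent.MP_5bc3cb_al.Homog

namespace Pool.Agent.MP_5bc3cb_al
open Filter Pointwise

variable {G : Type} [Group G] (Γ : Geo G) (U : UA G)

theorem exists_exit (l : ℕ) (g : G) : ∃ s, U.B g s ∉ Γ.Desc l g :=
  ⟨(U.w g).length, by rw [U.B_of_le le_rfl]; exact Geo.one_not_Desc _ _⟩

open Classical in
/-- backward exit time -/
noncomputable def Tm (l : ℕ) (g : G) : ℕ := Nat.find (exists_exit Γ U l g)

/-- part of the normal form before the cut -/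
noncomputable def pre (l : ℕ) (g : G) : List U.α := (U.w g).take ((U.w g).length - Tm Γ U l g)

/-- part of the normal form after the cut -/
noncomputable def sfx (l : ℕ) (g : G) : List U.α := (U.w g).drop ((U.w g).length - Tm Γ U l g)

/-- relative position of the edge -/
def edge (l : ℕ) (g : G) : Set G := {x | Γ.Anc l (ev U.π (pre Γ U l g) * x) g}

/-- state at the cut -/
noncomputable def St (l : ℕ) (g : G) : Set (List U.α) × Set G :=
  (quot U.L (pre Γ U l g), edge Γ U l g)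

variable {Γ U}

theorem Tm_spec (l : ℕ) (g : G) : U.B g (Tm Γ U l g) ∉ Γ.Desc l g := by
  classical exact Nat.find_spec (exists_exit Γ U l g)

theorem Tm_min {l : ℕ} {g : G} {s : ℕ} (h : s < Tm Γ U l g) : U.B g s ∈ Γ.Desc l g := by
  classical exact not_not.1 (Nat.find_min (exists_exit Γ U l g) h)

theorem Tm_le {l : ℕ} {g : G} {s : ℕ} (h : U.B g s ∉ Γ.Desc l g) : Tm Γ U l g ≤ s := by
  classical exact Nat.find_min' (exists_exit Γ U l g) h

theorem Tm_le_len (l : ℕ) (g : G) : Tm Γ U l g ≤ (U.w g).length :=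
  Tm_le (by rw [U.B_of_le le_rfl]; exact Geo.one_not_Desc _ _)

theorem pre_suf (l : ℕ) (g : G) : pre Γ U l g ++ sfx Γ U l g = U.w g := List.take_append_drop _ _

theorem ev_pre (l : ℕ) (g : G) : ev U.π (pre Γ U l g) = U.B g (Tm Γ U l g) := rfl

theorem ev_pre_suf (l : ℕ) (g : G) : ev U.π (pre Γ U l g) * ev U.π (sfx Γ U l g) = g := by
  rw [← ev_append, pre_suf, U.ev_w]

theorem suf_length (l : ℕ) (g : G) : (sfx Γ U l g).length = Tm Γ U l g := by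
  have := Tm_le_len (Γ := Γ) (U := U) l g
  simp only [sfx, List.length_drop]; omega

theorem pre_length (l : ℕ) (g : G) :
    (pre Γ U l g).length = (U.w g).length - Tm Γ U l g := by
  simp [pre]

theorem B_of_split {g : G} {u σ : List U.α} (h : U.w g = u ++ σ) :
    U.B g σ.length = ev U.π u := by
  simp [UA.B, UA.F, h]

theorem suf_inside {l : ℕ} {g : G} {σ1 σ2 : List U.α} (h : sfx Γ U l g = σ1 ++ σ2)
    (hne : σ1 ≠ []) : ev U.π (pre Γ U l g) * ev U.π σ1 ∈ Γ.Desc l g := by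
  rw [← ev_append, ← B_of_split (σ := σ2) (by rw [List.append_assoc, ← h, pre_suf])]
  refine Tm_min ?_
  have := List.length_pos_iff.2 hne
  rw [← suf_length, h, List.length_append]; omega

theorem cut_char {l : ℕ} {g : G} {u σ : List U.α} (h : U.w g = u ++ σ)
    (h1 : ev U.π u ∉ Γ.Desc l g)
    (h2 : ∀ σ1 σ2, σ = σ1 ++ σ2 → σ1 ≠ [] → ev U.π u * ev U.π σ1 ∈ Γ.Desc l g) :
    pre Γ U l g = u ∧ sfx Γ U l g = σ := by
  have hT : Tm Γ U l g = σ.length := by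
    refine le_antisymm (Tm_le (by rwa [B_of_split h])) ?_
    by_contra hlt
    push Not at hlt
    have e := h2 (σ.take (σ.length - Tm Γ U l g)) (σ.drop (σ.length - Tm Γ U l g))
      (List.take_append_drop _ _).symm
      (by rw [← List.length_pos_iff, List.length_take]; omega)
    rw [← ev_append, ← B_of_split (σ := σ.drop (σ.length - Tm Γ U l g))
      (by rw [List.append_assoc, List.take_append_drop, h]), List.length_drop,
      show σ.length - (σ.length - Tm Γ U l g) = Tm Γ U l g by omega] at e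
    exact Tm_spec l g e
  simp [pre, sfx, hT, h]

theorem Tm_mono {l l' : ℕ} (hl : l ≤ l') {g : G} (hg : g ∈ Γ.Dom l') :
    Tm Γ U l g ≤ Tm Γ U l' g :=
  Tm_le fun h => Tm_spec l' g (Geo.Desc_mono hl hg h)

theorem exists_step {l l' : ℕ} (hl : l ≤ l') {g : G} (hg : g ∈ Γ.Dom l') :
    ∃ τ, pre Γ U l g = pre Γ U l' g ++ τ ∧ sfx Γ U l' g = τ ++ sfx Γ U l g := by
  have h1 : pre Γ U l' g <+: pre Γ U l g :=
    List.take_prefix_take_left (by have := Tm_mono (U := U) hl hg; omega)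
  obtain ⟨τ, hτ⟩ := h1
  refine ⟨τ, hτ.symm, ?_⟩
  have := pre_suf (Γ := Γ) (U := U) l g
  rw [← hτ, ← pre_suf (Γ := Γ) l' g, List.append_assoc] at this
  exact (List.append_cancel_left this).symm

section cp
variable {l1 l2 : ℕ} {g1 g2 : G} (hS : St Γ U l1 g1 = St Γ U l2 g2)
include hS

theorem cp_w : U.w (ev U.π (pre Γ U l1 g1) * ev U.π (sfx Γ U l2 g2)) =
    pre Γ U l1 g1 ++ sfx Γ U l2 g2 := by
  have h1 : sfx Γ U l2 g2 ∈ quot U.L (pre Γ U l2 g2) := by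
    simp only [quot, Set.mem_ofPred_eq, pre_suf]; exact U.w_mem _
  rw [← show quot U.L (pre Γ U l1 g1) = quot U.L (pre Γ U l2 g2) from congrArg Prod.fst hS] at h1
  exact U.w_eq_of_mem h1 (ev_append _ _ _)

theorem cp_anc0 {γ : G} (h : Γ.Anc l1 γ g1) :
    Γ.Anc l2 (ev U.π (pre Γ U l2 g2) * ((ev U.π (pre Γ U l1 g1))⁻¹ * γ)) g2 := by
  have h1 : (ev U.π (pre Γ U l1 g1))⁻¹ * γ ∈ edge Γ U l1 g1 := by simpa [edge] using h
  rw [show edge Γ U l1 g1 = edge Γ U l2 g2 from congrArg Prod.snd hS] at h1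
  exact h1

theorem cp_anc {j : ℕ} {γ : G} (h : Γ.Anc (j + l1) γ g1) :
    Γ.Anc (j + l2) γ (ev U.π (pre Γ U l1 g1) * ev U.π (sfx Γ U l2 g2)) := by
  obtain ⟨z, hz, h1⟩ := h.split
  refine Geo.Anc.join h.1 hz ⟨h1.1, ?_⟩
  have h2 := (cp_anc0 hS h1).2
  have e : (ev U.π (pre Γ U l2 g2))⁻¹ * g2 = ev U.π (sfx Γ U l2 g2) := by
    rw [inv_mul_eq_iff_eq_mul, ev_pre_suf]
  rw [mul_inv_rev, mul_assoc, e] at h2
  simpa [mul_assoc] using h2

theorem cp_dom {j : ℕ} (h : g1 ∈ Γ.Dom (j + l1)) :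
    ev U.π (pre Γ U l1 g1) * ev U.π (sfx Γ U l2 g2) ∈ Γ.Dom (j + l2) := by
  obtain ⟨γ, h⟩ := h; exact ⟨γ, cp_anc hS h⟩

theorem cp_desc {j : ℕ} (h : g1 ∈ Γ.Dom (j + l1)) {y : G} :
    y ∈ Γ.Desc (j + l2) (ev U.π (pre Γ U l1 g1) * ev U.π (sfx Γ U l2 g2)) ↔
      y ∈ Γ.Desc (j + l1) g1 := by
  obtain ⟨γ, h⟩ := h
  rw [(cp_anc hS h).mem_Desc, h.mem_Desc]

theorem cp_cut {j : ℕ} (h : g1 ∈ Γ.Dom (j + l1)) {τ : List U.α}
    (h1 : pre Γ U l1 g1 = pre Γ U (j + l1) g1 ++ τ)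
    (h2 : sfx Γ U (j + l1) g1 = τ ++ sfx Γ U l1 g1) :
    pre Γ U (j + l2) (ev U.π (pre Γ U l1 g1) * ev U.π (sfx Γ U l2 g2)) = pre Γ U (j + l1) g1 ∧
    sfx Γ U (j + l2) (ev U.π (pre Γ U l1 g1) * ev U.π (sfx Γ U l2 g2)) = τ ++ sfx Γ U l2 g2 := by
  refine cut_char (by rw [cp_w hS, ← List.append_assoc, ← h1]) ?_ fun ρ1 ρ2 hρ hne => ?_
  · rw [cp_desc hS h]; exact Tm_spec _ _
  · rw [cp_desc hS h]
    rcases List.append_eq_append_iff.1 hρ with ⟨a, e1, e2⟩ | ⟨c, e1, e2⟩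
    · rcases eq_or_ne a [] with rfl | ha
      · rw [List.append_nil] at e1
        exact suf_inside (e1 ▸ h2) hne
      · refine Geo.Desc_mono (Nat.le_add_left _ _) h ?_
        obtain ⟨γ, hγ⟩ := Geo.Dom_mono (Nat.le_add_left l1 j) h
        have e3 := (cp_anc0 hS hγ).mem_Desc.1 (suf_inside e2 ha)
        rw [e1, ev_append, ← mul_assoc, ← ev_append, ← h1, hγ.mem_Desc]
        simpa [mul_assoc] using e3
    · exact suf_inside (σ2 := c ++ sfx Γ U l1 g1) (by rw [h2, e1, List.append_assoc]) hne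

theorem cp_pre {j : ℕ} (h : g1 ∈ Γ.Dom (j + l1)) :
    pre Γ U (j + l2) (ev U.π (pre Γ U l1 g1) * ev U.π (sfx Γ U l2 g2)) = pre Γ U (j + l1) g1 := by
  obtain ⟨τ, h1, h2⟩ := exists_step (U := U) (Nat.le_add_left l1 j) h
  exact (cp_cut hS h h1 h2).1

theorem cp_suf (h : g1 ∈ Γ.Dom l1) :
    sfx Γ U l2 (ev U.π (pre Γ U l1 g1) * ev U.π (sfx Γ U l2 g2)) = sfx Γ U l2 g2 := by
  simpa using (cp_cut (j := 0) (τ := []) hS (by simpa using h) (by simp) (by simp)).2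

theorem cp_St {j : ℕ} (hl1 : 0 < l1) (h : g1 ∈ Γ.Dom (j + l1)) (_hl2 : 0 < l2) :
    St Γ U (j + l2) (ev U.π (pre Γ U l1 g1) * ev U.π (sfx Γ U l2 g2)) = St Γ U (j + l1) g1 := by
  simp only [St, edge, cp_pre hS h, Prod.mk.injEq, true_and]
  ext x
  refine ⟨fun hx => ?_, fun hx => cp_anc hS hx⟩
  obtain ⟨γ, hγ⟩ := h
  obtain ⟨k, hk⟩ : ∃ k, j + l1 = k + 1 := ⟨j + l1 - 1, by omega⟩
  have e := (cp_anc hS hγ).uniq hx
  rw [hk] at hγ e ⊢
  simpa using hγ.mul_A e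

end cp

variable (Γ U) in
theorem St_finite : ∃ FS : Finset (Set (List U.α) × Set G), ∀ l, ∀ g ∈ Γ.Dom (l + 1),
    St Γ U (l + 1) g ∈ FS := by
  obtain ⟨F, hF, h⟩ := Γ.cross_set (ball_finite U.π 1)
  refine ⟨(U.finQ.prod (hF.image fun f => {x | f⁻¹ * x ∈ Γ.A})).toFinset, fun l g hg => ?_⟩
  rw [Set.Finite.mem_toFinset]
  refine ⟨⟨_, rfl⟩, ?_⟩
  have hT : 0 < Tm Γ U (l + 1) g := Nat.pos_of_ne_zero fun h0 => by
    have := Tm_spec (Γ := Γ) (U := U) (l + 1) g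
    rw [h0, U.B_zero] at this
    exact this (Geo.self_mem_Desc hg)
  obtain ⟨s, hs⟩ : ∃ s, Tm Γ U (l + 1) g = s + 1 := ⟨_, (Nat.succ_pred_eq_of_pos hT).symm⟩
  obtain ⟨γ, hγ⟩ := hg
  have h1 := Tm_spec (Γ := Γ) (U := U) (l + 1) g
  have h2 : U.B g s ∈ Γ.Desc (l + 1) g := Tm_min (by omega)
  rw [hγ.mem_Desc] at h1 h2
  rw [hs] at h1
  obtain ⟨f, hf, e⟩ := h _ (U.B_step g s) (γ⁻¹ * U.B g (s + 1)) (fun h' => h1 (h'.1
    (by simpa [mul_assoc] using h2)))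
  refine ⟨f, hf, ?_⟩
  ext x
  simp only [St, edge, Set.mem_ofPred_eq, ev_pre, hs]
  constructor
  · intro hx
    simpa [mul_assoc] using hγ.mul_A (Γ.A.mul_mem e hx)
  · intro hx
    simpa [mul_assoc] using Γ.A.mul_mem (Γ.A.inv_mem e) (hγ.uniq hx)

variable (Γ) in
/-- level of an edge datum -/
noncomputable def nu (e : Set G) : ℤ := Γ.n (Classical.epsilon fun x => x ∈ e)

theorem n_suf {l : ℕ} {g : G} (hg : g ∈ Γ.Dom l) :
    Γ.n (ev U.π (sfx Γ U l g)) = nu Γ (edge Γ U l g) + l := by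
  obtain ⟨γ, hγ⟩ := hg
  have h1 := Classical.epsilon_spec (p := fun x => x ∈ edge Γ U l g)
    ⟨(ev U.π (pre Γ U l g))⁻¹ * γ, by simpa [edge] using hγ⟩
  have h2 := Γ.n_Pos h1.2
  have e : (ev U.π (pre Γ U l g))⁻¹ * g = ev U.π (sfx Γ U l g) := by
    rw [inv_mul_eq_iff_eq_mul, ev_pre_suf]
  rw [mul_inv_rev, mul_assoc, e, Γ.n_mul, Γ.n_inv] at h2
  unfold nu; omega

theorem paste_eq (l : ℕ) (g x : G) :
    g * ((ev U.π (sfx Γ U l g))⁻¹ * x) = ev U.π (pre Γ U l g) * x := by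
  rw [← mul_assoc, mul_inv_eq_of_eq_mul (ev_pre_suf l g).symm]

end Pool.Agent.MP_5bc3cb_al
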