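import Mathlib

namespace Pool.Agent.MP_5bc3cb_al

/-- A `(k, ε)`-broken path `p : [0, b] → X` with `p 0 = x0`. -/
structure BrokenPath (X : Type) [MetricSpace X] (x0 : X) (k ε : ℝ) where
  b : ℝ
  b_nonneg : 0 ≤ b
  toFun : Set.Icc (0 : ℝ) b → X
  start : toFun ⟨0, le_refl 0, b_nonneg⟩ = x0
  bound : ∀ s t, dist (toFun s) (toFun t) ≤ k * |(s : ℝ) - (t : ℝ)| + ε

/-- The extension of a broken path to all times `t ≥ 0`, constant after time `b`. -/
noncomputable def BrokenPath.valueAt {X : Type} [MetricSpace X] {x0 : X} {k ε : ℝ}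
    (p : BrokenPath X x0 k ε) (t : NNReal) : X :=
  p.toFun ⟨min (t : ℝ) p.b, le_min t.coe_nonneg p.b_nonneg, min_le_right _ _⟩

/-- The distance `d_P` between broken paths. -/
noncomputable def BrokenPath.dP {X : Type} [MetricSpace X] {x0 : X} {k ε : ℝ}
    (p q : BrokenPath X x0 k ε) : ℝ :=
  (⨆ t : NNReal, dist (p.valueAt t) (q.valueAt t)) + |p.b - q.b|

/-- `X` with base point `x0` has a `(k, ε)`-combing for some `k ≥ 1`, `ε ≥ 0`. -/
def Combable (X : Type) [MetricSpace X] (x0 : X) : Prop :=
  ∃ k ε : ℝ, 1 ≤ k ∧ 0 ≤ ε ∧ ∃ σ : X → BrokenPath X x0 k ε,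
    (∀ x, (σ x).toFun ⟨(σ x).b, (σ x).b_nonneg, le_refl _⟩ = x) ∧
    ∃ lam c : ℝ, 1 ≤ lam ∧ 0 ≤ c ∧ ∀ x y,
      lam⁻¹ * dist x y - c ≤ (σ x).dP (σ y) ∧ (σ x).dP (σ y) ≤ lam * dist x y + c

/-- Points of the Cayley graph of `G` with respect to `A`: vertices, and interior points of the
edge from `g` to `g * a` at parameter `s`. -/
inductive CayleyPt {G : Type} (A : Set G) : Type
  | vert (g : G) : CayleyPt A
  | edge (g : G) (a : A) (s : Set.Ioo (0 : ℝ) 1) : CayleyPt A

/-- The point at parameter `s ∈ [0, 1]` of the closed edge from `g` to `g * a`. -/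
noncomputable def edgePt {G : Type} [Group G] {A : Set G} (g : G) (a : A)
    (s : Set.Icc (0 : ℝ) 1) : CayleyPt A :=
  if h0 : (s : ℝ) = 0 then CayleyPt.vert g
  else if h1 : (s : ℝ) = 1 then CayleyPt.vert (g * a)
  else CayleyPt.edge g a ⟨s, lt_of_le_of_ne s.2.1 (Ne.symm h0), lt_of_le_of_ne s.2.2 h1⟩

/-- `Route x y r`: there is a route from `x` to `y` of length `r` made of finitely many
segments, each inside one closed edge of length 1. -/
inductive Route {G : Type} [Group G] {A : Set G} : CayleyPt A → CayleyPt A → ℝ → Prop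
  | nil (x : CayleyPt A) : Route x x 0
  | step (x : CayleyPt A) (r : ℝ) (g : G) (a : A) (s s' : Set.Icc (0 : ℝ) 1) :
      Route x (edgePt g a s) r → Route x (edgePt g a s') (r + |(s : ℝ) - (s' : ℝ)|)

section
variable {G : Type} [Group G] {A : Set G}

theorem Route.nonneg {x y : CayleyPt A} {r : ℝ} (h : Route x y r) : 0 ≤ r := by
  induction h with
  | nil => exact le_refl 0
  | step r g a s s' _ ih => positivity

theorem Route.trans {x y z : CayleyPt A} {r r' : ℝ} (h : Route x y r) (h' : Route y z r') :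
    Route x z (r + r') := by
  induction h' with
  | nil => simpa using h
  | step r g a s s' _ ih => rw [← add_assoc]; exact Route.step _ _ g a s s' ih

theorem Route.single (g : G) (a : A) (s s' : Set.Icc (0 : ℝ) 1) :
    Route (edgePt g a s) (edgePt g a s') |(s : ℝ) - (s' : ℝ)| := by
  simpa using Route.step _ _ g a s s' (Route.nil _)

theorem Route.symm {x y : CayleyPt A} {r : ℝ} (h : Route x y r) : Route y x r := by
  induction h with
  | nil => exact Route.nil _
  | step r g a s s' _ ih =>
    rw [add_comm, abs_sub_comm]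
    exact (Route.single g a s' s).trans ih

theorem edgePt_zero (g : G) (a : A) : edgePt g a 0 = CayleyPt.vert g := by
  simp [edgePt]

theorem edgePt_one (g : G) (a : A) : edgePt g a 1 = CayleyPt.vert (g * a) := by
  simp [edgePt]

theorem edgePt_mid (g : G) (a : A) (s : Set.Ioo (0 : ℝ) 1) :
    edgePt g a ⟨s, s.2.1.le, s.2.2.le⟩ = CayleyPt.edge g a s := by
  simp [edgePt, s.2.1.ne', s.2.2.ne]

theorem route_edge (g : G) (a : A) : Route (CayleyPt.vert g : CayleyPt A) (.vert (g * a)) 1 := by
  simpa [edgePt_zero, edgePt_one] using Route.single g a 0 1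

theorem route_vert (hA : Subgroup.closure A = ⊤) (g h : G) :
    ∃ r, Route (CayleyPt.vert g : CayleyPt A) (.vert (g * h)) r := by
  have hh : h ∈ Subgroup.closure A := hA ▸ Subgroup.mem_top h
  induction hh using Subgroup.closure_induction generalizing g with
  | mem x hx => exact ⟨1, route_edge g ⟨x, hx⟩⟩
  | one => exact ⟨0, by simpa using Route.nil _⟩
  | mul x y _ _ ihx ihy =>
    obtain ⟨r, hr⟩ := ihx g
    obtain ⟨r', hr'⟩ := ihy (g * x)
    exact ⟨_, by simpa [mul_assoc] using hr.trans hr'⟩
  | inv x _ ih =>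
    obtain ⟨r, hr⟩ := ih (g * x⁻¹)
    exact ⟨r, by simpa using hr.symm⟩

theorem route_to_vert (x : CayleyPt A) : ∃ g r, Route x (.vert g) r := by
  cases x with
  | vert g => exact ⟨g, 0, Route.nil _⟩
  | edge g a s =>
    have h := Route.single g a ⟨s, s.2.1.le, s.2.2.le⟩ 0
    rw [edgePt_mid, edgePt_zero] at h
    exact ⟨g, _, h⟩

theorem route_exists (hA : Subgroup.closure A = ⊤) (x y : CayleyPt A) : ∃ r, Route x y r := by
  obtain ⟨g, r, hr⟩ := route_to_vert x
  obtain ⟨g', r', hr'⟩ := route_to_vert y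
  obtain ⟨r'', hr''⟩ := route_vert hA g (g⁻¹ * g')
  rw [mul_inv_cancel_left] at hr''
  exact ⟨_, (hr.trans hr'').trans hr'.symm⟩

theorem Route.lip_le {F : CayleyPt A → ℝ}
    (hF : ∀ g a s s', |F (edgePt g a s) - F (edgePt g a s')| ≤ |(s : ℝ) - (s' : ℝ)|)
    {x y : CayleyPt A} {r : ℝ} (h : Route x y r) : |F x - F y| ≤ r := by
  induction h with
  | nil => simp
  | step r g a s s' _ ih => exact (abs_sub_le _ _ _).trans (add_le_add ih (hF g a s s'))

open Classical in
theorem exists_sep {x y : CayleyPt A} (hxy : x ≠ y) : ∃ F : CayleyPt A → ℝ,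
    (∀ g a s s', |F (edgePt g a s) - F (edgePt g a s')| ≤ |(s : ℝ) - (s' : ℝ)|) ∧ F x ≠ F y := by
  have key : ∀ (g0 : G) (a0 : A) (s0 : Set.Ioo (0 : ℝ) 1) (y : CayleyPt A),
      CayleyPt.edge g0 a0 s0 ≠ y → ∃ F : CayleyPt A → ℝ,
      (∀ g a s s', |F (edgePt g a s) - F (edgePt g a s')| ≤ |(s : ℝ) - (s' : ℝ)|) ∧
        F (.edge g0 a0 s0) ≠ F y := by
    intro g0 a0 s0 y hy
    set m : ℝ := min (s0 : ℝ) (1 - s0) with hm
    have hm0 : 0 < m := lt_min s0.2.1 (sub_pos.2 s0.2.2)
    let F : CayleyPt A → ℝ := fun z => match z with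
      | .vert _ => m
      | .edge g a s => if g = g0 ∧ a = a0 then min m |(s : ℝ) - s0| else m
    have hF : ∀ g a (s : Set.Icc (0 : ℝ) 1), F (edgePt g a s) =
        if g = g0 ∧ a = a0 then min m |(s : ℝ) - s0| else m := by
      intro g a s
      unfold edgePt
      split_ifs with h0 h1 h2 h3 h4
      · simp only [F, h0]
        rw [min_eq_left]; rw [zero_sub, abs_neg, abs_of_pos s0.2.1]; exact min_le_left _ _
      · rfl
      · simp only [F, h2]
        rw [min_eq_left]; rw [abs_of_pos (sub_pos.2 s0.2.2)]; exact min_le_right _ _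
      · rfl
      · simp only [F, if_pos h4]
      · simp only [F, if_neg h4]
    refine ⟨F, fun g a s s' => ?_, ?_⟩
    · rw [hF, hF]
      split_ifs
      · refine (abs_min_sub_min_le_max _ _ _ _).trans (max_le (by simp) ?_)
        simpa using abs_abs_sub_abs_le_abs_sub ((s : ℝ) - s0) ((s' : ℝ) - s0)
      · simp
    · have h1 : F (.edge g0 a0 s0) = 0 := by simp [F, hm0.le]
      rw [h1]
      cases y with
      | vert g => exact hm0.ne
      | edge g a s =>
        simp only [F]
        split_ifs with h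
        · refine (lt_min hm0 (abs_pos.2 fun h' => hy ?_)).ne
          rw [h.1, h.2, Subtype.ext (sub_eq_zero.1 h')]
        · exact hm0.ne
  cases x with
  | edge g a s => exact key g a s y hxy
  | vert g0 =>
    cases y with
    | edge g a s =>
      obtain ⟨F, h1, h2⟩ := key g a s _ hxy.symm
      exact ⟨F, h1, h2.symm⟩
    | vert g1 =>
      let f : G → ℝ := fun g => if g = g0 then 0 else 1
      let F : CayleyPt A → ℝ := fun z => match z with
        | .vert g => f g
        | .edge g a s => f g + s * (f (g * a) - f g)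
      have hF : ∀ g a (s : Set.Icc (0 : ℝ) 1), F (edgePt g a s) =
          f g + s * (f (g * a) - f g) := by
        intro g a s
        unfold edgePt
        split_ifs with h0 h1
        · simp [F, h0]
        · simp [F, h1]
        · rfl
      refine ⟨F, fun g a s s' => ?_, ?_⟩
      · rw [hF, hF, add_sub_add_left_eq_sub, ← sub_mul, abs_mul]
        refine mul_le_of_le_one_right (abs_nonneg _) ?_
        simp only [f]
        split_ifs <;> simp
      · have : g1 ≠ g0 := fun h => hxy (by rw [h])
        simp [F, f, this]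

end

/-- The path metric on the Cayley graph: the infimum of the lengths of routes. -/
@[reducible] noncomputable def cayleyMetric {G : Type} [Group G] {A : Set G}
    (hA : Subgroup.closure A = ⊤) : MetricSpace (CayleyPt A) where
  dist x y := sInf {r | Route x y r}
  dist_self x := le_antisymm (csInf_le ⟨0, fun _ h => Route.nonneg h⟩ (Route.nil x))
    (le_csInf ⟨0, Route.nil x⟩ fun _ h => Route.nonneg h)
  dist_comm x y := by
    congr 1; ext r; exact ⟨Route.symm, Route.symm⟩
  dist_triangle x y z := by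
    rw [← sub_le_iff_le_add']
    refine le_csInf (route_exists hA y z) fun r' h' => ?_
    rw [sub_le_comm]
    refine le_csInf (route_exists hA x y) fun r h => ?_
    rw [sub_le_iff_le_add]
    exact csInf_le ⟨0, fun _ h => Route.nonneg h⟩ (Route.trans h h')
  eq_of_dist_eq_zero {x y} h := by
    by_contra hxy
    obtain ⟨F, hF, hne⟩ := exists_sep hxy
    have : |F x - F y| ≤ sInf {r | Route x y r} :=
      le_csInf (route_exists hA x y) fun r hr => Route.lip_le hF hr
    exact hne (sub_eq_zero.1 (abs_nonpos_iff.1 (this.trans h.le)))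

/-- A group is (finitely generated and) combable: its Cayley graph for some finite generating
set is combable. -/
def GroupCombable (G : Type) [Group G] : Prop :=
  ∃ (A : Set G) (hA : Subgroup.closure A = ⊤), A.Finite ∧
    @Combable (CayleyPt A) (cayleyMetric hA) (CayleyPt.vert 1)

/-- `x` and `y` are at distance at most `K` in the Cayley graph for the letters `π : α → G`. -/
def WordClose {G α : Type} [Group G] (π : α → G) (K : ℕ) (x y : G) : Prop :=
  ∃ z : List α, z.length ≤ K ∧ x * (z.map π).prod = y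

/-- `G` is automatic: finite alphabet closed under inverses, regular language onto `G`,
synchronous fellow-traveller property. -/
def IsAutomatic (G : Type) [Group G] : Prop :=
  ∃ (α : Type) (_ : Finite α) (π : α → G) (L : Language α) (K : ℕ),
    (∀ a, ∃ b, π b = (π a)⁻¹) ∧ L.IsRegular ∧ (∀ g, ∃ u ∈ L, (u.map π).prod = g) ∧
    ∀ u ∈ L, ∀ v ∈ L, WordClose π 1 (u.map π).prod (v.map π).prod →
      ∀ t : ℕ, WordClose π K ((u.take t).map π).prod ((v.take t).map π).prod

end Pool.Agent.MP_5bc3cb_al
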