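import Mathlib

/-! The Leary-Minasyan group as an HNN extension of the Gaussian integers: basic structure. -/

namespace Pool.Agent.MP_5bc3cb_al

open HNNExtension HNNExtension.NormalWord

/-- The vertex group, the Gaussian integers written multiplicatively. -/
abbrev Lam := Multiplicative GaussianInt

/-- Multiplication by a Gaussian integer. -/
def mulBy (a : GaussianInt) : Lam →* Lam :=
  AddMonoidHom.toMultiplicative (AddMonoidHom.mulLeft a)

lemma mulBy_apply (a m : GaussianInt) :
    mulBy a (Multiplicative.ofAdd m) = Multiplicative.ofAdd (a * m) := rfl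

lemma mulBy_inj (a : GaussianInt) (ha : a ≠ 0) : Function.Injective (mulBy a) := by
  intro x y h
  have h1 : a * x.toAdd = a * y.toAdd := congrArg Multiplicative.toAdd h
  exact Multiplicative.toAdd.injective (mul_left_cancel₀ ha h1)

def piA : GaussianInt := ⟨2, -1⟩
def piB : GaussianInt := ⟨2, 1⟩

lemma piA_ne : piA ≠ 0 := by decide
lemma piB_ne : piB ≠ 0 := by decide

def subA : Subgroup Lam := (mulBy piA).range
def subB : Subgroup Lam := (mulBy piB).range

noncomputable def phi : subA ≃* subB :=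
  (MonoidHom.ofInjective (mulBy_inj piA piA_ne)).symm.trans
    (MonoidHom.ofInjective (mulBy_inj piB piB_ne))

/-- The Leary-Minasyan group. -/
abbrev LM := HNNExtension Lam subA subB phi

lemma phi_apply (m : GaussianInt) (h : Multiplicative.ofAdd (piA * m) ∈ subA) :
    (phi ⟨Multiplicative.ofAdd (piA * m), h⟩ : Lam) = Multiplicative.ofAdd (piB * m) := by
  have h1 : (⟨Multiplicative.ofAdd (piA * m), h⟩ : subA) =
      MonoidHom.ofInjective (mulBy_inj piA piA_ne) (Multiplicative.ofAdd m) := rfl
  rw [h1]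
  unfold phi
  erw [MulEquiv.trans_apply, MulEquiv.symm_apply_apply]
  rfl

/-- The embedding of the Gaussian integers. -/
noncomputable def o (m : GaussianInt) : LM := of (Multiplicative.ofAdd m)

/-- The stable letter. -/
noncomputable def tt : LM := t

lemma o_add (a b : GaussianInt) : o (a + b) = o a * o b := by
  unfold o; rw [ofAdd_add, map_mul]

lemma o_zero : o 0 = 1 := by unfold o; rw [ofAdd_zero, map_one]

lemma o_neg (a : GaussianInt) : o (-a) = (o a)⁻¹ := by
  unfold o; rw [ofAdd_neg, map_inv]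

lemma o_inj : Function.Injective o := by
  intro a b h
  exact Multiplicative.ofAdd.injective (HNNExtension.of_injective phi h)

lemma of_eq_o (g : Lam) : (of g : LM) = o g.toAdd := rfl

lemma tt_mul_o (m : GaussianInt) : tt * o (piA * m) = o (piB * m) * tt := by
  have h : Multiplicative.ofAdd (piA * m) ∈ subA := ⟨Multiplicative.ofAdd m, rfl⟩
  have h1 := t_mul_of (φ := phi) ⟨Multiplicative.ofAdd (piA * m), h⟩
  rw [phi_apply] at h1
  exact h1

lemma o_mul_tt_inv (m : GaussianInt) : o (piA * m) * tt⁻¹ = tt⁻¹ * o (piB * m) := by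
  have h := tt_mul_o m
  calc o (piA * m) * tt⁻¹ = tt⁻¹ * (tt * o (piA * m)) * tt⁻¹ := by group
    _ = tt⁻¹ * o (piB * m) := by rw [h]; group

lemma LM_induction {motive : LM → Prop} (x : LM) (ho : ∀ m, motive (o m)) (ht : motive tt)
    (mul : ∀ x y, motive x → motive y → motive (x * y))
    (inv : ∀ x, motive x → motive x⁻¹) : motive x :=
  HNNExtension.induction_on x (fun g => ho g.toAdd) ht mul inv

/-! ### Exponent and planar cocycle -/

/-- The rotation number. -/
noncomputable def lam : ℂ := (3 + 4 * Complex.I) / 5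

lemma piA_coe : ((piA : GaussianInt) : ℂ) = 2 - Complex.I := by
  simp [piA, GaussianInt.toComplex_def']; ring

lemma piB_coe : ((piB : GaussianInt) : ℂ) = 2 + Complex.I := by
  simp [piB, GaussianInt.toComplex_def']

lemma lam_mul_piA : lam * (piA : ℂ) = (piB : ℂ) := by
  rw [piA_coe, piB_coe, lam]
  have h : Complex.I * Complex.I = -1 := Complex.I_mul_I
  linear_combination (-4 / 5 : ℂ) * h

lemma norm_lam : ‖lam‖ = 1 := by
  have h : Complex.normSq lam = 1 := by
    rw [lam]; simp [Complex.normSq_apply]; norm_num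
  rw [Complex.norm_def, h]; simp

lemma lam_ne : lam ≠ 0 := by
  intro h; have := norm_lam; rw [h] at this; simp at this

/-- The exponent sum of the stable letter, multiplicatively. -/
noncomputable def nHom : LM →* Multiplicative ℤ :=
  HNNExtension.lift 1 (Multiplicative.ofAdd 1) (by intro a; simp)

/-- The exponent sum of the stable letter. -/
noncomputable def nn (g : LM) : ℤ := (nHom g).toAdd

lemma nn_mul (g h : LM) : nn (g * h) = nn g + nn h := by simp [nn]
lemma nn_one : nn 1 = 0 := by simp [nn]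
lemma nn_inv (g : LM) : nn g⁻¹ = - nn g := by simp [nn]
lemma nn_o (m : GaussianInt) : nn (o m) = 0 := by simp [nn, nHom, o]
lemma nn_tt : nn tt = 1 := by simp [nn, nHom, tt]

/-- Translations. -/
noncomputable def trHom : Lam →* Equiv.Perm ℂ where
  toFun m := Equiv.addLeft ((m.toAdd : GaussianInt) : ℂ)
  map_one' := by ext z; simp
  map_mul' a b := by ext z; simp

/-- The affine representation. -/
noncomputable def rho : LM →* Equiv.Perm ℂ :=
  HNNExtension.lift trHom (Equiv.mulLeft₀ lam lam_ne) (by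
    rintro ⟨a, m, rfl⟩
    have h := phi_apply m.toAdd ⟨m, rfl⟩
    have h2 : (phi ⟨mulBy piA m, m, rfl⟩ : Lam) = Multiplicative.ofAdd (piB * m.toAdd) := h
    rw [h2]
    ext z
    have h3 : (mulBy piA m).toAdd = piA * m.toAdd := rfl
    simp only [trHom, MonoidHom.coe_mk, OneHom.coe_mk, Equiv.Perm.coe_mul, Function.comp_apply,
      Equiv.coe_addLeft, Equiv.mulLeft₀_apply, toAdd_ofAdd, h3, map_mul]
    rw [← lam_mul_piA]; ring)

lemma rho_o (m : GaussianInt) (z : ℂ) : rho (o m) z = (m : ℂ) + z := by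
  simp [rho, o, trHom]

lemma rho_tt (z : ℂ) : rho tt z = lam * z := by
  simp [rho, tt]

/-- The planar cocycle. -/
noncomputable def pp (g : LM) : ℂ := rho g 0

lemma rho_apply (g : LM) : ∀ z : ℂ, rho g z = pp g + lam ^ nn g * z := by
  induction g using LM_induction with
  | ho m => intro z; simp [pp, rho_o, nn_o]
  | ht => intro z; simp [pp, rho_tt, nn_tt]
  | mul x y hx hy =>
    intro z
    unfold pp
    rw [map_mul, Equiv.Perm.mul_apply, Equiv.Perm.mul_apply, hx, hx, hy, hy, nn_mul,
      zpow_add₀ lam_ne]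
    ring
  | inv x hx =>
    intro z
    have h1 : ∀ w, rho x (rho x⁻¹ w) = w := by
      intro w; rw [← Equiv.Perm.mul_apply, ← map_mul]; simp
    have h2 := h1 z
    have h3 := h1 0
    rw [hx] at h2 h3
    have h4 : lam ^ nn x * lam ^ (- nn x) = 1 := by
      rw [← zpow_add₀ lam_ne]; simp
    rw [nn_inv]
    unfold pp at *
    have h5 : lam ^ nn x ≠ 0 := zpow_ne_zero _ lam_ne
    apply mul_left_cancel₀ h5
    linear_combination h2 - h3 - z * h4

lemma pp_mul (g h : LM) : pp (g * h) = pp g + lam ^ nn g * pp h := by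
  rw [← rho_apply]; unfold pp; rw [map_mul, Equiv.Perm.mul_apply]

lemma pp_one : pp 1 = 0 := by simp [pp]
lemma pp_o (m : GaussianInt) : pp (o m) = m := by simp [pp, rho_o]
lemma pp_tt : pp tt = 0 := by simp [pp, rho_tt]

lemma norm_lam_zpow (k : ℤ) : ‖lam ^ k‖ = 1 := by rw [norm_zpow, norm_lam]; simp

lemma pp_inv (g : LM) : pp g⁻¹ = - (lam ^ (- nn g) * pp g) := by
  have h := pp_mul g⁻¹ g
  rw [inv_mul_cancel, pp_one, nn_inv] at h
  linear_combination -h

lemma pp_tt_inv : pp tt⁻¹ = 0 := by rw [pp_inv, pp_tt]; simp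

lemma norm_pp_inv_mul (g h : LM) : ‖pp (g⁻¹ * h)‖ = ‖pp h - pp g‖ := by
  have : pp (g⁻¹ * h) = lam ^ (- nn g) * (pp h - pp g) := by
    rw [pp_mul, pp_inv, nn_inv]; ring
  rw [this, norm_mul, norm_lam_zpow, one_mul]

/-! ### Normal forms -/

/-- A fixed pair of transversals. -/
noncomputable def dd : TransversalPair Lam subA subB := Classical.choice inferInstance

/-- The normal form of the inverse. -/
noncomputable def nf (x : LM) : NormalWord dd := x⁻¹ • (empty : NormalWord dd)

/-- The list of syllables (read from the right end of the element), a name for the vertex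
`x Lam` of the Bass-Serre tree. -/
noncomputable def lst (x : LM) : List (ℤˣ × Lam) := (nf x).toList

/-- Evaluation of a list of syllables. -/
noncomputable def evl (l : List (ℤˣ × Lam)) : LM := ((l.map (fun x => (t : LM) ^ (x.1 : ℤ) * of x.2)).prod)⁻¹

lemma evl_nil : evl [] = 1 := by simp [evl]

lemma evl_cons (a : ℤˣ × Lam) (l : List (ℤˣ × Lam)) :
    evl (a :: l) = evl l * o (- a.2.toAdd) * tt ^ (- (a.1 : ℤ)) := by
  simp only [evl, List.map_cons, List.prod_cons, mul_inv_rev, o_neg, zpow_neg, tt, mul_assoc]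
  rfl

lemma nf_mul (x y : LM) : nf (x * y) = y⁻¹ • nf x := by
  unfold nf; rw [mul_inv_rev, mul_smul]

lemma nf_one : nf 1 = empty := by simp [nf]

lemma lst_one : lst 1 = [] := by rw [lst, nf_one]; rfl

lemma lst_mul_o (x : LM) (m : GaussianInt) : lst (x * o m) = lst x := by
  unfold lst
  rw [nf_mul, ← o_neg]
  unfold o
  rw [of_smul_eq_smul]; rfl

lemma lst_o (m : GaussianInt) : lst (o m) = [] := by
  have := lst_mul_o 1 m
  rwa [one_mul, lst_one] at this

lemma eq_evl (x : LM) : x = evl (lst x) * o (- (nf x).head.toAdd) := by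
  have h : (nf x).prod phi = x⁻¹ := by simp [nf]
  have h2 : x = ((nf x).prod phi)⁻¹ := by rw [h, inv_inv]
  rw [o_neg]
  conv_lhs => rw [h2]
  simp only [ReducedWord.prod, mul_inv_rev]
  rfl

lemma exists_evl (x : LM) : ∃ m, x = evl (lst x) * o m := ⟨_, eq_evl x⟩

lemma exists_o_of_lst_eq {x y : LM} (h : lst x = lst y) : ∃ m, y = x * o m := by
  obtain ⟨a, ha⟩ := exists_evl x
  obtain ⟨b, hb⟩ := exists_evl y
  refine ⟨-a + b, ?_⟩
  rw [o_add, o_neg, hb, ← h]
  conv_rhs => rw [ha]
  group

lemma exists_o_of_lst_nil {x : LM} (h : lst x = []) : ∃ m, x = o m := by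
  obtain ⟨m, hm⟩ := exists_o_of_lst_eq (lst_one.trans h.symm)
  exact ⟨m, by simpa using hm⟩

/-- Push or pop. -/
lemma lst_mul_tt_pow (x : LM) (u : ℤˣ) :
    (∃ g, lst x = (u, g) :: lst (x * tt ^ (u : ℤ)) ∧ Cancels (-u) (nf x)) ∨
    (∃ g, lst (x * tt ^ (u : ℤ)) = (-u, g) :: lst x ∧ ¬ Cancels (-u) (nf x)) := by
  have h : nf (x * tt ^ (u : ℤ)) = unitsSMul phi (-u) (nf x) := by
    rw [nf_mul, ← t_pow_smul_eq_unitsSMul, ← zpow_neg]
    rfl
  unfold lst
  rw [h]
  generalize nf x = w
  by_cases hc : Cancels (-u) w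
  · left
    unfold unitsSMul
    rw [dif_pos hc]
    induction w using consRecOn with
    | ofGroup g => simp [Cancels] at hc
    | cons g u' w h1 h2 _ =>
      have h3 := hc.2
      simp only [cons_toList, List.head?_cons, Option.map_some, neg_neg, Option.some.injEq] at h3
      subst h3
      refine ⟨w.head, ?_, hc⟩
      simp [unitsSMulWithCancel]
  · right
    unfold unitsSMul
    rw [dif_neg hc]
    exact ⟨_, rfl, hc⟩

end Pool.Agent.MP_5bc3cb_al
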