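import Mathlib

namespace Pool.Agent.MP_5bc3cb_al

theorem perron_inj {F : Type} [Fintype F] (P : F → F → ℝ) (hP : ∀ i j, 0 ≤ P i j)
    (hs : ∀ i, ∑ j, P i j ≤ 1) (lam : ℂ) (hl : ‖lam‖ = 1) (hne : ∀ k : ℕ, 0 < k → lam ^ k ≠ 1)
    (χ : F → ℂ) (h : ∀ i, lam * χ i = ∑ j, (P i j : ℂ) * χ j) : χ = 0 := by
  classical
  by_contra hχ
  obtain ⟨i0, hi0⟩ := Function.ne_iff.1 hχ
  obtain ⟨i1, -, hmax⟩ := Finset.exists_max_image Finset.univ (fun i => ‖χ i‖) ⟨i0, by simp⟩
  set R := ‖χ i1‖ with hR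
  have hR0 : 0 < R := (norm_pos_iff.2 hi0).trans_le (hmax i0 (Finset.mem_univ _))
  have step : ∀ i, ‖χ i‖ = R → ∃ j, χ j = lam * χ i := by
    intro i hi
    by_contra hc
    push Not at hc
    set v := lam * χ i with hv
    have hvn : ‖v‖ = R := by rw [hv, norm_mul, hl, one_mul, hi]
    have hlt : ∀ j, ((starRingEnd ℂ) v * χ j).re < R ^ 2 := fun j => by
      have h1 : 0 < ‖χ j - v‖ ^ 2 := pow_pos (norm_pos_iff.2 (sub_ne_zero.2 (hc j))) 2
      have h2 := hmax j (Finset.mem_univ _)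
      have h3 : ‖χ j‖ ^ 2 ≤ R ^ 2 := pow_le_pow_left₀ (norm_nonneg _) h2 2
      rw [← hvn] at h3 ⊢
      simp only [Complex.sq_norm, Complex.normSq_apply, Complex.sub_re, Complex.sub_im,
        Complex.mul_re, Complex.conj_re, Complex.conj_im] at h1 h3 ⊢
      nlinarith
    have h1 : ∑ j, P i j * ((starRingEnd ℂ) v * χ j).re = R ^ 2 := by
      have : ((starRingEnd ℂ) v * v).re = R ^ 2 := by
        rw [← hvn, Complex.sq_norm, Complex.normSq_apply]; simp
      rw [← this]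
      have e : (starRingEnd ℂ) v * v = ∑ j, (P i j : ℂ) * ((starRingEnd ℂ) v * χ j) := by
        have e0 : v = ∑ j, (P i j : ℂ) * χ j := h i
        rw [show (starRingEnd ℂ) v * v = (starRingEnd ℂ) v * ∑ j, (P i j : ℂ) * χ j by rw [← e0],
          Finset.mul_sum]
        exact Finset.sum_congr rfl fun j _ => by ring
      rw [e, Complex.re_sum]
      simp
    have h2 : ∀ j, P i j = 0 := by
      by_contra h0
      push Not at h0
      obtain ⟨j0, hj0⟩ := h0
      have h3 : ∑ j, P i j * ((starRingEnd ℂ) v * χ j).re < ∑ j, P i j * R ^ 2 :=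
        Finset.sum_lt_sum (fun j _ => mul_le_mul_of_nonneg_left (hlt j).le (hP i j))
          ⟨j0, Finset.mem_univ _, mul_lt_mul_of_pos_left (hlt j0) ((hP i j0).lt_of_ne' hj0)⟩
      rw [← Finset.sum_mul, h1] at h3
      nlinarith [hs i, pow_pos hR0 2]
    simp only [h2, zero_mul, Finset.sum_const_zero] at h1
    exact (pow_pos hR0 2).ne h1
  have iter : ∀ k : ℕ, ∃ j, χ j = lam ^ k * χ i1 := by
    intro k
    induction k with
    | zero => exact ⟨i1, by simp⟩
    | succ k ih =>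
      obtain ⟨j, hj⟩ := ih
      obtain ⟨j', hj'⟩ := step j (by rw [hj, norm_mul, norm_pow, hl, one_pow, one_mul])
      exact ⟨j', by rw [hj', hj, pow_succ', mul_assoc]⟩
  choose f hf using iter
  obtain ⟨a, b, hab, he⟩ := Finite.exists_ne_map_eq_of_infinite f
  wlog hlt : a < b generalizing a b
  · exact this b a hab.symm he.symm (by omega)
  obtain ⟨k, rfl⟩ := Nat.exists_eq_add_of_lt hlt
  have h1 : lam ^ a * χ i1 = lam ^ (a + k + 1) * χ i1 := by rw [← hf, ← hf, he]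
  have hl0 : lam ≠ 0 := fun h0 => by rw [h0] at hl; simp at hl
  have h2 := mul_right_cancel₀ (norm_pos_iff.1 hR0) h1
  rw [add_assoc, pow_add] at h2
  exact hne (k + 1) (Nat.succ_pos k) (mul_left_cancel₀ (pow_ne_zero a hl0) (by rw [← h2, mul_one]))

theorem perron {F : Type} [Fintype F] (P : F → F → ℝ) (hP : ∀ i j, 0 ≤ P i j)
    (hs : ∀ i, ∑ j, P i j ≤ 1) (lam : ℂ) (hl : ‖lam‖ = 1) (hne : ∀ k : ℕ, 0 < k → lam ^ k ≠ 1)
    (μ : ℕ → F → ℝ) (hμ : ∀ l i, |μ l i| ≤ 1) (hstep : ∀ l j, μ (l + 1) j = ∑ i, μ l i * P i j)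
    (φ : F → ℂ) (c : ℂ) (hc : ∀ l, ∑ i, (μ l i : ℂ) * φ i = lam ^ l * c) : c = 0 := by
  classical
  let T : (F → ℂ) →ₗ[ℂ] (F → ℂ) :=
    { toFun := fun χ i => lam * χ i - ∑ j, (P i j : ℂ) * χ j
      map_add' := fun x y => by
        ext i; simp only [Pi.add_apply, mul_add, Finset.sum_add_distrib]; ring
      map_smul' := fun a x => by
        ext i
        simp only [Pi.smul_apply, smul_eq_mul, RingHom.id_apply, mul_sub, Finset.mul_sum]
        congr 1
        · ring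
        · exact Finset.sum_congr rfl fun j _ => by ring }
  have hinj : Function.Injective T := (injective_iff_map_eq_zero T).2 fun χ h =>
    perron_inj P hP hs lam hl hne χ fun i => sub_eq_zero.1 (congrFun h i)
  obtain ⟨χ, hχ⟩ := LinearMap.injective_iff_surjective.1 hinj φ
  let a : ℕ → ℂ := fun l => ∑ i, (μ l i : ℂ) * χ i
  have h1 : ∀ l, a (l + 1) = lam * a l - lam ^ l * c := by
    intro l
    rw [← hc l, ← hχ]
    simp only [a, T, LinearMap.coe_mk, AddHom.coe_mk, hstep, mul_sub, Finset.sum_sub_distrib,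
      Finset.mul_sum]
    push_cast
    simp only [Finset.sum_mul]
    rw [Finset.sum_comm]
    have e1 : ∑ i, lam * ((μ l i : ℂ) * χ i) = ∑ i, (μ l i : ℂ) * (lam * χ i) :=
      Finset.sum_congr rfl fun i _ => by ring
    rw [e1, sub_sub_cancel]
    exact Finset.sum_congr rfl fun i _ => Finset.sum_congr rfl fun j _ => by ring
  have h2 : ∀ l : ℕ, lam * a l = lam ^ l * (lam * a 0 - l * c) := by
    intro l
    induction l with
    | zero => simp
    | succ l ih => rw [h1, ih]; push_cast; ring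
  have h3 : ∀ l, ‖a l‖ ≤ ∑ i, ‖χ i‖ := fun l =>
    (norm_sum_le _ _).trans (Finset.sum_le_sum fun i _ => by
      rw [norm_mul, Complex.norm_real, Real.norm_eq_abs]
      exact mul_le_of_le_one_left (norm_nonneg _) (hμ l i))
  by_contra hc0
  have hc1 := norm_pos_iff.2 hc0
  obtain ⟨l, hl'⟩ := exists_nat_gt (2 * (∑ i, ‖χ i‖) / ‖c‖)
  rw [div_lt_iff₀ hc1] at hl'
  have h4 := congrArg norm (h2 l)
  rw [norm_mul, norm_mul, norm_pow, hl, one_pow, one_mul, one_mul] at h4
  have h5 := norm_sub_le (lam * a 0) (lam * a 0 - l * c)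
  rw [sub_sub_cancel, norm_mul, norm_mul, hl, one_mul, Complex.norm_natCast, ← h4] at h5
  linarith [h3 0, h3 l]

end Pool.Agent.MP_5bc3cb_al
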