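import Pool.Agent.MP_5bc3cb_al.Cut
import Pool.Agent.MP_5bc3cb_al.Perron

namespace Pool.Agent.MP_5bc3cb_al
open Filter Pointwise

variable {G : Type} [Group G] (Γ : Geo G) (U : UA G)

/-- the single chain -/
noncomputable def sys1 : CutSys Γ (Set (List U.α) × Set G) (List U.α) ℕ where
  D l := Γ.Dom (1 + (l + 1))
  Q l := St Γ U (l + 1)
  σ l := sfx Γ U (l + 1)
  Z l g := (pre Γ U (l + 1) g).length - (pre Γ U (1 + (l + 1)) g).length
  e := ev U.π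
  D_sub _ _ h := Geo.Dom_sub_CA h
  cp l1 l2 g1 g2 h1 _ hS := by
    have h1' := Geo.Dom_mono (Nat.le_add_left (l1 + 1) 1) h1
    rw [paste_eq]
    refine ⟨cp_dom hS h1, ?_, cp_suf hS h1', ?_⟩
    · simpa [hS] using cp_St (j := 0) hS (Nat.succ_pos _) (by simpa using h1') (Nat.succ_pos _)
    · rw [cp_pre hS h1]
      congr 2
      simpa using cp_pre (j := 0) hS (by simpa using h1')

variable {Γ} (M : Mean Γ)

theorem suf_bdd (l : ℕ) : ∃ F : Finset (List U.α), ∀ᶠ g in M.ae, sfx Γ U (l + 1) g ∈ F := by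
  obtain ⟨FS, hFS⟩ := St_finite Γ U
  refine (sys1 Γ U).bdd M l (M.ae_Dom _) FS
    (fun g hg => hFS l g (Geo.Dom_mono (Nat.le_add_left _ 1) hg)) (fun g hg g' hg' h => ?_)
    fun δ hδ => ?_
  · change Γ.n (ev U.π (sfx Γ U (l + 1) g)) = Γ.n (ev U.π (sfx Γ U (l + 1) g'))
    rw [n_suf (Geo.Dom_mono (Nat.le_add_left _ 1) hg), n_suf (Geo.Dom_mono (Nat.le_add_left _ 1) hg'),
      show edge Γ U (l + 1) g = edge Γ U (l + 1) g' from congrArg Prod.snd h]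
  · obtain ⟨T, hT⟩ := tight M U (l + 1) hδ
    refine ⟨(List.finite_length_le U.α T).toFinset, le_trans (M.mono_ae ?_) hT⟩
    filter_upwards [M.ae_Dom (l + 1)] with g hg h
    refine ⟨hg, fun s hs => Tm_min ?_⟩
    change sfx Γ U (l + 1) g ∉ _ at h
    rw [Set.Finite.mem_toFinset, Set.mem_ofPred_eq, suf_length] at h
    omega

theorem Tm_bdd (l : ℕ) : ∃ b, ∀ᶠ g in M.ae, Tm Γ U (l + 1) g ≤ b := by
  obtain ⟨F, hF⟩ := suf_bdd U M l
  refine ⟨F.sup List.length, hF.mono fun g hg => ?_⟩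
  rw [← suf_length]; exact Finset.le_sup (f := List.length) hg

theorem step_bdd : ∃ b, ∀ l, ∀ᶠ g in M.ae, Tm Γ U (l + 2) g ≤ Tm Γ U (l + 1) g + b := by
  obtain ⟨FS, hFS⟩ := St_finite Γ U
  have key : ∀ q, ∃ b, ∀ l, M.m {g | (sys1 Γ U).Q l g = q ∧ (sys1 Γ U).Z l g ∈ Set.Ioi b} = 0 := by
    intro q
    by_cases h : ∀ l, M.m {g | (sys1 Γ U).Q l g = q} = 0
    · exact ⟨0, fun l => le_antisymm ((M.mono fun g hg => hg.1).trans (h l).le) (M.nonneg _)⟩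
    push Not at h
    obtain ⟨l0, h0⟩ := h
    obtain ⟨b, hb⟩ := Tm_bdd U M (l0 + 1)
    refine ⟨b, fun l => ?_⟩
    have h1 := (sys1 Γ U).homog M (fun l => M.ae_Dom _) (suf_bdd U M) l l0 q (Set.Ioi b)
    have h2 : M.m {g | (sys1 Γ U).Q l0 g = q ∧ (sys1 Γ U).Z l0 g ∈ Set.Ioi b} = 0 := by
      rw [← M.ae_not_mem]
      filter_upwards [hb] with g hg h
      have h3 : b < (pre Γ U (l0 + 1) g).length - (pre Γ U (1 + (l0 + 1)) g).length := h.2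
      rw [pre_length, pre_length, add_comm 1] at h3
      omega
    rw [h2, mul_zero] at h1
    exact (mul_eq_zero.1 h1).resolve_right h0
  choose b hb using key
  refine ⟨FS.sup b, fun l => ?_⟩
  have h1 : ∀ᶠ g in M.ae, ∀ q ∈ FS,
      g ∉ {g | (sys1 Γ U).Q l g = q ∧ (sys1 Γ U).Z l g ∈ Set.Ioi (b q)} :=
    (Filter.eventually_all_finset _).2 fun q _ => M.ae_not_mem.2 (hb q l)
  filter_upwards [h1, M.ae_Dom (l + 1)] with g h1 hg
  have h2 := hFS l g hg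
  have h3 : ¬ b (St Γ U (l + 1) g) <
      (pre Γ U (l + 1) g).length - (pre Γ U (1 + (l + 1)) g).length := fun h => h1 _ h2 ⟨rfl, h⟩
  have h4 : b (St Γ U (l + 1) g) ≤ FS.sup b := Finset.le_sup h2
  have h5 := Tm_le_len (Γ := Γ) (U := U) (l + 2) g
  rw [pre_length, pre_length, show 1 + (l + 1) = l + 2 by ring] at h3
  omega

theorem steps_bdd (K : ℕ) :
    ∃ b, ∀ l, ∀ᶠ g in M.ae, Tm Γ U (K + (l + 1)) g ≤ Tm Γ U (l + 1) g + b := by
  obtain ⟨b, hb⟩ := step_bdd U M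
  induction K with
  | zero => exact ⟨0, fun l => by simp⟩
  | succ K ih =>
    obtain ⟨b', hb'⟩ := ih
    refine ⟨b' + b, fun l => ?_⟩
    filter_upwards [hb' l, hb (K + l)] with g h1 h2
    rw [show K + 1 + (l + 1) = K + l + 2 by ring]
    rw [← add_assoc] at h1
    omega

theorem interlace {a : G} (ha : a ∈ Γ.H) :
    ∃ b, ∀ l, ∀ᶠ g in M.ae, Tm Γ U (l + 1) g ≤ Tm Γ U (l + 1) (g * a) + b := by
  obtain ⟨S, hS, h⟩ := U.bft a
  obtain ⟨K, hK⟩ := Γ.margin hS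
  obtain ⟨b, hb⟩ := steps_bdd U M K
  refine ⟨b, fun l => ?_⟩
  filter_upwards [M.ae_mul_H (hb l) ha, M.ae_Dom (K + (l + 1))] with g h1 hg
  refine le_trans (Tm_le fun h2 => Tm_spec (Γ := Γ) (U := U) (K + (l + 1)) (g * a) ?_) h1
  have := hK _ g hg _ h2 _ (h g (Tm Γ U (K + (l + 1)) (g * a)))
  rw [mul_inv_cancel_left] at this
  exact (Geo.Desc_mul_H (d := K + l) hg ha).2 this

variable (Γ) in
/-- pair state -/
noncomputable def PSt (a : G) (l : ℕ) (g : G) :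
    (Set (List U.α) × Set G) × (Set (List U.α) × Set G) × G :=
  (St Γ U l g, St Γ U l (g * a), (ev U.π (pre Γ U l g))⁻¹ * ev U.π (pre Γ U l (g * a)))

theorem PSt_finite {a : G} (ha : a ∈ Γ.H) :
    ∃ FQ : Finset _, ∀ l, ∀ᶠ g in M.ae, PSt Γ U a (l + 1) g ∈ FQ := by
  obtain ⟨FS, hFS⟩ := St_finite Γ U
  obtain ⟨S, hS, h⟩ := U.bft a
  obtain ⟨b, hb⟩ := interlace U M ha
  obtain ⟨b', hb'⟩ := interlace U M (Γ.H.inv_mem ha)
  refine ⟨FS ×ˢ FS ×ˢ (((ball_finite U.π (b + b')).union (ball_finite U.π (b + b')).inv).mul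
    hS).toFinset, fun l => ?_⟩
  filter_upwards [hb l, M.ae_mul_H (hb' l) ha, M.ae_Dom (l + 1)] with g h1 h2 hg
  rw [mul_inv_cancel_right] at h2
  simp only [PSt, Finset.mem_product, Set.Finite.mem_toFinset]
  refine ⟨hFS l g hg, hFS l _ (Geo.Dom_mul_H hg ha), _,
    U.B_seg g (i := Tm Γ U (l + 1) g) (j := Tm Γ U (l + 1) (g * a)) (by omega) (by omega),
    _, h g (Tm Γ U (l + 1) (g * a)), ?_⟩
  simp [ev_pre, mul_assoc]

theorem cp_pair {a : G} {l1 l2 : ℕ} {g1 g2 : G} (hQ : PSt Γ U a l1 g1 = PSt Γ U a l2 g2) :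
    ev U.π (pre Γ U l1 g1) * ev U.π (sfx Γ U l2 g2) * a =
      ev U.π (pre Γ U l1 (g1 * a)) * ev U.π (sfx Γ U l2 (g2 * a)) := by
  have h : (ev U.π (pre Γ U l1 g1))⁻¹ * ev U.π (pre Γ U l1 (g1 * a)) =
      (ev U.π (pre Γ U l2 g2))⁻¹ * ev U.π (pre Γ U l2 (g2 * a)) := congrArg (fun x => x.2.2) hQ
  rw [eq_mul_of_inv_mul_eq h, mul_assoc, mul_assoc, mul_assoc, ev_pre_suf]
  congr 1
  rw [eq_inv_mul_iff_mul_eq, ← mul_assoc, ev_pre_suf]

theorem cp_PSt {a : G} (ha : a ∈ Γ.H) {l1 l2 j : ℕ} {g1 g2 : G}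
    (hQ : PSt Γ U a (l1 + 1) g1 = PSt Γ U a (l2 + 1) g2) (h1 : g1 ∈ Γ.Dom (j + (l1 + 1))) :
    PSt Γ U a (j + (l2 + 1)) (ev U.π (pre Γ U (l1 + 1) g1) * ev U.π (sfx Γ U (l2 + 1) g2)) =
      PSt Γ U a (j + (l1 + 1)) g1 := by
  have e1 : St Γ U (l1 + 1) g1 = St Γ U (l2 + 1) g2 := congrArg (fun x => x.1) hQ
  have e2 : St Γ U (l1 + 1) (g1 * a) = St Γ U (l2 + 1) (g2 * a) := congrArg (fun x => x.2.1) hQ
  have h2 : g1 * a ∈ Γ.Dom (j + (l1 + 1)) := Geo.Dom_mul_H (d := j + l1) h1 ha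
  simp only [PSt, cp_pair U hQ]
  rw [cp_St e1 (Nat.succ_pos _) h1 (Nat.succ_pos _), cp_St e2 (Nat.succ_pos _) h2 (Nat.succ_pos _),
    cp_pre e1 h1, cp_pre e2 h2]

variable (Γ) in
/-- the pair chain -/
noncomputable def sys2 {a : G} (ha : a ∈ Γ.H) :
    CutSys Γ ((Set (List U.α) × Set G) × (Set (List U.α) × Set G) × G) (List U.α)
      ((Set (List U.α) × Set G) × (Set (List U.α) × Set G) × G) where
  D l := Γ.Dom (1 + (l + 1))
  Q l := PSt Γ U a (l + 1)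
  σ l := sfx Γ U (l + 1)
  Z l := PSt Γ U a (1 + (l + 1))
  e := ev U.π
  D_sub _ _ h := Geo.Dom_sub_CA h
  cp l1 l2 g1 g2 h1 _ hQ := by
    have h1' := Geo.Dom_mono (Nat.le_add_left (l1 + 1) 1) h1
    have hS : St Γ U (l1 + 1) g1 = St Γ U (l2 + 1) g2 := congrArg (fun x => x.1) hQ
    rw [paste_eq]
    refine ⟨cp_dom hS h1, ?_, cp_suf hS h1', cp_PSt U ha hQ h1⟩
    simpa [hQ] using cp_PSt (j := 0) U ha hQ (by simpa using h1')

end Pool.Agent.MP_5bc3cb_al
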