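import Pool.Agent.MP_5bc3cb_al.Tree

namespace Pool.Agent.MP_5bc3cb_al
open Filter Topology

/-- indicator function -/
noncomputable def chi {G : Type} (E : Set G) (g : G) : ℝ := E.indicator 1 g

theorem chi_of_mem {G : Type} {E : Set G} {g : G} (h : g ∈ E) : chi E g = 1 := by simp [chi, h]
theorem chi_of_not {G : Type} {E : Set G} {g : G} (h : g ∉ E) : chi E g = 0 := by simp [chi, h]
theorem chi_nonneg {G : Type} (E : Set G) (g : G) : 0 ≤ chi E g := by
  by_cases h : g ∈ E <;> simp [chi, h]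
theorem chi_le_one {G : Type} (E : Set G) (g : G) : chi E g ≤ 1 := by
  by_cases h : g ∈ E <;> simp [chi, h]

/-- quasi-invariant mean on the cone -/
structure Mean {G : Type} [Group G] (Γ : Geo G) where
  m : Set G → ℝ
  pos : ∀ {ι : Type} (s : Finset ι) (c : ι → ℝ) (E : ι → Set G),
    (∀ g, 0 ≤ ∑ i ∈ s, c i * chi (E i) g) → 0 ≤ ∑ i ∈ s, c i * m (E i)
  m_univ : m Set.univ = 1
  supp : m Γ.CAᶜ = 0
  qi : ∀ (E E' : Set G) (f : G), E ⊆ Γ.CA → E' ⊆ Γ.CA → (∀ g ∈ E, g * f ∈ E') →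
    m E ≤ (Γ.d : ℝ) ^ (Γ.n f) * m E'

theorem summable_list_pow (d : ℕ) (y : ℝ) (hy : 0 ≤ y) (h : d * y < 1) :
    Summable fun l : List (Fin d) => y ^ l.length := by
  rw [← List.equivSigmaTuple.symm.summable_iff, summable_sigma_of_nonneg fun _ => by
    simp only [Function.comp]; positivity]
  refine ⟨fun n => (hasSum_fintype _).summable, ?_⟩
  refine (summable_geometric_of_lt_one (by positivity) h).congr fun n => ?_
  simp [List.equivSigmaTuple, mul_pow]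

namespace Geo
variable {G : Type} [Group G] (Γ : Geo G)

theorem d_pos : 0 < Γ.d := by
  obtain ⟨i, -⟩ := Γ.rA_cover 1 Γ.H.one_mem
  exact Fin.pos i

theorem norm_p_mul_le (x y : G) : ‖Γ.p (x * y)‖ ≤ ‖Γ.p x‖ + ‖Γ.p y‖ := by
  rw [Γ.p_mul]
  refine (norm_add_le _ _).trans ?_
  rw [norm_mul, Γ.norm_zpow_lam, one_mul]

theorem norm_p_inv (x : G) : ‖Γ.p x⁻¹‖ = ‖Γ.p x‖ := by
  have := Γ.p_mul x x⁻¹
  rw [mul_inv_cancel, Γ.p_one] at this
  rw [eq_neg_of_add_eq_zero_left this.symm, norm_neg, norm_mul, Γ.norm_zpow_lam, one_mul]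

/-- normal form prefix -/
def nf (l : List (Fin Γ.d)) : G := (l.map fun i => Γ.rA i * Γ.t).prod

theorem exists_nf {R : ℕ} {g : G} (hg : g ∈ Γ.Cone R) :
    ∃ l : List (Fin Γ.d), ∃ h ∈ Γ.H, l.length = R ∧ g = Γ.nf l * h := by
  induction R generalizing g with
  | zero => exact ⟨[], g, hg, rfl, by simp [nf]⟩
  | succ R ih =>
    obtain ⟨x, hx, h', hh', rfl⟩ := hg
    obtain ⟨l, h, hh, hl, rfl⟩ := ih hx
    obtain ⟨i, hi⟩ := Γ.rA_cover h hh
    refine ⟨l ++ [i], _, Γ.H.mul_mem (Γ.B_le (Γ.A_t _ hi)) hh', by simp [hl], ?_⟩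
    simp [nf, mul_assoc]

/-- constant -/
noncomputable def C0 : ℝ := ∑ i, ‖Γ.p (Γ.rA i * Γ.t)‖

theorem C0_nonneg : 0 ≤ Γ.C0 := Finset.sum_nonneg fun _ _ => norm_nonneg _

theorem norm_p_nf (l : List (Fin Γ.d)) : ‖Γ.p (Γ.nf l)‖ ≤ Γ.C0 * l.length := by
  induction l with
  | nil => simp [nf, Γ.p_one]
  | cons i l ih =>
    have h1 : ‖Γ.p (Γ.rA i * Γ.t)‖ ≤ Γ.C0 :=
      Finset.single_le_sum (f := fun i => ‖Γ.p (Γ.rA i * Γ.t)‖) (fun _ _ => norm_nonneg _)
        (Finset.mem_univ i)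
    have h2 := Γ.norm_p_mul_le (Γ.rA i * Γ.t) (Γ.nf l)
    simp only [nf, List.map_cons, List.prod_cons, List.length_cons] at ih h2 ⊢
    push_cast; linarith

/-- weight -/
noncomputable def wt0 (ε : ℝ) (g : G) : ℝ :=
  (Γ.d : ℝ) ^ (-Γ.n g) * Real.exp (-ε * ((Γ.C0 + 1) * Γ.n g + ‖Γ.p g‖))

theorem wt0_pos (ε : ℝ) (g : G) : 0 < Γ.wt0 ε g := by
  have := Γ.d_pos
  unfold wt0; positivity

theorem wt0_le (ε : ℝ) (hε : 0 ≤ ε) (g f : G) : Γ.wt0 ε g ≤
    (Γ.d : ℝ) ^ (Γ.n f) * Real.exp (ε * ((Γ.C0 + 1) * Γ.n f + ‖Γ.p f‖)) * Γ.wt0 ε (g * f) := by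
  have hd : (0 : ℝ) < Γ.d := by exact_mod_cast Γ.d_pos
  unfold wt0
  rw [mul_mul_mul_comm, ← zpow_add₀ hd.ne', ← Real.exp_add, Γ.n_mul]
  have : Γ.n f + -(Γ.n g + Γ.n f) = -Γ.n g := by ring
  rw [this]
  refine mul_le_mul_of_nonneg_left (Real.exp_le_exp.2 ?_) (by positivity)
  have := Γ.norm_p_mul_le g f
  push_cast
  nlinarith

theorem summable_wt (ε : ℝ) (hε : 0 < ε) : Summable (Γ.CA.indicator (Γ.wt0 ε)) := by
  have hd : (0 : ℝ) < Γ.d := by exact_mod_cast Γ.d_pos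
  rw [← summable_subtype_iff_indicator]
  have h1 := summable_list_pow Γ.d ((Γ.d : ℝ)⁻¹ * Real.exp (-ε)) (by positivity) (by
    rw [← mul_assoc, mul_inv_cancel₀ hd.ne', one_mul]
    exact Real.exp_lt_one_iff.2 (by linarith))
  have h2 := h1.mul_of_nonneg (Γ.p_sum ε hε) (fun _ => by positivity) (fun _ => by positivity)
  have hex : ∀ g : Γ.CA, ∃ x : List (Fin Γ.d) × Γ.H, Γ.n g = x.1.length ∧
      (g : G) = Γ.nf x.1 * x.2 := by
    rintro ⟨g, R, hR⟩
    obtain ⟨l, h, hh, hl, e⟩ := Γ.exists_nf hR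
    exact ⟨(l, ⟨h, hh⟩), by simp [Γ.n_Cone hR, hl], e⟩
  choose sec hn he using hex
  have hinj : Function.Injective sec := fun g g' h => Subtype.ext (by rw [he, he, h])
  refine Summable.of_nonneg_of_le (fun g => (Γ.wt0_pos _ _).le) (fun g => ?_)
    (h2.comp_injective hinj)
  simp only [Function.comp, wt0]
  rw [hn, mul_pow, ← Real.exp_nat_mul, mul_assoc, ← Real.exp_add, zpow_neg, zpow_natCast, inv_pow]
  refine mul_le_mul_of_nonneg_left (Real.exp_le_exp.2 ?_) (by positivity)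
  have h3 := Γ.norm_p_mul_le (Γ.nf (sec g).1)⁻¹ g
  rw [Γ.norm_p_inv] at h3
  have h4 := Γ.norm_p_nf (sec g).1
  have h5 : (Γ.nf (sec g).1)⁻¹ * g = (sec g).2 := by rw [inv_mul_eq_iff_eq_mul]; exact he g
  rw [h5] at h3
  push_cast
  nlinarith

theorem exists_mean : Nonempty (Mean Γ) := by
  let ε : ℕ → ℝ := fun k => 1 / ((k : ℝ) + 1)
  have hε : ∀ k, 0 < ε k := fun k => by positivity
  let W : ℕ → G → ℝ := fun k => Γ.CA.indicator (Γ.wt0 (ε k))
  have hW0 : ∀ k g, 0 ≤ W k g := fun k g =>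
    Set.indicator_nonneg (fun g _ => (Γ.wt0_pos _ _).le) g
  have hWs : ∀ k, Summable (W k) := fun k => Γ.summable_wt _ (hε k)
  have hs : ∀ k E, Summable fun g => W k g * chi E g := fun k E =>
    Summable.of_nonneg_of_le (fun g => mul_nonneg (hW0 k g) (chi_nonneg _ _))
      (fun g => mul_le_of_le_one_right (hW0 k g) (chi_le_one _ _)) (hWs k)
  have hZ : ∀ k, 0 < ∑' g, W k g := fun k => (hWs k).tsum_pos (hW0 k) 1 (by
    have : (1 : G) ∈ Γ.CA := ⟨0, Γ.H.one_mem⟩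
    simp only [W, Set.indicator_of_mem this]; exact Γ.wt0_pos _ _)
  let av : ℕ → Set G → ℝ := fun k E => (∑' g, W k g * chi E g) / ∑' g, W k g
  let 𝒰 : Ultrafilter ℕ := Ultrafilter.of atTop
  have hlim : ∀ E, ∃ x, Tendsto (fun k => av k E) 𝒰 (𝓝 x) := fun E => by
    obtain ⟨x, -, hx⟩ := (isCompact_Icc (a := (0 : ℝ)) (b := 1)).ultrafilter_le_nhds
      (𝒰.map fun k => av k E) (by
        rw [Filter.le_principal_iff, Ultrafilter.coe_map, Filter.mem_map]
        refine Filter.univ_mem' fun k => ⟨div_nonneg (tsum_nonneg fun g =>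
          mul_nonneg (hW0 k g) (chi_nonneg _ _)) (hZ k).le, (div_le_one (hZ k)).2 ?_⟩
        exact (hs k E).tsum_le_tsum
          (fun g => mul_le_of_le_one_right (hW0 k g) (chi_le_one _ _)) (hWs k))
    exact ⟨x, hx⟩
  choose m hm using hlim
  refine ⟨⟨m, fun s c E h => ?_, ?_, ?_, fun E E' f hE hE' h => ?_⟩⟩
  · refine ge_of_tendsto' (tendsto_finsetSum s fun i _ => (hm (E i)).const_mul (c i)) fun k => ?_
    simp only [av, ← mul_div_assoc, ← Finset.sum_div, ← tsum_mul_left]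
    refine div_nonneg ?_ (hZ k).le
    rw [← Summable.tsum_finsetSum fun i _ => (hs k (E i)).mul_left (c i)]
    refine tsum_nonneg fun g => ?_
    have := mul_nonneg (hW0 k g) (h g)
    rw [Finset.mul_sum] at this
    refine this.trans_eq (Finset.sum_congr rfl fun i _ => by ring)
  · refine tendsto_nhds_unique (hm _) (tendsto_const_nhds.congr fun k => ?_)
    simp [av, chi, (hZ k).ne']
  · refine tendsto_nhds_unique (hm _) (tendsto_const_nhds.congr fun k => ?_)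
    have : ∀ g, W k g * chi Γ.CAᶜ g = 0 := fun g => by
      by_cases hg : g ∈ Γ.CA <;> simp [W, chi, hg]
    simp [av, this]
  · set c := (Γ.C0 + 1) * Γ.n f + ‖Γ.p f‖
    have h1 : Tendsto (fun k => (Γ.d : ℝ) ^ (Γ.n f) * Real.exp (ε k * c) * av k E') 𝒰
        (𝓝 ((Γ.d : ℝ) ^ (Γ.n f) * Real.exp (0 * c) * m E')) := by
      refine Tendsto.mul (Tendsto.const_mul _ ?_) (hm E')
      exact (Real.continuous_exp.tendsto _).comp
        ((tendsto_one_div_add_atTop_nhds_zero_nat.mono_left (Ultrafilter.of_le _)).mul_const c)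
    rw [zero_mul, Real.exp_zero, mul_one] at h1
    refine le_of_tendsto_of_tendsto' (hm E) h1 fun k => ?_
    simp only [av, ← mul_div_assoc]
    refine div_le_div_of_nonneg_right ?_ (hZ k).le
    rw [← (Equiv.mulRight f).tsum_eq fun g => W k g * chi E' g, ← tsum_mul_left]
    refine (hs k E).tsum_le_tsum (fun g => ?_)
      (((Equiv.mulRight f).summable_iff.2 (hs k E')).mul_left _)
    by_cases hg : g ∈ E
    · simp only [Equiv.coe_mulRight, chi_of_mem hg, chi_of_mem (h g hg), mul_one, W,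
        Set.indicator_of_mem (hE hg), Set.indicator_of_mem (hE' (h g hg))]
      exact Γ.wt0_le _ (hε k).le g f
    · rw [chi_of_not hg, mul_zero]
      have := hW0 k (g * f)
      have := chi_nonneg E' (g * f)
      simp only [Equiv.coe_mulRight]
      positivity

end Geo
end Pool.Agent.MP_5bc3cb_al
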