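import Pool.Agent.MP_5bc3cb_al.Mean

namespace Pool.Agent.MP_5bc3cb_al
open Filter

namespace Mean
variable {G : Type} [Group G] {Γ : Geo G} (M : Mean Γ)

theorem le2 {ι κ : Type} (s : Finset ι) (s' : Finset κ) (c : ι → ℝ) (E : ι → Set G)
    (c' : κ → ℝ) (E' : κ → Set G)
    (h : ∀ g, ∑ i ∈ s, c i * chi (E i) g ≤ ∑ i ∈ s', c' i * chi (E' i) g) :
    ∑ i ∈ s, c i * M.m (E i) ≤ ∑ i ∈ s', c' i * M.m (E' i) := by
  have := M.pos (s.disjSum s') (Sum.elim (fun i => -c i) c') (Sum.elim E E') fun g => by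
    simpa [Finset.sum_disjSum] using h g
  simpa [Finset.sum_disjSum] using this

theorem nonneg (E : Set G) : 0 ≤ M.m E := by
  simpa using M.pos {()} (fun _ => 1) (fun _ => E) fun g => by simpa using chi_nonneg E g

theorem cover_le {ι : Type} (s : Finset ι) (E : Set G) (E' : ι → Set G)
    (h : ∀ g ∈ E, ∃ i ∈ s, g ∈ E' i) : M.m E ≤ ∑ i ∈ s, M.m (E' i) := by
  simpa using M.le2 {()} s (fun _ => 1) (fun _ => E) (fun _ => 1) E' fun g => by
    simp only [Finset.sum_singleton, one_mul]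
    by_cases hg : g ∈ E
    · obtain ⟨i, hi, hgi⟩ := h g hg
      rw [chi_of_mem hg, ← chi_of_mem hgi]
      exact Finset.single_le_sum (f := fun i => chi (E' i) g) (fun _ _ => chi_nonneg _ _) hi
    · rw [chi_of_not hg]; exact Finset.sum_nonneg fun _ _ => chi_nonneg _ _

theorem mono {E E' : Set G} (h : E ⊆ E') : M.m E ≤ M.m E' := by
  simpa using M.cover_le {()} E (fun _ => E') fun g hg => ⟨(), by simp, h hg⟩

theorem m_empty : M.m ∅ = 0 :=
  le_antisymm (by simpa using M.cover_le (∅ : Finset Unit) ∅ (fun _ => ∅) (by simp)) (M.nonneg _)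

theorem le_one (E : Set G) : M.m E ≤ 1 := M.m_univ ▸ M.mono (Set.subset_univ E)

theorem union_le {E E1 E2 : Set G} (h : ∀ g ∈ E, g ∈ E1 ∨ g ∈ E2) :
    M.m E ≤ M.m E1 + M.m E2 := by
  simpa using M.cover_le Finset.univ E (fun b : Bool => if b then E1 else E2) fun g hg => by
    simpa [or_comm] using h g hg

/-- almost everywhere -/
def ae : Filter G where
  sets := {E | M.m Eᶜ = 0}
  univ_sets := by simp [M.m_empty]
  sets_of_superset hE h := le_antisymm ((M.mono (Set.compl_subset_compl.2 h)).trans hE.le)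
    (M.nonneg _)
  inter_sets {E1 E2} h1 h2 := le_antisymm ((M.union_le (E1 := E1ᶜ) (E2 := E2ᶜ) fun g hg => by
    simpa [imp_iff_not_or] using hg).trans (by rw [h1, h2]; simp)) (M.nonneg _)

theorem ae_iff {P : G → Prop} : (∀ᶠ g in M.ae, P g) ↔ M.m {g | ¬ P g} = 0 := Iff.rfl

theorem ae_not_mem {E : Set G} : (∀ᶠ g in M.ae, g ∉ E) ↔ M.m E = 0 := by
  rw [ae_iff]; simp

theorem ae_CA : ∀ᶠ g in M.ae, g ∈ Γ.CA := M.supp

theorem le_ae {ι κ : Type} (s : Finset ι) (s' : Finset κ) (c : ι → ℝ) (E : ι → Set G)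
    (c' : κ → ℝ) (E' : κ → Set G)
    (h : ∀ᶠ g in M.ae, ∑ i ∈ s, c i * chi (E i) g ≤ ∑ i ∈ s', c' i * chi (E' i) g) :
    ∑ i ∈ s, c i * M.m (E i) ≤ ∑ i ∈ s', c' i * M.m (E' i) := by
  set N := {g | ¬ ∑ i ∈ s, c i * chi (E i) g ≤ ∑ i ∈ s', c' i * chi (E' i) g} with hN
  have hN0 : M.m N = 0 := h
  have hb : ∀ (x : ℝ) (E : Set G) g, |x * chi E g| ≤ |x| := fun x E g => by
    rw [abs_mul, abs_of_nonneg (chi_nonneg _ _)]
    exact mul_le_of_le_one_right (abs_nonneg _) (chi_le_one _ _)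
  have := M.le2 s (s'.disjSum {()}) c E
    (Sum.elim c' fun _ => ∑ i ∈ s, |c i| + ∑ i ∈ s', |c' i|) (Sum.elim E' fun _ => N) fun g => by
      simp only [Finset.sum_disjSum, Sum.elim_inl, Sum.elim_inr, Finset.sum_singleton]
      by_cases hg : g ∈ N
      · rw [chi_of_mem hg, mul_one]
        have h1 : ∑ i ∈ s, c i * chi (E i) g ≤ ∑ i ∈ s, |c i| :=
          Finset.sum_le_sum fun i _ => (le_abs_self _).trans (hb _ _ _)
        have h2 : ∑ i ∈ s', -|c' i| ≤ ∑ i ∈ s', c' i * chi (E' i) g :=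
          Finset.sum_le_sum fun i _ => (abs_le.1 (hb _ _ _)).1
        rw [Finset.sum_neg_distrib] at h2
        linarith
      · rw [chi_of_not hg, mul_zero, add_zero]
        exact not_not.1 hg
  simpa [Finset.sum_disjSum, hN0] using this

theorem eq_ae {ι κ : Type} (s : Finset ι) (s' : Finset κ) (c : ι → ℝ) (E : ι → Set G)
    (c' : κ → ℝ) (E' : κ → Set G)
    (h : ∀ᶠ g in M.ae, ∑ i ∈ s, c i * chi (E i) g = ∑ i ∈ s', c' i * chi (E' i) g) :
    ∑ i ∈ s, c i * M.m (E i) = ∑ i ∈ s', c' i * M.m (E' i) :=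
  le_antisymm (M.le_ae _ _ _ _ _ _ (h.mono fun _ h => h.le))
    (M.le_ae _ _ _ _ _ _ (h.mono fun _ h => h.ge))

theorem mono_ae {E E' : Set G} (h : ∀ᶠ g in M.ae, g ∈ E → g ∈ E') : M.m E ≤ M.m E' := by
  have h0 : M.m {g | ¬ (g ∈ E → g ∈ E')} = 0 := h
  have := M.union_le (E := E) (E1 := E') (E2 := {g | ¬ (g ∈ E → g ∈ E')}) fun g hg => by
    by_cases h : g ∈ E' <;> simp [h, hg]
  rwa [h0, add_zero] at this

theorem count_le {ι : Type} (s : Finset ι) (E : Set G) (E' : ι → Set G) (k : ℝ)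
    (h : ∀ g ∈ E, k ≤ ∑ i ∈ s, chi (E' i) g) : k * M.m E ≤ ∑ i ∈ s, M.m (E' i) := by
  simpa using M.le2 {()} s (fun _ => k) (fun _ => E) (fun _ => 1) E' fun g => by
    simp only [Finset.sum_singleton, one_mul]
    by_cases hg : g ∈ E
    · rw [chi_of_mem hg, mul_one]; exact h g hg
    · rw [chi_of_not hg, mul_zero]; exact Finset.sum_nonneg fun _ _ => chi_nonneg _ _

theorem disj_le {ι : Type} (s : Finset ι) (E : ι → Set G) (E' : Set G)
    (hsub : ∀ i ∈ s, E i ⊆ E') (hd : ∀ i ∈ s, ∀ j ∈ s, ∀ g, g ∈ E i → g ∈ E j → i = j) :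
    ∑ i ∈ s, M.m (E i) ≤ M.m E' := by
  simpa using M.le2 s {()} (fun _ => 1) E (fun _ => 1) (fun _ => E') fun g => by
    simp only [Finset.sum_singleton, one_mul]
    by_cases hg : ∃ i ∈ s, g ∈ E i
    · obtain ⟨i, hi, hgi⟩ := hg
      rw [Finset.sum_eq_single_of_mem i hi fun j hj hne =>
        chi_of_not fun h => hne (hd j hj i hi g h hgi), chi_of_mem hgi, chi_of_mem (hsub i hi hgi)]
    · push Not at hg
      rw [Finset.sum_eq_zero fun i hi => chi_of_not (hg i hi)]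
      exact chi_nonneg _ _

theorem wander (J : ℕ) (X : ℕ → Set G) (x : ℝ) (h : ∀ j < J, x ≤ M.m (X j))
    (hd : ∀ i j, i < j → j < J → ∀ g, g ∈ X i → g ∈ X j → False) : J * x ≤ 1 := by
  have h1 := M.disj_le (Finset.range J) X Set.univ (fun _ _ => Set.subset_univ _)
    fun i hi j hj g h1 h2 => by
      by_contra hne
      rcases lt_or_gt_of_ne hne with hlt | hlt
      · exact hd i j hlt (Finset.mem_range.1 hj) g h1 h2
      · exact hd j i hlt (Finset.mem_range.1 hi) g h2 h1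
  have h2 : ∑ _j ∈ Finset.range J, x ≤ ∑ j ∈ Finset.range J, M.m (X j) :=
    Finset.sum_le_sum fun j hj => h j (Finset.mem_range.1 hj)
  rw [M.m_univ] at h1
  simpa using h2.trans h1

theorem H_le {E E' : Set G} {h : G} (hh : h ∈ Γ.H) (hE : ∀ g ∈ E, g ∈ Γ.CA → g * h ∈ E') :
    M.m E ≤ M.m E' := by
  have h1 := M.qi (E ∩ Γ.CA) (E' ∩ Γ.CA) h Set.inter_subset_right Set.inter_subset_right
    fun g hg => ⟨hE g hg.1 hg.2, Geo.CA_mul_H hg.2 hh⟩
  rw [Γ.n_H h hh, zpow_zero, one_mul] at h1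
  exact (M.mono_ae (E' := E ∩ Γ.CA) (M.ae_CA.mono fun g hg h => ⟨h, hg⟩)).trans
    (h1.trans (M.mono Set.inter_subset_left))

theorem H_eq (E : Set G) {h : G} (hh : h ∈ Γ.H) : M.m {g | g * h ∈ E} = M.m E :=
  le_antisymm (M.H_le hh fun _ hg _ => hg)
    (M.H_le (Γ.H.inv_mem hh) fun g hg _ => by simpa using hg)

theorem ae_mul_H {P : G → Prop} (hP : ∀ᶠ g in M.ae, P g) {h : G} (hh : h ∈ Γ.H) :
    ∀ᶠ g in M.ae, P (g * h) := (M.H_eq {g | ¬ P g} hh).trans hP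

theorem shift_le {E E' : Set G} (hE : E ⊆ Γ.CA)
    (h : ∀ g ∈ E, ∀ i, g * Γ.t * Γ.rB i ∈ E') : M.m E ≤ M.m E' := by
  have hd : (0 : ℝ) < Γ.d := by exact_mod_cast Γ.d_pos
  let X : Fin Γ.d → Set G := fun i => (fun g => g * Γ.t * Γ.rB i) '' E
  have h1 := M.disj_le Finset.univ X E' (by rintro i - _ ⟨g, hg, rfl⟩; exact h g hg i)
    (by rintro i - j - _ ⟨g, hg, rfl⟩ ⟨g', hg', e⟩; exact (Geo.shift_inj (hE hg') (hE hg) e).symm)
  have h2 : ∀ i, M.m E ≤ Γ.d * M.m (X i) := fun i => by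
    have := M.qi E (X i) (Γ.t * Γ.rB i) hE
      (by rintro _ ⟨g, hg, rfl⟩; exact Geo.CA_shift (hE hg) (Γ.rB_mem i))
      fun g hg => ⟨g, hg, mul_assoc _ _ _⟩
    rwa [Γ.n_mul, Γ.n_t, Γ.n_H _ (Γ.rB_mem i), add_zero, zpow_one] at this
  have h3 := Finset.sum_le_sum fun i (_ : i ∈ Finset.univ) => h2 i
  rw [← Finset.mul_sum] at h3
  simp only [Finset.sum_const, Finset.card_univ, Fintype.card_fin, nsmul_eq_mul] at h3
  exact (le_of_mul_le_mul_left h3 hd).trans h1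

theorem le_of_forall_nat {x : ℝ} (h : ∀ J : ℕ, J * x ≤ 1) : x ≤ 0 := by
  by_contra hx
  push Not at hx
  obtain ⟨J, hJ⟩ := exists_nat_gt (1 / x)
  rw [div_lt_iff₀ hx] at hJ
  exact (h J).not_gt hJ

theorem m_Cone (R : ℕ) : M.m (Γ.Cone R) = 0 := by
  refine le_antisymm (le_of_forall_nat fun J => ?_) (M.nonneg _)
  refine M.wander J (fun j => Γ.Cone (R + j)) _ (fun j _ => ?_) fun i j hij _ g h1 h2 => ?_
  · induction j with
    | zero => exact le_rfl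
    | succ j ih =>
      exact (ih (by omega)).trans (M.shift_le (fun g hg => ⟨_, hg⟩)
        fun g hg i => Γ.Cone_succ hg (Γ.rB_mem i))
  · have := (Γ.n_Cone h1).symm.trans (Γ.n_Cone h2)
    omega

theorem ae_Dom (d : ℕ) : ∀ᶠ g in M.ae, g ∈ Γ.Dom d := by
  have h1 : ∀ᶠ g in M.ae, ∀ R ∈ Finset.range d, g ∉ Γ.Cone R :=
    (Filter.eventually_all_finset _).2 fun R _ => M.ae_not_mem.2 (M.m_Cone R)
  filter_upwards [h1, M.ae_CA] with g h1 ⟨R, hR⟩
  refine Geo.mem_Dom_of_Cone hR ?_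
  by_contra hlt
  exact h1 R (Finset.mem_range.2 (by omega)) hR

omit [Group G] in
theorem sum_chi {β : Type} (F : Finset β) (X : G → β) (ψ : β → ℝ) (E : Set G) {g : G}
    (hg : X g ∈ F) : ∑ x ∈ F, ψ x * chi {g | g ∈ E ∧ X g = x} g = ψ (X g) * chi E g := by
  rw [Finset.sum_eq_single_of_mem _ hg fun x _ hx => by
    rw [chi_of_not (fun h => hx h.2.symm), mul_zero]]
  by_cases h : g ∈ E
  · rw [chi_of_mem h, chi_of_mem (E := {g' | g' ∈ E ∧ X g' = X g}) ⟨h, rfl⟩]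
  · rw [chi_of_not h, chi_of_not (E := {g' | g' ∈ E ∧ X g' = X g}) fun h' => h h'.1]

theorem partition {β : Type} (F : Finset β) (X : G → β) (hX : ∀ᶠ g in M.ae, X g ∈ F)
    (E : Set G) : M.m E = ∑ x ∈ F, M.m {g | g ∈ E ∧ X g = x} := by
  simpa using M.eq_ae {()} F (fun _ => 1) (fun _ => E) (fun _ => 1)
    (fun x => {g | g ∈ E ∧ X g = x}) (hX.mono fun g hg => by
      rw [sum_chi F X (fun _ => 1) E hg]; simp)

end Mean
end Pool.Agent.MP_5bc3cb_al
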