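import Pool.Agent.MP_5bc3cb_al.Markov

namespace Pool.Agent.MP_5bc3cb_al
open Filter Pointwise

variable {G : Type} [Group G] {Γ : Geo G}

theorem Mean.exp_real (M : Mean Γ) {β1 β2 β3 : Type} (X1 : G → β1) (X2 : G → β2) (X3 : G → β3)
    (F1 : Finset β1) (F2 : Finset β2) (F3 : Finset β3) (h1 : ∀ᶠ g in M.ae, X1 g ∈ F1)
    (h2 : ∀ᶠ g in M.ae, X2 g ∈ F2) (h3 : ∀ᶠ g in M.ae, X3 g ∈ F3) (c : ℝ) (ψ1 : β1 → ℝ)
    (ψ2 : β2 → ℝ) (ψ3 : β3 → ℝ) (h : ∀ᶠ g in M.ae, c + ψ1 (X1 g) = ψ2 (X2 g) + ψ3 (X3 g)) :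
    c + ∑ x ∈ F1, ψ1 x * M.m {g | X1 g = x} =
      ∑ x ∈ F2, ψ2 x * M.m {g | X2 g = x} + ∑ x ∈ F3, ψ3 x * M.m {g | X3 g = x} := by
  have := M.eq_ae (({()} : Finset Unit).disjSum F1) (F2.disjSum F3) (Sum.elim (fun _ => c) ψ1)
    (Sum.elim (fun _ => Set.univ) fun x => {g | g ∈ Set.univ ∧ X1 g = x}) (Sum.elim ψ2 ψ3)
    (Sum.elim (fun x => {g | g ∈ Set.univ ∧ X2 g = x}) fun x => {g | g ∈ Set.univ ∧ X3 g = x}) (by
      filter_upwards [h1, h2, h3, h] with g h1 h2 h3 h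
      simp only [Finset.sum_disjSum, Sum.elim_inl, Sum.elim_inr, Finset.sum_singleton,
        Mean.sum_chi _ _ _ _ h1, Mean.sum_chi _ _ _ _ h2, Mean.sum_chi _ _ _ _ h3,
        chi_of_mem (Set.mem_univ g), mul_one, h])
  simpa [Finset.sum_disjSum, M.m_univ] using this

theorem Mean.exp_complex (M : Mean Γ) {β1 β2 β3 : Type} (X1 : G → β1) (X2 : G → β2) (X3 : G → β3)
    (F1 : Finset β1) (F2 : Finset β2) (F3 : Finset β3) (h1 : ∀ᶠ g in M.ae, X1 g ∈ F1)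
    (h2 : ∀ᶠ g in M.ae, X2 g ∈ F2) (h3 : ∀ᶠ g in M.ae, X3 g ∈ F3) (c : ℂ) (ψ1 : β1 → ℂ)
    (ψ2 : β2 → ℂ) (ψ3 : β3 → ℂ) (h : ∀ᶠ g in M.ae, c + ψ1 (X1 g) = ψ2 (X2 g) + ψ3 (X3 g)) :
    c + ∑ x ∈ F1, ψ1 x * M.m {g | X1 g = x} =
      ∑ x ∈ F2, ψ2 x * M.m {g | X2 g = x} + ∑ x ∈ F3, ψ3 x * M.m {g | X3 g = x} := by
  apply Complex.ext
  · simpa [Complex.re_sum] using M.exp_real X1 X2 X3 F1 F2 F3 h1 h2 h3 c.re (fun x => (ψ1 x).re)
      (fun x => (ψ2 x).re) (fun x => (ψ3 x).re) (h.mono fun g hg => by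
        simpa using congrArg Complex.re hg)
  · simpa [Complex.im_sum] using M.exp_real X1 X2 X3 F1 F2 F3 h1 h2 h3 c.im (fun x => (ψ1 x).im)
      (fun x => (ψ2 x).im) (fun x => (ψ3 x).im) (h.mono fun g hg => by
        simpa using congrArg Complex.im hg)

theorem drift (M : Mean Γ) (U : UA G) {a : G} (ha : a ∈ Γ.H) (l : ℕ) (FQ : Finset _)
    (hQ : ∀ᶠ g in M.ae, PSt Γ U a (l + 1) g ∈ FQ) :
    ∑ q ∈ FQ, (M.m {g | PSt Γ U a (l + 1) g = q} : ℂ) * (Γ.lam ^ (-nu Γ q.1.2) * Γ.p q.2.2) =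
      Γ.lam ^ l * (Γ.lam * Γ.p a) := by
  obtain ⟨F, hF⟩ := suf_bdd U M l
  have key := M.exp_complex (fun g => sfx Γ U (l + 1) (g * a)) (sfx Γ U (l + 1))
    (PSt Γ U a (l + 1)) F F FQ (M.ae_mul_H hF ha) hF hQ (Γ.p a) (fun x => Γ.p (ev U.π x)⁻¹)
    (fun x => Γ.p (ev U.π x)⁻¹)
    (fun q => Γ.lam ^ (-((l + 1 : ℕ) : ℤ)) * (Γ.lam ^ (-nu Γ q.1.2) * Γ.p q.2.2)) (by
      filter_upwards [M.ae_Dom (l + 1)] with g hg
      have e : a * (ev U.π (sfx Γ U (l + 1) (g * a)))⁻¹ = (ev U.π (sfx Γ U (l + 1) g))⁻¹ *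
          ((ev U.π (pre Γ U (l + 1) g))⁻¹ * ev U.π (pre Γ U (l + 1) (g * a))) := by
        rw [← mul_assoc, ← mul_inv_rev, ev_pre_suf, mul_inv_eq_iff_eq_mul, mul_assoc, ev_pre_suf,
          inv_mul_cancel_left]
      have e2 := congrArg Γ.p e
      rw [Γ.p_mul, Γ.p_mul, Γ.n_H a ha, zpow_zero, one_mul, Γ.n_inv, n_suf hg] at e2
      rw [e2, ← mul_assoc, ← zpow_add₀ Γ.lam_ne_zero]
      simp only [PSt, St]
      congr 3
      ring)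
  have h1 : ∀ x, M.m {g | sfx Γ U (l + 1) (g * a) = x} = M.m {g | sfx Γ U (l + 1) g = x} :=
    fun x => M.H_eq {g | sfx Γ U (l + 1) g = x} ha
  simp only [h1] at key
  rw [add_comm, add_right_inj] at key
  rw [key, Finset.mul_sum, Finset.mul_sum]
  refine Finset.sum_congr rfl fun q _ => ?_
  have := Γ.lam_ne_zero
  rw [zpow_neg Γ.lam ((l + 1 : ℕ) : ℤ), zpow_natCast]
  field_simp
  ring

theorem Geo.not_UA (Γ : Geo G) (U : UA G) : False := by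
  classical
  obtain ⟨M⟩ := Γ.exists_mean
  have ha := Γ.c0_mem
  obtain ⟨FQ, hQ⟩ := PSt_finite U M ha
  let C := sys2 Γ U ha
  have hex : ∀ q, ∃ l0, ∀ l, M.m {g | C.Q l g = q} ≠ 0 → M.m {g | C.Q l0 g = q} ≠ 0 := by
    intro q
    by_cases h : ∃ l, M.m {g | C.Q l g = q} ≠ 0
    · obtain ⟨l, hl⟩ := h; exact ⟨l, fun _ _ => hl⟩
    · exact ⟨0, fun l hl => absurd ⟨l, hl⟩ h⟩
  choose l0 hl0 using hex
  have hc := perron (F := FQ)
    (fun i j => M.m {g | C.Q (l0 i) g = i ∧ C.Z (l0 i) g ∈ ({j.1} : Set _)} /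
      M.m {g | C.Q (l0 i) g = i})
    (fun i j => div_nonneg (M.nonneg _) (M.nonneg _)) (fun i => by
      rw [← Finset.sum_div]
      refine div_le_one_of_le₀ (M.disj_le _ _ _ (fun j _ g hg => hg.1) ?_) (M.nonneg _)
      exact fun j _ j' _ g h1 h2 => Subtype.ext ((Set.mem_singleton_iff.1 h1.2).symm.trans h2.2))
    Γ.lam Γ.lam_norm Γ.lam_ne (fun l i => M.m {g | C.Q l g = i})
    (fun l i => by rw [abs_of_nonneg (M.nonneg _)]; exact M.le_one _) (fun l j => by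
      rw [M.partition FQ (C.Q l) (hQ l), ← Finset.sum_coe_sort]
      refine Finset.sum_congr rfl fun i _ => ?_
      have e : {g | g ∈ {g | C.Q (l + 1) g = j} ∧ C.Q l g = i} =
          {g | C.Q l g = i ∧ C.Z l g ∈ ({j.1} : Set _)} := by
        ext g
        simp only [C, sys2, Set.mem_ofPred_eq, Set.mem_singleton_iff, add_comm 1]
        exact and_comm
      rw [e]
      by_cases h0 : M.m {g | C.Q l g = i} = 0
      · rw [h0, zero_mul]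
        exact le_antisymm ((M.mono fun g hg => hg.1).trans h0.le) (M.nonneg _)
      · rw [← mul_div_assoc, eq_div_iff (hl0 i l h0)]
        exact C.homog M (fun l => M.ae_Dom _) (suf_bdd U M) l (l0 i) i {j.1})
    (fun q => Γ.lam ^ (-nu Γ q.1.1.2) * Γ.p q.1.2.2) (Γ.lam * Γ.p Γ.c0) (fun l => by
      rw [← drift M U ha l FQ (hQ l), ← Finset.sum_coe_sort FQ]
      rfl)
  have h1 := Γ.p_inj _ ha ((mul_eq_zero.1 hc).resolve_left Γ.lam_ne_zero)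
  exact Γ.c0_not (h1 ▸ Γ.A.one_mem)

theorem Geo.not_automatic (Γ : Geo G) : ¬ IsAutomatic G := fun h =>
  (exists_UA h).elim fun U => Γ.not_UA U

end Pool.Agent.MP_5bc3cb_al
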