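import Pool.Agent.MP_5bc3cb_al.Tree

namespace Pool.Agent.MP_5bc3cb_al
open Pointwise

namespace Geo
variable {G : Type} [Group G] (Γ : Geo G)

/-- bounded in the tree -/
def TB (W : Set G) : Prop := ∃ F : Set G, F.Finite ∧ ∀ x ∈ W, ∃ f ∈ F, f⁻¹ * x ∈ Γ.H

variable {Γ}

theorem TB.mono {W W' : Set G} (h : Γ.TB W') (hW : W ⊆ W') : Γ.TB W := by
  obtain ⟨F, hF, h⟩ := h; exact ⟨F, hF, fun x hx => h x (hW hx)⟩

theorem TB.union {W W' : Set G} (h : Γ.TB W) (h' : Γ.TB W') : Γ.TB (W ∪ W') := by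
  obtain ⟨F, hF, h⟩ := h
  obtain ⟨F', hF', h'⟩ := h'
  refine ⟨F ∪ F', hF.union hF', ?_⟩
  rintro x (hx | hx)
  · obtain ⟨f, hf, e⟩ := h x hx; exact ⟨f, Or.inl hf, e⟩
  · obtain ⟨f, hf, e⟩ := h' x hx; exact ⟨f, Or.inr hf, e⟩

theorem TB_finite {W : Set G} (h : W.Finite) : Γ.TB W :=
  ⟨W, h, fun x hx => ⟨x, hx, by simp⟩⟩

theorem TB_H : Γ.TB Γ.H := ⟨{1}, Set.finite_singleton _, fun x hx => ⟨1, rfl, by simpa using hx⟩⟩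

theorem TB.biUnion {ι : Type} {s : Set ι} (hs : s.Finite) {W : ι → Set G}
    (h : ∀ i ∈ s, Γ.TB (W i)) : Γ.TB (⋃ i ∈ s, W i) := by
  choose F hF h using h
  refine ⟨⋃ i, ⋃ hi : i ∈ s, F i hi, hs.biUnion' hF, fun x hx => ?_⟩
  simp only [Set.mem_iUnion] at hx ⊢
  obtain ⟨i, hi, hx⟩ := hx
  obtain ⟨f, hf, e⟩ := h i hi x hx
  exact ⟨f, ⟨i, hi, hf⟩, e⟩

theorem TB.mul_t {W : Set G} (h : Γ.TB W) : Γ.TB ((· * Γ.t) '' W) := by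
  obtain ⟨F, hF, h⟩ := h
  refine ⟨Set.image2 (fun f i => f * Γ.rA i * Γ.t) F Set.univ, hF.image2 _ Set.finite_univ, ?_⟩
  rintro _ ⟨x, hx, rfl⟩
  obtain ⟨f, hf, e⟩ := h x hx
  obtain ⟨i, hi⟩ := Γ.rA_cover _ e
  refine ⟨_, ⟨f, hf, i, trivial, rfl⟩, ?_⟩
  simpa [mul_assoc] using Γ.B_le (Γ.A_t _ hi)

theorem TB.mul_inv_t {W : Set G} (h : Γ.TB W) : Γ.TB ((· * Γ.t⁻¹) '' W) := by
  obtain ⟨F, hF, h⟩ := h
  refine ⟨Set.image2 (fun f i => f * Γ.rB i * Γ.t⁻¹) F Set.univ, hF.image2 _ Set.finite_univ, ?_⟩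
  rintro _ ⟨x, hx, rfl⟩
  obtain ⟨f, hf, e⟩ := h x hx
  obtain ⟨i, hi⟩ := Γ.rB_cover _ e
  refine ⟨_, ⟨f, hf, i, trivial, rfl⟩, ?_⟩
  simpa [mul_assoc] using Γ.A_le (Γ.B_t _ hi)

theorem TB.mul_H {W : Set G} (h : Γ.TB W) : Γ.TB (W * (Γ.H : Set G)) := by
  obtain ⟨F, hF, h⟩ := h
  refine ⟨F, hF, ?_⟩
  rintro _ ⟨x, hx, y, hy, rfl⟩
  obtain ⟨f, hf, e⟩ := h x hx
  exact ⟨f, hf, by simpa [mul_assoc] using Γ.H.mul_mem e hy⟩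

theorem TB.mul_elt {W : Set G} (h : Γ.TB W) (f : G) : Γ.TB ((· * f) '' W) := by
  induction f using Γ.rind with
  | one => simpa using h
  | mulH x y hy ih =>
    refine ih.mul_H.mono ?_
    rintro _ ⟨z, hz, rfl⟩
    exact ⟨_, ⟨z, hz, rfl⟩, y, hy, by simp [mul_assoc]⟩
  | mult x ih => simpa only [Set.image_image, mul_assoc] using ih.mul_t
  | mulInv x ih => simpa only [Set.image_image, mul_assoc] using ih.mul_inv_t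

theorem TB.mul {W W' : Set G} (h : Γ.TB W) (h' : Γ.TB W') : Γ.TB (W * W') := by
  obtain ⟨F', hF', h'⟩ := h'
  refine (TB.biUnion hF' fun f _ => h.mul_elt f).mul_H.mono ?_
  rintro _ ⟨x, hx, y, hy, rfl⟩
  obtain ⟨f, hf, e⟩ := h' y hy
  refine ⟨x * f, ?_, _, e, by simp [mul_assoc]⟩
  simp only [Set.mem_iUnion]
  exact ⟨f, hf, x, hx, rfl⟩

theorem TB.inv {W : Set G} (h : Γ.TB W) : Γ.TB W⁻¹ := by
  obtain ⟨F, hF, h⟩ := h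
  refine (TB_H.mul (TB_finite hF.inv)).mono fun x hx => ?_
  obtain ⟨f, hf, e⟩ := h _ hx
  exact ⟨_, Γ.H.inv_mem e, f⁻¹, by simpa using hf, by simp⟩

theorem TB_Pos (d : ℕ) : Γ.TB (Γ.Pos d) := by
  induction d with
  | zero => exact TB_finite (Set.finite_singleton _)
  | succ d ih =>
    refine ih.mul_t.mul_H.mono ?_
    rintro _ ⟨x, hx, h, hh, rfl⟩
    exact ⟨_, ⟨x, hx, rfl⟩, h, hh, rfl⟩

variable (Γ) in
theorem cross_elt (s : G) : ∃ F : Set G, F.Finite ∧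
    ∀ x, ¬ (x * s ∈ Γ.Hs ↔ x ∈ Γ.Hs) → ∃ f ∈ F, x * f ∈ Γ.A := by
  induction s using Γ.rind with
  | one => exact ⟨∅, Set.finite_empty, fun x hx => by simp at hx⟩
  | mulH s h hh ih =>
    obtain ⟨F, hF, ih⟩ := ih
    exact ⟨F, hF, fun x hx => ih x (by rwa [← mul_assoc, Γ.Hs_mul_H_iff hh] at hx)⟩
  | mult s ih =>
    obtain ⟨F, hF, ih⟩ := ih
    refine ⟨insert s F, hF.insert s, fun x hx => ?_⟩
    by_cases h : x * s ∈ Γ.Hs ↔ x ∈ Γ.Hs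
    · rw [← h, ← mul_assoc] at hx
      refine ⟨s, Set.mem_insert _ _, Γ.cross _ ?_ ?_⟩
      · exact fun h1 => hx ⟨fun _ => h1, fun _ => Γ.Hs_t _ h1⟩
      · by_contra h1
        exact hx ⟨fun h2 => (h1 h2).elim, fun h2 => Γ.Hs_t _ h2⟩
    · obtain ⟨f, hf, e⟩ := ih x h
      exact ⟨f, Set.mem_insert_of_mem _ hf, e⟩
  | mulInv s ih =>
    obtain ⟨F, hF, ih⟩ := ih
    refine ⟨insert (s * Γ.t⁻¹) F, hF.insert _, fun x hx => ?_⟩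
    by_cases h : x * s ∈ Γ.Hs ↔ x ∈ Γ.Hs
    · rw [← h, ← mul_assoc] at hx
      refine ⟨_, Set.mem_insert _ _, Γ.cross _ ?_ ?_⟩
      · rw [← mul_assoc]
        exact fun h1 => hx ⟨fun _ => Γ.of_mul_inv_t h1, fun _ => h1⟩
      · by_contra h1
        rw [← mul_assoc, inv_mul_cancel_right] at h1
        exact hx ⟨fun h2 => Γ.of_mul_inv_t h2, fun h2 => (h1 h2).elim⟩
    · obtain ⟨f, hf, e⟩ := ih x h
      exact ⟨f, Set.mem_insert_of_mem _ hf, e⟩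

variable (Γ) in
theorem cross_set {S : Set G} (hS : S.Finite) : ∃ F : Set G, F.Finite ∧
    ∀ s ∈ S, ∀ x, ¬ (x * s ∈ Γ.Hs ↔ x ∈ Γ.Hs) → ∃ f ∈ F, x * f ∈ Γ.A := by
  choose F hF h using Γ.cross_elt
  refine ⟨⋃ s ∈ S, F s, hS.biUnion fun s _ => hF s, fun s hs x hx => ?_⟩
  obtain ⟨f, hf, e⟩ := h s x hx
  exact ⟨f, Set.mem_biUnion hs hf, e⟩

variable (Γ) in
theorem cross_TB {S : Set G} (hS : S.Finite) (d : ℕ) : ∃ W, Γ.TB W ∧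
    ∀ g ∈ Γ.Dom d, ∀ y, ∀ κ ∈ S, g⁻¹ * y ∉ W → (y * κ ∈ Γ.Desc d g ↔ y ∈ Γ.Desc d g) := by
  obtain ⟨F, hF, h⟩ := Γ.cross_set hS
  refine ⟨(Γ.Pos d)⁻¹ * (Γ.H : Set G) * F⁻¹, ((TB_Pos d).inv.mul TB_H).mul (TB_finite hF.inv), ?_⟩
  rintro g ⟨γ, hγ⟩ y κ hκ hW
  by_contra hc
  rw [hγ.mem_Desc, hγ.mem_Desc, ← mul_assoc] at hc
  obtain ⟨f, hf, e⟩ := h κ hκ _ hc
  refine hW ⟨_, ⟨(γ⁻¹ * g)⁻¹, by simpa using hγ.2, _, Γ.A_le e, rfl⟩, f⁻¹, by simpa using hf, ?_⟩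
  simp [mul_assoc]

variable (Γ) in
theorem margin_elt (κ : G) : ∃ K, ∀ x ∈ Γ.Pos K, ∀ y ∈ Γ.Hs, x * y * κ ∈ Γ.Hs := by
  induction κ using Γ.rind with
  | one => exact ⟨0, fun x hx y hy => by simpa using Γ.Pos_mul_Hs hx hy⟩
  | mulH s h hh ih =>
    obtain ⟨K, ih⟩ := ih
    exact ⟨K, fun x hx y hy => by rw [← mul_assoc]; exact Γ.Hs_H _ (ih x hx y hy) _ hh⟩
  | mult s ih =>
    obtain ⟨K, ih⟩ := ih
    exact ⟨K, fun x hx y hy => by rw [← mul_assoc]; exact Γ.Hs_t _ (ih x hx y hy)⟩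
  | mulInv s ih =>
    obtain ⟨K, ih⟩ := ih
    refine ⟨1 + K, fun x hx y hy => ?_⟩
    obtain ⟨z, hz, h2⟩ := Γ.Pos_split hx
    have e : x * y * (s * Γ.t⁻¹) = z * (z⁻¹ * x * y * s * Γ.t⁻¹) := by group
    rw [e]
    by_cases h : z⁻¹ * x * y * s * Γ.t⁻¹ ∈ Γ.Hs
    · exact Γ.Pos_mul_Hs hz h
    · exact Γ.Hs_H _ (Γ.Pos_succ_Hs (k := 0) hz) _
        (Γ.A_le (Γ.cross _ h (by simpa using ih _ h2 y hy)))

variable (Γ) in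
theorem margin {S : Set G} (hS : S.Finite) : ∃ K, ∀ l, ∀ g ∈ Γ.Dom (K + l), ∀ y ∈ Γ.Desc l g,
    ∀ κ ∈ S, y * κ ∈ Γ.Desc (K + l) g := by
  choose K hK using Γ.margin_elt
  obtain ⟨M, hM⟩ := (hS.image K).bddAbove
  refine ⟨M, fun l g hg y hy κ hκ => ?_⟩
  have hle : K κ ≤ M := hM ⟨κ, hκ, rfl⟩
  refine Desc_mono (d := K κ + l) (by omega) hg ?_
  obtain ⟨γ, hγ⟩ := Dom_mono (d := K κ + l) (by omega) hg
  obtain ⟨z, hz, h2⟩ := hγ.split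
  rw [hγ.mem_Desc]
  simpa [mul_assoc] using hK κ z hz _ (h2.mem_Desc.1 hy)

end Geo
end Pool.Agent.MP_5bc3cb_al
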