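import Pool.Agent.MP_5bc3cb_al.Wander

namespace Pool.Agent.MP_5bc3cb_al
open Filter Pointwise

variable {G : Type} [Group G] {Γ : Geo G} (M : Mean Γ) (U : UA G)

/-- powers of a word -/
def rep {α : Type} (τ : List α) : ℕ → List α
  | 0 => []
  | k + 1 => τ ++ rep τ k

/-- a loop at the state `q` representing an element of `H` -/
def Loop (Γ : Geo G) (q : Set (List U.α)) (τ : List U.α) : Prop :=
  quot q τ = q ∧ ev U.π τ ∈ Γ.H

/-- live state -/
def Live (q : Set (List U.α)) : Prop := ∃ u σ, q = quot U.L u ∧ σ ∈ q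

variable {U}

theorem Loop.append {q : Set (List U.α)} {τ τ' : List U.α} (h : Loop U Γ q τ)
    (h' : Loop U Γ q τ') : Loop U Γ q (τ ++ τ') :=
  ⟨by rw [quot_append, h.1, h'.1], by rw [ev_append]; exact Γ.H.mul_mem h.2 h'.2⟩

theorem Loop.rep {q : Set (List U.α)} {τ : List U.α} (h : Loop U Γ q τ) (k : ℕ) :
    Loop U Γ q (rep τ k) := by
  induction k with
  | zero => exact ⟨by ext σ; simp [quot, MP_5bc3cb_al.rep], by simp [MP_5bc3cb_al.rep]⟩
  | succ k ih => exact h.append ih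

theorem Loop.eq_of_ev {q : Set (List U.α)} (hq : Live U q) {τ τ' : List U.α} (h : Loop U Γ q τ)
    (h' : Loop U Γ q τ') (he : ev U.π τ = ev U.π τ') : τ = τ' := by
  obtain ⟨u, σ, rfl, hσ⟩ := hq
  have h1 : u ++ (τ ++ σ) ∈ U.L := by rw [← h.1] at hσ; exact hσ
  have h2 : u ++ (τ' ++ σ) ∈ U.L := by rw [← h'.1] at hσ; exact hσ
  simpa using U.inj h1 h2 (by simp [he])

theorem p_rep {τ : List U.α} (h : ev U.π τ ∈ Γ.H) (k : ℕ) :
    Γ.p (ev U.π (rep τ k)) = k * Γ.p (ev U.π τ) := by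
  induction k with
  | zero => simp [rep, Γ.p_one]
  | succ k ih => rw [rep, ev_append, Γ.p_mul, Γ.n_H _ h, ih]; push_cast; simp; ring

variable (U) in
theorem exists_window (Γ : Geo G) (ρ : ℝ) (q : Set (List U.α)) : ∃ υ : List U.α, Live U q →
    ∀ τ, Loop U Γ q τ → τ ≠ [] → υ.length ≤ τ.length →
      υ <+: τ ∧ ρ ≤ ‖Γ.p (ev U.π υ)‖ := by
  by_cases hex : Live U q ∧ ∃ τ0, Loop U Γ q τ0 ∧ τ0 ≠ []
  · obtain ⟨hq, τ0, h0, hne⟩ := hex
    have hp : 0 < ‖Γ.p (ev U.π τ0)‖ := norm_pos_iff.2 fun h =>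
      hne (Loop.eq_of_ev hq h0 (h0.rep 0) (Γ.p_inj _ h0.2 h))
    obtain ⟨k, hk⟩ := exists_nat_gt (ρ / ‖Γ.p (ev U.π τ0)‖)
    rw [div_lt_iff₀ hp] at hk
    refine ⟨rep τ0 k, fun _ τ hτ _ hl => ⟨?_, ?_⟩⟩
    · have e := Loop.eq_of_ev hq (hτ.append (h0.rep k)) ((h0.rep k).append hτ) (by
        rw [ev_append, ev_append]; exact Γ.comm _ hτ.2 _ (h0.rep k).2)
      exact List.prefix_of_prefix_length_le (List.prefix_append _ τ)
        (e ▸ List.prefix_append τ _) hl
    · rw [p_rep h0.2, norm_mul, Complex.norm_natCast]; exact hk.le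
  · exact ⟨[], fun hq τ hτ hne _ => absurd ⟨hq, τ, hτ, hne⟩ hex⟩

variable (U)

theorem tight (L : ℕ) {δ : ℝ} (hδ : 0 < δ) : ∃ T : ℕ,
    M.m {g | g ∈ Γ.Dom L ∧ ∀ s ≤ T, U.B g s ∈ Γ.Desc L g} ≤ δ := by
  classical
  obtain ⟨W, ⟨F, hF, hW⟩, hfar⟩ := far_small M U L (η := δ / 4) (by positivity)
  let C := hF.toFinset ×ˢ U.finQ.toFinset
  obtain ⟨ρ, hρ⟩ := stepA M U (η := δ / 4 / (C.card + 1)) (by positivity)
  choose υ hυ using exists_window U Γ ρ
  let Wn := (U.finQ.toFinset.sup fun q => (υ q).length) + 1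
  let Y : ℕ → G × Set (List U.α) → Set G := fun s c => {g | ρ ≤ ‖Γ.p (ev U.π (υ c.2))‖ ∧
    g ∈ Ys U Γ (s - (υ c.2).length) s (Γ.lam ^ Γ.n c.1 * Γ.p (ev U.π (υ c.2))) 0}
  have hY : ∀ s c, M.m (Y s c) ≤ δ / 4 / (C.card + 1) := fun s c => by
    by_cases h : ρ ≤ ‖Γ.p (ev U.π (υ c.2))‖
    · refine (M.mono fun g hg => hg.2).trans (hρ _ ?_ _ _)
      rwa [norm_mul, Γ.norm_zpow_lam, one_mul]
    · refine (M.mono (E' := ∅) fun g hg => h hg.1).trans ?_
      rw [M.m_empty]; positivity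
  let Bad : ℕ → Set G := fun s => {g | g ∈ Far U Γ s L W ∨ ∃ c ∈ C, g ∈ Y s c}
  have hBad : ∀ s, M.m (Bad s) ≤ δ / 2 := fun s => by
    have h1 := M.union_le (E := Bad s) (E1 := Far U Γ s L W) (E2 := {g | ∃ c ∈ C, g ∈ Y s c})
      fun g hg => hg
    have h2 := M.cover_le C {g | ∃ c ∈ C, g ∈ Y s c} (Y s) fun g hg => hg
    have h3 := Finset.sum_le_sum fun c (_ : c ∈ C) => hY s c
    simp only [Finset.sum_const, nsmul_eq_mul] at h3
    have h4 : (C.card : ℝ) * (δ / 4 / (C.card + 1)) ≤ δ / 4 := by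
      rw [mul_div_assoc', div_le_iff₀ (by positivity)]; nlinarith
    linarith [hfar s]
  refine ⟨2 * (C.card * Wn), ?_⟩
  set N := C.card * Wn with hN
  have key := M.count_le (Finset.range (2 * N + 1))
    {g | g ∈ Γ.Dom L ∧ ∀ s ≤ 2 * N, U.B g s ∈ Γ.Desc L g} Bad (N + 1) ?_
  · have h3 := Finset.sum_le_sum fun s (_ : s ∈ Finset.range (2 * N + 1)) => hBad s
    simp only [Finset.sum_const, nsmul_eq_mul, Finset.card_range] at h3
    push_cast at h3
    have hN0 : (0 : ℝ) ≤ N := Nat.cast_nonneg N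
    by_contra hc
    push Not at hc
    nlinarith
  rintro g ⟨hg, hB⟩
  have hf : ∀ s, ∃ f, g⁻¹ * U.B g s ∈ W → f ∈ F ∧ f⁻¹ * (g⁻¹ * U.B g s) ∈ Γ.H := fun s => by
    by_cases h : g⁻¹ * U.B g s ∈ W
    · obtain ⟨f, h1, h2⟩ := hW _ h
      exact ⟨f, fun _ => ⟨h1, h2⟩⟩
    · exact ⟨1, fun h' => absurd h' h⟩
  choose f hf using hf
  have hnear : ∀ s ≤ 2 * N, g ∉ Bad s → g⁻¹ * U.B g s ∈ W := fun s hs h => by
    by_contra h'
    exact h (Or.inl ⟨hg, hB s hs, h'⟩)
  let cls : ℕ → G × Set (List U.α) := fun s =>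
    (f s, quot U.L ((U.w g).take ((U.w g).length - s)))
  have hcls : ∀ s ≤ 2 * N, g ∉ Bad s → cls s ∈ C := fun s hs h => by
    simp only [C, cls, Finset.mem_product, Set.Finite.mem_toFinset]
    exact ⟨(hf s (hnear s hs h)).1, _, rfl⟩
  have hgood : ∀ s s', s + Wn ≤ s' → s' ≤ 2 * N → g ∉ Bad s → g ∉ Bad s' → cls s = cls s' →
      False := by
    intro s s' hss hs' hb hb' he
    have hlen : s' < (U.w g).length := by
      by_contra h
      have := hB s' hs'
      rw [U.B_of_le (not_lt.1 h)] at this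
      exact Geo.one_not_Desc _ _ this
    simp only [cls, Prod.mk.injEq] at he
    set i := (U.w g).length - s' with hi
    set q := quot U.L ((U.w g).take i) with hq
    set τ := ((U.w g).drop i).take (s' - s) with hτ
    have htake : (U.w g).take ((U.w g).length - s) = (U.w g).take i ++ τ := by
      rw [hτ, ← List.take_add]; congr 1; omega
    have hτlen : τ.length = s' - s := by
      simp only [hτ, List.length_take, List.length_drop]; omega
    have hBs : U.B g s = U.B g s' * ev U.π τ := by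
      simp only [UA.B, UA.F]; rw [htake, ev_append]
    have h1 := (hf s (hnear s (by omega) hb)).2
    have h2 := (hf s' (hnear s' hs' hb')).2
    have hloop : Loop U Γ q τ := by
      refine ⟨by rw [hq, ← quot_append, ← htake, he.2], ?_⟩
      rw [hBs, he.1, ← mul_assoc, ← mul_assoc, mul_assoc _ g⁻¹] at h1
      exact (Γ.H.mul_mem_cancel_left h2).1 h1
    have hlive : Live U q := ⟨_, (U.w g).drop i, rfl, by simpa [hq, quot] using U.w_mem g⟩
    have hle : (υ q).length < Wn := Nat.lt_succ_of_le (Finset.le_sup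
      (f := fun q => (υ q).length) (U.finQ.mem_toFinset.2 ⟨_, rfl⟩))
    obtain ⟨⟨r, hr⟩, hρ'⟩ := hυ q hlive τ hloop
      (by intro h; rw [h] at hτlen; simp at hτlen; omega) (by omega)
    have hBυ : U.B g (s' - (υ q).length) = U.B g s' * ev U.π (υ q) := by
      simp only [UA.B, UA.F]
      rw [← ev_append, show (U.w g).length - (s' - (υ q).length) = i + (υ q).length by omega,
        List.take_add]
      congr 2
      have : ((U.w g).drop i).take (υ q).length = τ.take (υ q).length := by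
        rw [hτ, List.take_take, min_eq_left (by omega)]
      rw [this, ← hr, List.take_left']
      rfl
    refine hb' (Or.inr ⟨cls s', hcls s' hs' hb', hρ', Geo.Dom_sub_CA hg, ?_⟩)
    have hn : Γ.n (g⁻¹ * U.B g s') = Γ.n (f s') := by
      have := Γ.n_H _ h2
      rw [Γ.n_mul, Γ.n_inv] at this; omega
    change ‖Γ.p (g⁻¹ * U.B g (s' - (υ q).length)) - Γ.p (g⁻¹ * U.B g s') -
      Γ.lam ^ Γ.n (f s') * Γ.p (ev U.π (υ q))‖ ≤ 0
    rw [hBυ, ← mul_assoc, Γ.p_mul, hn]; simp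
  have hcard : ((Finset.range (2 * N + 1)).filter fun s => g ∉ Bad s).card ≤
      (C ×ˢ Finset.range Wn).card := by
    refine Finset.card_le_card_of_injOn (fun s => (cls s, s % Wn)) (fun s hs => ?_) ?_
    · simp only [Finset.coe_filter, Finset.mem_range, Set.mem_ofPred_eq] at hs
      simp only [Finset.coe_product, Set.mem_prod, Finset.mem_coe, Finset.mem_range]
      exact ⟨hcls s (by omega) hs.2, Nat.mod_lt _ (Nat.succ_pos _)⟩
    · intro s hs s' hs' he
      simp only [Finset.coe_filter, Finset.mem_range, Set.mem_ofPred_eq] at hs hs'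
      simp only [Prod.mk.injEq] at he
      by_contra hne
      rcases lt_or_gt_of_ne hne with hlt | hlt
      · have := Nat.le_of_dvd (by omega) ((Nat.modEq_iff_dvd' hlt.le).1 he.2)
        exact hgood s s' (by omega) (by omega) hs.2 hs'.2 he.1
      · have := Nat.le_of_dvd (by omega) ((Nat.modEq_iff_dvd' hlt.le).1 he.2.symm)
        exact hgood s' s (by omega) (by omega) hs'.2 hs.2 he.1.symm
  rw [Finset.card_product, Finset.card_range, ← hN] at hcard
  have h1 := Finset.card_filter_add_card_filter_not (s := Finset.range (2 * N + 1))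
    (fun s => g ∈ Bad s)
  rw [Finset.card_range] at h1
  have h2 : ∑ s ∈ Finset.range (2 * N + 1), chi (Bad s) g =
      ((Finset.range (2 * N + 1)).filter fun s => g ∈ Bad s).card := by
    rw [Finset.card_filter]; push_cast
    refine Finset.sum_congr rfl fun s _ => ?_
    split_ifs with h
    · exact chi_of_mem h
    · exact chi_of_not h
  rw [h2]
  exact_mod_cast (by omega)

end Pool.Agent.MP_5bc3cb_al
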