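import Pool.Agent.MP_5bc3cb_al.Geo

namespace Pool.Agent.MP_5bc3cb_al
open Pointwise

namespace Geo
variable {G : Type} [Group G] (Γ : Geo G)

theorem rind {Q : G → Prop} (one : Q 1)
    (mulH : ∀ x, ∀ h ∈ Γ.H, Q x → Q (x * h)) (mult : ∀ x, Q x → Q (x * Γ.t))
    (mulInv : ∀ x, Q x → Q (x * Γ.t⁻¹)) (g : G) : Q g := Γ.ind Q one mulH mult mulInv g

theorem n_one : Γ.n 1 = 0 := Γ.n_H 1 Γ.H.one_mem

theorem n_inv (x : G) : Γ.n x⁻¹ = -Γ.n x := by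
  have := Γ.n_mul x x⁻¹
  rw [mul_inv_cancel, Γ.n_one] at this
  omega

theorem p_one : Γ.p 1 = 0 := by
  have := Γ.p_mul 1 1
  rw [mul_one, Γ.n_one, zpow_zero, one_mul] at this
  simpa using this

theorem lam_ne_zero : Γ.lam ≠ 0 := by
  intro h; have := Γ.lam_norm; rw [h] at this; simp at this

theorem norm_zpow_lam (j : ℤ) : ‖Γ.lam ^ j‖ = 1 := by
  rw [norm_zpow, Γ.lam_norm, one_zpow]

theorem Hs_mul_H_iff {x h : G} (hh : h ∈ Γ.H) : x * h ∈ Γ.Hs ↔ x ∈ Γ.Hs :=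
  ⟨fun hx => by simpa using Γ.Hs_H _ hx _ (Γ.H.inv_mem hh), fun hx => Γ.Hs_H _ hx _ hh⟩

theorem H_not_Hs {h : G} (hh : h ∈ Γ.H) : h ∉ Γ.Hs := fun hx =>
  Γ.one_not ((Γ.Hs_mul_H_iff hh).1 (by simpa using hx))

theorem t_mem : Γ.t ∈ Γ.Hs := by simpa using Γ.At_mem 1 Γ.A.one_mem

theorem of_mul_inv_t {x : G} (hx : x * Γ.t⁻¹ ∈ Γ.Hs) : x ∈ Γ.Hs := by
  simpa using Γ.Hs_t _ hx

theorem Hs_A_iff {a : G} (ha : a ∈ Γ.A) (x : G) : a * x ∈ Γ.Hs ↔ x ∈ Γ.Hs := by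
  induction x using Γ.rind with
  | one => simp only [mul_one]; exact ⟨fun h => (Γ.H_not_Hs (Γ.A_le ha) h).elim,
      fun h => (Γ.one_not h).elim⟩
  | mulH x h hh ih => rw [← mul_assoc, Γ.Hs_mul_H_iff hh, Γ.Hs_mul_H_iff hh, ih]
  | mult x ih =>
    rw [← mul_assoc]
    by_cases hx : x ∈ Γ.Hs
    · exact ⟨fun _ => Γ.Hs_t _ hx, fun _ => Γ.Hs_t _ (ih.2 hx)⟩
    · refine ⟨fun h => ?_, fun h => Γ.At_mem _ (Γ.A.mul_mem ha (Γ.cross _ hx h))⟩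
      exact Γ.At_mem _ ((Γ.A.mul_mem_cancel_left ha).1 (Γ.cross _ (fun h' => hx (ih.1 h')) h))
  | mulInv x ih =>
    constructor
    · intro h
      by_contra h'
      have h1 : x * Γ.t⁻¹ ∈ Γ.A := Γ.cross _ h' (by
        simpa using ih.1 (Γ.of_mul_inv_t (by rwa [mul_assoc])))
      exact Γ.H_not_Hs (Γ.A_le (Γ.A.mul_mem ha h1)) h
    · intro h
      by_contra h'
      have h1 : a * (x * Γ.t⁻¹) ∈ Γ.A := Γ.cross _ h' (by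
        simpa [mul_assoc] using ih.2 (Γ.of_mul_inv_t h))
      exact Γ.H_not_Hs (Γ.A_le ((Γ.A.mul_mem_cancel_left ha).1 h1)) h

theorem sep {y x : G} (hy : y ∈ Γ.H) (h1 : x ∈ Γ.Hs) (h2 : y⁻¹ * x ∈ Γ.Hs) : y ∈ Γ.A := by
  by_contra hA
  revert h1 h2
  induction x using Γ.rind with
  | one => exact fun h _ => Γ.one_not h
  | mulH x h hh ih =>
    rw [← mul_assoc, Γ.Hs_mul_H_iff hh, Γ.Hs_mul_H_iff hh]; exact ih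
  | mult x ih =>
    intro h1 h2
    rw [← mul_assoc] at h2
    have key : x ∈ Γ.H → False := fun hx => by
      have e1 := Γ.cross _ (Γ.H_not_Hs hx) h1
      have e2 := Γ.cross _ (Γ.H_not_Hs (Γ.H.mul_mem (Γ.H.inv_mem hy) hx)) h2
      exact hA (Γ.A.inv_mem_iff.1 ((Γ.A.mul_mem_cancel_right e1).1 e2))
    by_cases hx : x ∈ Γ.Hs
    · have e2 := Γ.cross _ (ih hx) h2
      exact key ((Γ.H.mul_mem_cancel_left (Γ.H.inv_mem hy)).1 (Γ.A_le e2))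
    · exact key (Γ.A_le (Γ.cross _ hx h1))
  | mulInv x ih =>
    intro h1 h2
    exact ih (Γ.of_mul_inv_t h1) (Γ.of_mul_inv_t (by rwa [mul_assoc]))

theorem tH_mem {h : G} (hh : h ∈ Γ.H) : Γ.t * h ∈ Γ.Hs := Γ.Hs_H _ Γ.t_mem _ hh

theorem nested {h x : G} (hh : h ∈ Γ.H) (hx : x ∈ Γ.Hs) : Γ.t * h * x ∈ Γ.Hs := by
  revert hx
  induction x using Γ.rind with
  | one => exact fun h => (Γ.one_not h).elim
  | mulH x h' hh' ih => rw [← mul_assoc, Γ.Hs_mul_H_iff hh', Γ.Hs_mul_H_iff hh']; exact ih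
  | mult x ih =>
    intro h1
    rw [← mul_assoc]
    by_cases hx : x ∈ Γ.Hs
    · exact Γ.Hs_t _ (ih hx)
    · exact Γ.Hs_t _ (Γ.Hs_H _ (Γ.tH_mem hh) _ (Γ.A_le (Γ.cross _ hx h1)))
  | mulInv x ih =>
    intro h1
    by_contra h2
    have e := Γ.cross _ h2 (by simpa [mul_assoc] using ih (Γ.of_mul_inv_t h1))
    have : x * Γ.t⁻¹ = h⁻¹ * Γ.t⁻¹ * (Γ.t * h * (x * Γ.t⁻¹)) := by group
    rw [this, Γ.Hs_mul_H_iff (Γ.A_le e)] at h1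
    exact Γ.H_not_Hs (Γ.H.inv_mem hh) (Γ.of_mul_inv_t h1)

/-- positive words `(t H)^k` -/
def Pos : ℕ → Set G
  | 0 => {1}
  | k + 1 => {z | ∃ x ∈ Pos k, ∃ h ∈ Γ.H, z = x * Γ.t * h}

/-- the cone `H (t H)^k` -/
def Cone : ℕ → Set G
  | 0 => Γ.H
  | k + 1 => {z | ∃ x ∈ Cone k, ∃ h ∈ Γ.H, z = x * Γ.t * h}

theorem mem_Pos_zero {z : G} : z ∈ Γ.Pos 0 ↔ z = 1 := Iff.rfl

theorem Pos_succ {k : ℕ} {x h : G} (hx : x ∈ Γ.Pos k) (hh : h ∈ Γ.H) :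
    x * Γ.t * h ∈ Γ.Pos (k + 1) := ⟨x, hx, h, hh, rfl⟩

theorem Cone_succ {k : ℕ} {x h : G} (hx : x ∈ Γ.Cone k) (hh : h ∈ Γ.H) :
    x * Γ.t * h ∈ Γ.Cone (k + 1) := ⟨x, hx, h, hh, rfl⟩

theorem Pos_mul_Hs {k : ℕ} {z x : G} (hz : z ∈ Γ.Pos k) (hx : x ∈ Γ.Hs) : z * x ∈ Γ.Hs := by
  induction k generalizing z x with
  | zero => rw [Γ.mem_Pos_zero.1 hz, one_mul]; exact hx
  | succ k ih =>
    obtain ⟨y, hy, h, hh, rfl⟩ := hz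
    rw [mul_assoc y, mul_assoc y]
    exact ih hy (Γ.nested hh hx)

theorem Pos_succ_Hs {k : ℕ} {z : G} (hz : z ∈ Γ.Pos (k + 1)) : z ∈ Γ.Hs := by
  induction k generalizing z with
  | zero =>
    obtain ⟨y, hy, h, hh, rfl⟩ := hz
    rw [Γ.mem_Pos_zero.1 hy, one_mul]; exact Γ.tH_mem hh
  | succ k ih =>
    obtain ⟨y, hy, h, hh, rfl⟩ := hz
    exact Γ.Hs_H _ (Γ.Hs_t _ (ih hy)) _ hh

theorem Pos_mul_Pos {j k : ℕ} {x y : G} (hx : x ∈ Γ.Pos j) (hy : y ∈ Γ.Pos k) :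
    x * y ∈ Γ.Pos (j + k) := by
  induction k generalizing y with
  | zero => rw [Γ.mem_Pos_zero.1 hy, mul_one]; exact hx
  | succ k ih =>
    obtain ⟨z, hz, h, hh, rfl⟩ := hy
    rw [← mul_assoc, ← mul_assoc]
    exact Γ.Pos_succ (ih hz) hh

theorem Cone_mul_Pos {j k : ℕ} {x y : G} (hx : x ∈ Γ.Cone j) (hy : y ∈ Γ.Pos k) :
    x * y ∈ Γ.Cone (j + k) := by
  induction k generalizing y with
  | zero => rw [Γ.mem_Pos_zero.1 hy, mul_one]; exact hx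
  | succ k ih =>
    obtain ⟨z, hz, h, hh, rfl⟩ := hy
    rw [← mul_assoc, ← mul_assoc]
    exact Γ.Cone_succ (ih hz) hh

theorem Cone_split {j k : ℕ} {g : G} (hg : g ∈ Γ.Cone (j + k)) :
    ∃ γ ∈ Γ.Cone j, γ⁻¹ * g ∈ Γ.Pos k := by
  induction k generalizing g with
  | zero => exact ⟨g, hg, by simp [Γ.mem_Pos_zero]⟩
  | succ k ih =>
    obtain ⟨z, hz, h, hh, rfl⟩ := hg
    obtain ⟨γ, hγ, h1⟩ := ih hz
    refine ⟨γ, hγ, ?_⟩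
    rw [← mul_assoc, ← mul_assoc]
    exact Γ.Pos_succ h1 hh

theorem Pos_split {j k : ℕ} {g : G} (hg : g ∈ Γ.Pos (j + k)) :
    ∃ γ ∈ Γ.Pos j, γ⁻¹ * g ∈ Γ.Pos k := by
  induction k generalizing g with
  | zero => exact ⟨g, hg, by simp [Γ.mem_Pos_zero]⟩
  | succ k ih =>
    obtain ⟨z, hz, h, hh, rfl⟩ := hg
    obtain ⟨γ, hγ, h1⟩ := ih hz
    refine ⟨γ, hγ, ?_⟩
    rw [← mul_assoc, ← mul_assoc]
    exact Γ.Pos_succ h1 hh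

theorem n_Pos {k : ℕ} {z : G} (hz : z ∈ Γ.Pos k) : Γ.n z = k := by
  induction k generalizing z with
  | zero => rw [Γ.mem_Pos_zero.1 hz, Γ.n_one]; rfl
  | succ k ih =>
    obtain ⟨y, hy, h, hh, rfl⟩ := hz
    rw [Γ.n_mul, Γ.n_mul, ih hy, Γ.n_t, Γ.n_H h hh]; push_cast; ring

theorem n_Cone {k : ℕ} {z : G} (hz : z ∈ Γ.Cone k) : Γ.n z = k := by
  induction k generalizing z with
  | zero => exact Γ.n_H z hz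
  | succ k ih =>
    obtain ⟨y, hy, h, hh, rfl⟩ := hz
    rw [Γ.n_mul, Γ.n_mul, ih hy, Γ.n_t, Γ.n_H h hh]; push_cast; ring

theorem Cone_mul_H {k : ℕ} {z h : G} (hz : z ∈ Γ.Cone k) (hh : h ∈ Γ.H) : z * h ∈ Γ.Cone k := by
  cases k with
  | zero => exact Γ.H.mul_mem hz hh
  | succ k =>
    obtain ⟨y, hy, h', hh', rfl⟩ := hz
    rw [mul_assoc]; exact Γ.Cone_succ hy (Γ.H.mul_mem hh' hh)

theorem Pos_mul_H {k : ℕ} {z h : G} (hz : z ∈ Γ.Pos (k + 1)) (hh : h ∈ Γ.H) :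
    z * h ∈ Γ.Pos (k + 1) := by
  obtain ⟨y, hy, h', hh', rfl⟩ := hz
  rw [mul_assoc]; exact Γ.Pos_succ hy (Γ.H.mul_mem hh' hh)

theorem A_mul_Pos {k : ℕ} {z a : G} (ha : a ∈ Γ.A) (hz : z ∈ Γ.Pos (k + 1)) :
    a * z ∈ Γ.Pos (k + 1) := by
  induction k generalizing z with
  | zero =>
    obtain ⟨y, hy, h, hh, rfl⟩ := hz
    rw [Γ.mem_Pos_zero.1 hy]
    refine ⟨1, rfl, Γ.t⁻¹ * a * Γ.t * h, Γ.H.mul_mem (Γ.B_le (Γ.A_t a ha)) hh, by group⟩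
  | succ k ih =>
    obtain ⟨y, hy, h, hh, rfl⟩ := hz
    rw [← mul_assoc, ← mul_assoc]; exact Γ.Pos_succ (ih hy) hh

theorem Cone_inv_not {k : ℕ} {γ y : G} (hγ : γ ∈ Γ.Cone k) (hy : y ∉ Γ.Hs) :
    y * γ⁻¹ ∉ Γ.Hs := by
  induction k generalizing γ y with
  | zero => rw [Γ.Hs_mul_H_iff (Γ.H.inv_mem hγ)]; exact hy
  | succ k ih =>
    obtain ⟨x, hx, h, hh, rfl⟩ := hγ
    have : y * (x * Γ.t * h)⁻¹ = y * h⁻¹ * Γ.t⁻¹ * x⁻¹ := by group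
    rw [this]
    refine ih hx fun h1 => hy ?_
    exact (Γ.Hs_mul_H_iff (Γ.H.inv_mem hh)).1 (Γ.of_mul_inv_t h1)

theorem Cone_uniq {k : ℕ} {γ γ' y : G} (hγ : γ ∈ Γ.Cone k) (hγ' : γ' ∈ Γ.Cone k)
    (h1 : γ⁻¹ * y ∈ Γ.Hs) (h2 : γ'⁻¹ * y ∈ Γ.Hs) : γ⁻¹ * γ' ∈ Γ.A := by
  induction k generalizing γ γ' with
  | zero =>
    exact Γ.sep (Γ.H.mul_mem (Γ.H.inv_mem hγ) hγ') h1 (by simpa [mul_assoc] using h2)
  | succ k ih =>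
    obtain ⟨x, hx, h, hh, rfl⟩ := hγ
    obtain ⟨x', hx', h', hh', rfl⟩ := hγ'
    have e := ih hx hx' (by simpa [mul_assoc] using Γ.nested hh h1)
      (by simpa [mul_assoc] using Γ.nested hh' h2)
    refine Γ.sep ?_ h1 (by simpa [mul_assoc] using h2)
    have : (x * Γ.t * h)⁻¹ * (x' * Γ.t * h') = h⁻¹ * (Γ.t⁻¹ * (x⁻¹ * x') * Γ.t) * h' := by group
    rw [this]
    exact Γ.H.mul_mem (Γ.H.mul_mem (Γ.H.inv_mem hh) (Γ.B_le (Γ.A_t _ e))) hh'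

/-- the whole cone -/
def CA : Set G := {g | ∃ R, g ∈ Γ.Cone R}

/-- `γ` represents the edge at depth `d` below `g` -/
def Anc (d : ℕ) (γ g : G) : Prop := γ ∈ Γ.CA ∧ γ⁻¹ * g ∈ Γ.Pos d

/-- elements of the cone of level at least `d` -/
def Dom (d : ℕ) : Set G := {g | ∃ γ, Γ.Anc d γ g}

/-- descendants of the edge at depth `d` below `g` -/
def Desc (d : ℕ) (g : G) : Set G := {y | ∃ γ, Γ.Anc d γ g ∧ γ⁻¹ * y ∈ Γ.Hs}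

variable {Γ}

theorem CA_mul_H {g h : G} (hg : g ∈ Γ.CA) (hh : h ∈ Γ.H) : g * h ∈ Γ.CA := by
  obtain ⟨R, hR⟩ := hg; exact ⟨R, Γ.Cone_mul_H hR hh⟩

theorem CA_mul_Pos {g z : G} {k : ℕ} (hg : g ∈ Γ.CA) (hz : z ∈ Γ.Pos k) : g * z ∈ Γ.CA := by
  obtain ⟨R, hR⟩ := hg; exact ⟨_, Γ.Cone_mul_Pos hR hz⟩

theorem CA_shift {g h : G} (hg : g ∈ Γ.CA) (hh : h ∈ Γ.H) : g * Γ.t * h ∈ Γ.CA := by
  obtain ⟨R, hR⟩ := hg; exact ⟨_, Γ.Cone_succ hR hh⟩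

theorem Anc.mem_CA {d : ℕ} {γ g : G} (h : Γ.Anc d γ g) : g ∈ Γ.CA := by
  simpa using CA_mul_Pos h.1 h.2

theorem Dom_sub_CA {d : ℕ} {g : G} (h : g ∈ Γ.Dom d) : g ∈ Γ.CA := by
  obtain ⟨γ, h⟩ := h; exact h.mem_CA

theorem Anc.uniq {d : ℕ} {γ γ' g : G} (h : Γ.Anc d γ g) (h' : Γ.Anc d γ' g) :
    γ⁻¹ * γ' ∈ Γ.A := by
  cases d with
  | zero =>
    have e1 : γ⁻¹ * g = 1 := h.2
    have e2 : γ'⁻¹ * g = 1 := h'.2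
    rw [inv_mul_eq_one] at e1 e2
    rw [e1, e2]; simp
  | succ d =>
    obtain ⟨⟨j, hj⟩, h2⟩ := h
    obtain ⟨⟨j', hj'⟩, h2'⟩ := h'
    have e1 := Γ.n_Pos h2
    have e2 := Γ.n_Pos h2'
    rw [Γ.n_mul, Γ.n_inv, Γ.n_Cone hj] at e1
    rw [Γ.n_mul, Γ.n_inv, Γ.n_Cone hj'] at e2
    have : j = j' := by omega
    subst this
    exact Γ.Cone_uniq hj hj' (Γ.Pos_succ_Hs h2) (Γ.Pos_succ_Hs h2')

theorem Anc.mul_A {d : ℕ} {γ g a : G} (h : Γ.Anc (d + 1) γ g) (ha : a ∈ Γ.A) :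
    Γ.Anc (d + 1) (γ * a) g :=
  ⟨CA_mul_H h.1 (Γ.A_le ha), by
    simpa [mul_assoc] using Γ.A_mul_Pos (Γ.A.inv_mem ha) h.2⟩

theorem Anc.mem_Desc {d : ℕ} {γ g : G} (h : Γ.Anc d γ g) {y : G} :
    y ∈ Γ.Desc d g ↔ γ⁻¹ * y ∈ Γ.Hs := by
  refine ⟨fun ⟨γ', h', hy⟩ => ?_, fun hy => ⟨γ, h, hy⟩⟩
  have := (Γ.Hs_A_iff (h.uniq h') _).2 hy
  simpa [mul_assoc] using this

theorem Anc.split {d j : ℕ} {γ g : G} (h : Γ.Anc (j + d) γ g) :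
    ∃ z ∈ Γ.Pos j, Γ.Anc d (γ * z) g := by
  obtain ⟨z, hz, h2⟩ := Γ.Pos_split h.2
  exact ⟨z, hz, CA_mul_Pos h.1 hz, by simpa [mul_assoc] using h2⟩

theorem Anc.join {d j : ℕ} {γ g z : G} (hγ : γ ∈ Γ.CA) (hz : z ∈ Γ.Pos j)
    (h : Γ.Anc d (γ * z) g) : Γ.Anc (j + d) γ g :=
  ⟨hγ, by simpa [mul_assoc] using Γ.Pos_mul_Pos hz h.2⟩

theorem Dom_mono {d d' : ℕ} (hd : d ≤ d') {g : G} (h : g ∈ Γ.Dom d') : g ∈ Γ.Dom d := by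
  obtain ⟨j, rfl⟩ := Nat.exists_eq_add_of_le' hd
  obtain ⟨γ, h⟩ := h
  obtain ⟨z, -, h2⟩ := h.split
  exact ⟨_, h2⟩

theorem Desc_mono {d d' : ℕ} (hd : d ≤ d') {g : G} (h : g ∈ Γ.Dom d') {y : G}
    (hy : y ∈ Γ.Desc d g) : y ∈ Γ.Desc d' g := by
  obtain ⟨j, rfl⟩ := Nat.exists_eq_add_of_le' hd
  obtain ⟨γ, h⟩ := h
  obtain ⟨z, hz, h2⟩ := h.split
  rw [h.mem_Desc]
  simpa [mul_assoc] using Γ.Pos_mul_Hs hz (h2.mem_Desc.1 hy)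

theorem self_mem_Desc {d : ℕ} {g : G} (h : g ∈ Γ.Dom (d + 1)) : g ∈ Γ.Desc (d + 1) g := by
  obtain ⟨γ, h⟩ := h
  exact ⟨γ, h, Γ.Pos_succ_Hs h.2⟩

theorem one_not_Desc (d : ℕ) (g : G) : (1 : G) ∉ Γ.Desc d g := by
  rintro ⟨γ, ⟨⟨R, hR⟩, -⟩, h⟩
  exact Γ.Cone_inv_not hR Γ.one_not (by simpa using h)

theorem Anc.shift {d : ℕ} {γ g h : G} (hg : Γ.Anc d γ g) (hh : h ∈ Γ.H) :
    Γ.Anc (d + 1) γ (g * Γ.t * h) :=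
  ⟨hg.1, by rw [← mul_assoc, ← mul_assoc]; exact Γ.Pos_succ hg.2 hh⟩

theorem Dom_shift {d : ℕ} {g h : G} (hg : g ∈ Γ.Dom d) (hh : h ∈ Γ.H) :
    g * Γ.t * h ∈ Γ.Dom (d + 1) := by
  obtain ⟨γ, hγ⟩ := hg; exact ⟨γ, hγ.shift hh⟩

theorem Desc_shift {d : ℕ} {g h : G} (hg : g ∈ Γ.Dom d) (hh : h ∈ Γ.H) {y : G} :
    y ∈ Γ.Desc (d + 1) (g * Γ.t * h) ↔ y ∈ Γ.Desc d g := by
  obtain ⟨γ, hγ⟩ := hg
  rw [(hγ.shift hh).mem_Desc, hγ.mem_Desc]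

theorem Anc.mul_H {d : ℕ} {γ g h : G} (hg : Γ.Anc (d + 1) γ g) (hh : h ∈ Γ.H) :
    Γ.Anc (d + 1) γ (g * h) :=
  ⟨hg.1, by rw [← mul_assoc]; exact Γ.Pos_mul_H hg.2 hh⟩

theorem Dom_mul_H {d : ℕ} {g h : G} (hg : g ∈ Γ.Dom (d + 1)) (hh : h ∈ Γ.H) :
    g * h ∈ Γ.Dom (d + 1) := by
  obtain ⟨γ, hγ⟩ := hg; exact ⟨γ, hγ.mul_H hh⟩

theorem Desc_mul_H {d : ℕ} {g h : G} (hg : g ∈ Γ.Dom (d + 1)) (hh : h ∈ Γ.H) {y : G} :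
    y ∈ Γ.Desc (d + 1) (g * h) ↔ y ∈ Γ.Desc (d + 1) g := by
  obtain ⟨γ, hγ⟩ := hg
  rw [(hγ.mul_H hh).mem_Desc, hγ.mem_Desc]

theorem Anc_zero {g : G} (hg : g ∈ Γ.CA) : Γ.Anc 0 g g := ⟨hg, by simp [Γ.mem_Pos_zero]⟩

theorem mem_Dom_of_Cone {R d : ℕ} {g : G} (hg : g ∈ Γ.Cone R) (hd : d ≤ R) : g ∈ Γ.Dom d := by
  obtain ⟨j, rfl⟩ := Nat.exists_eq_add_of_le' hd
  obtain ⟨γ, h1, h2⟩ := Γ.Cone_split hg
  exact ⟨γ, ⟨j, h1⟩, h2⟩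

theorem shift_inj {g g' : G} (hg : g ∈ Γ.CA) (hg' : g' ∈ Γ.CA) {i j : Fin Γ.d}
    (h : g * Γ.t * Γ.rB i = g' * Γ.t * Γ.rB j) : i = j := by
  have h1 := (Anc_zero hg).shift (Γ.rB_mem i)
  have h2 := (Anc_zero hg').shift (Γ.rB_mem j)
  rw [← h] at h2
  have e := Γ.A_t _ (h1.uniq h2)
  apply Γ.rB_inj
  have : Γ.t⁻¹ * (g⁻¹ * g') * Γ.t = Γ.rB i * (Γ.rB j)⁻¹ := by
    have : g' = g * Γ.t * Γ.rB i * (Γ.rB j)⁻¹ * Γ.t⁻¹ := by rw [h]; group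
    rw [this]; group
  rw [this, Γ.comm _ (Γ.rB_mem i) _ (Γ.H.inv_mem (Γ.rB_mem j))] at e
  simpa using Γ.B.inv_mem e

end Geo
end Pool.Agent.MP_5bc3cb_al
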