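import Pool.Agent.MP_5bc3cb_al.Back
import Pool.Agent.MP_5bc3cb_al.TB
import Pool.Agent.MP_5bc3cb_al.MeanAPI

namespace Pool.Agent.MP_5bc3cb_al
open Filter Pointwise

variable {G : Type} [Group G] {Γ : Geo G} (M : Mean Γ) (U : UA G)

theorem bft_shift (Γ : Geo G) : ∃ S : Set G, S.Finite ∧ ∀ g i s,
    (U.B g s)⁻¹ * U.B (g * Γ.t * Γ.rB i) s ∈ S := by
  choose S hS h using U.bft
  refine ⟨⋃ i, S (Γ.t * Γ.rB i), Set.finite_iUnion fun i => hS _, fun g i s => ?_⟩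
  rw [mul_assoc g]
  exact Set.mem_iUnion.2 ⟨i, h _ g s⟩

/-- the backward path at time `s` branches off at depth `r + 1` and is far -/
def Zs (Γ : Geo G) (s r : ℕ) (W : Set G) : Set G :=
  {g | g ∈ Γ.Dom (r + 1) ∧ U.B g s ∈ Γ.Desc (r + 1) g ∧ U.B g s ∉ Γ.Desc r g ∧
    g⁻¹ * U.B g s ∉ W}

theorem stepB1 (r : ℕ) {W' : Set G} (hW' : Γ.TB W') : ∃ W, Γ.TB W ∧ ∀ s,
    M.m (Zs U Γ s r W) ≤ M.m (Zs U Γ s (r + 1) W') := by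
  obtain ⟨S, hS, h⟩ := bft_shift U Γ
  obtain ⟨W1, hW1, h1⟩ := Γ.cross_TB hS r
  obtain ⟨W2, hW2, h2⟩ := Γ.cross_TB hS (r + 1)
  refine ⟨W1 ∪ W2 ∪ (Set.range fun i => Γ.t * Γ.rB i) * W' * S⁻¹,
    (hW1.union hW2).union (((Geo.TB_finite (Set.finite_range _)).mul hW').mul
      (Geo.TB_finite hS.inv)), fun s => ?_⟩
  refine M.shift_le (fun g hg => Geo.Dom_sub_CA hg.1) ?_
  rintro g ⟨hd, e1, e2, e3⟩ i
  simp only [Set.mem_union, not_or] at e3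
  have hd' := Geo.Dom_mono (Nat.le_succ r) hd
  have k1 := h1 g hd' _ _ (h g i s) e3.1.1
  have k2 := h2 g hd _ _ (h g i s) e3.1.2
  rw [mul_inv_cancel_left] at k1 k2
  refine ⟨Geo.Dom_shift hd (Γ.rB_mem i), (Geo.Desc_shift hd (Γ.rB_mem i)).2 (k2.2 e1),
    fun h' => e2 (k1.1 ((Geo.Desc_shift hd' (Γ.rB_mem i)).1 h')), fun h' => e3.2 ?_⟩
  exact ⟨_, ⟨_, ⟨i, rfl⟩, _, h', rfl⟩, _, Set.inv_mem_inv.2 (h g i s), by simp [mul_assoc]⟩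

theorem stepB2 (j r : ℕ) : ∃ W, Γ.TB W ∧ ∀ s,
    M.m (Zs U Γ s r W) ≤ M.m (Zs U Γ s (r + j) ∅) := by
  induction j generalizing r with
  | zero => exact ⟨∅, Geo.TB_finite Set.finite_empty, fun s => le_rfl⟩
  | succ j ih =>
    obtain ⟨W', hW', h'⟩ := ih (r + 1)
    obtain ⟨W, hW, h⟩ := stepB1 M U r hW'
    refine ⟨W, hW, fun s => (h s).trans ?_⟩
    rw [show r + (j + 1) = r + 1 + j by ring]
    exact h' s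

theorem exists_nat_small {η : ℝ} (hη : 0 < η) : ∃ J : ℕ, ∀ x : ℝ, J * x ≤ 1 → x ≤ η := by
  obtain ⟨J, hJ⟩ := exists_nat_gt (1 / η)
  rw [div_lt_iff₀ hη] at hJ
  refine ⟨J, fun x hx => ?_⟩
  by_contra h
  push Not at h
  have : (J : ℝ) * η ≤ J * x := mul_le_mul_of_nonneg_left h.le (Nat.cast_nonneg J)
  linarith

theorem stepB3 (r : ℕ) {η : ℝ} (hη : 0 < η) : ∃ W, Γ.TB W ∧ ∀ s, M.m (Zs U Γ s r W) ≤ η := by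
  obtain ⟨J, hJ⟩ := exists_nat_small hη
  choose W hW h using fun j => stepB2 M U j r
  refine ⟨⋃ j ∈ Set.Iio J, W j, Geo.TB.biUnion (Set.finite_Iio J) fun j _ => hW j, fun s => ?_⟩
  refine hJ _ (M.wander J (fun j => Zs U Γ s (r + j) ∅) _ (fun j hj => ?_) ?_)
  · refine (M.mono ?_).trans (h j s)
    rintro g ⟨e1, e2, e3, e4⟩
    exact ⟨e1, e2, e3, fun h' => e4 (Set.mem_biUnion (Set.mem_Iio.2 hj) h')⟩
  · rintro i j hij - g ⟨-, e1, -⟩ ⟨e2, -, e3, -⟩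
    exact e3 (Geo.Desc_mono (by omega) (Geo.Dom_mono (Nat.le_succ _) e2) e1)

/-- the backward path at time `s` is below depth `L` and far -/
def Far (Γ : Geo G) (s L : ℕ) (W : Set G) : Set G :=
  {g | g ∈ Γ.Dom L ∧ U.B g s ∈ Γ.Desc L g ∧ g⁻¹ * U.B g s ∉ W}

theorem stepB0 {η : ℝ} (hη : 0 < η) : ∃ W, Γ.TB W ∧ ∀ s, M.m (Far U Γ s 0 W) ≤ η := by
  obtain ⟨W', hW', h'⟩ := stepB3 M U 0 hη
  obtain ⟨S, hS, h⟩ := U.bft Γ.c0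
  obtain ⟨W1, hW1, h1⟩ := Γ.cross_TB hS 0
  refine ⟨W1 ∪ {Γ.c0} * W' * S⁻¹, hW1.union (((Geo.TB_finite (Set.finite_singleton _)).mul
    hW').mul (Geo.TB_finite hS.inv)), fun s => ?_⟩
  refine le_trans ?_ (h' s)
  refine (M.mono_ae (E' := Far U Γ s 0 (W1 ∪ {Γ.c0} * W' * S⁻¹) ∩ Γ.Dom 1)
    ((M.ae_Dom 1).mono fun g hg h => ⟨h, hg⟩)).trans (M.H_le Γ.c0_mem ?_)
  rintro g ⟨⟨hd, e1, e3⟩, hd1⟩ hg
  simp only [Set.mem_union, not_or] at e3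
  have k1 := (h1 g hd _ _ (h g s) e3.1).2 e1
  rw [mul_inv_cancel_left] at k1
  refine ⟨Geo.Dom_mul_H hd1 Γ.c0_mem, (Geo.Desc_mul_H hd1 Γ.c0_mem).2
    (Geo.Desc_mono (Nat.zero_le 1) hd1 k1), fun h2 => ?_, fun h2 => e3.2 ?_⟩
  · rw [(Geo.Anc_zero hg).mem_Desc] at k1
    rw [(Geo.Anc_zero (Geo.CA_mul_H hg Γ.c0_mem)).mem_Desc] at h2
    exact Γ.c0_not (Γ.sep Γ.c0_mem k1 (by simpa [mul_assoc] using h2))
  · exact ⟨_, ⟨_, rfl, _, h2, rfl⟩, _, Set.inv_mem_inv.2 (h g s), by simp [mul_assoc]⟩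

theorem far_small (L : ℕ) {η : ℝ} (hη : 0 < η) :
    ∃ W, Γ.TB W ∧ ∀ s, M.m (Far U Γ s L W) ≤ η := by
  induction L generalizing η with
  | zero => exact stepB0 M U hη
  | succ L ih =>
    obtain ⟨W1, hW1, h1⟩ := ih (half_pos hη)
    obtain ⟨W2, hW2, h2⟩ := stepB3 M U L (half_pos hη)
    refine ⟨W1 ∪ W2, hW1.union hW2, fun s => ?_⟩
    refine (M.union_le (E1 := Far U Γ s L W1) (E2 := Zs U Γ s L W2) ?_).trans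
      (by linarith [h1 s, h2 s])
    rintro g ⟨e1, e2, e3⟩
    simp only [Set.mem_union, not_or] at e3
    by_cases h : U.B g s ∈ Γ.Desc L g
    · exact Or.inl ⟨Geo.Dom_mono (Nat.le_succ L) e1, h, e3.1⟩
    · exact Or.inr ⟨e1, e2, h, e3.2⟩

/-- planar displacement between two backward times is near `z` -/
def Ys (Γ : Geo G) (s1 s2 : ℕ) (z : ℂ) (c : ℝ) : Set G :=
  {g | g ∈ Γ.CA ∧ ‖Γ.p (g⁻¹ * U.B g s1) - Γ.p (g⁻¹ * U.B g s2) - z‖ ≤ c}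

theorem stepA1 : ∃ c0 : ℝ, 0 ≤ c0 ∧ ∀ s1 s2 z c,
    M.m (Ys U Γ s1 s2 z c) ≤ M.m (Ys U Γ s1 s2 (Γ.lam⁻¹ * z) (c + c0)) := by
  obtain ⟨S, hS, h⟩ := bft_shift U Γ
  obtain ⟨C, hC⟩ := (hS.image fun x => ‖Γ.p x‖).bddAbove
  have hC' : ∀ x ∈ S, ‖Γ.p x‖ ≤ max C 0 := fun x hx => (hC ⟨x, hx, rfl⟩).trans (le_max_left _ _)
  refine ⟨2 * max C 0, by positivity, fun s1 s2 z c => M.shift_le (fun g hg => hg.1) ?_⟩
  rintro g ⟨hg, e⟩ i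
  refine ⟨Geo.CA_shift hg (Γ.rB_mem i), ?_⟩
  have key : ∀ s, Γ.p ((g * Γ.t * Γ.rB i)⁻¹ * U.B (g * Γ.t * Γ.rB i) s) =
      Γ.p (Γ.t * Γ.rB i)⁻¹ + Γ.lam⁻¹ * (Γ.p (g⁻¹ * U.B g s) + Γ.lam ^ Γ.n (g⁻¹ * U.B g s) *
        Γ.p ((U.B g s)⁻¹ * U.B (g * Γ.t * Γ.rB i) s)) := fun s => by
    have : (g * Γ.t * Γ.rB i)⁻¹ * U.B (g * Γ.t * Γ.rB i) s = (Γ.t * Γ.rB i)⁻¹ *
        ((g⁻¹ * U.B g s) * ((U.B g s)⁻¹ * U.B (g * Γ.t * Γ.rB i) s)) := by group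
    rw [this, Γ.p_mul, Γ.p_mul (g⁻¹ * U.B g s), Γ.n_inv, Γ.n_mul, Γ.n_t, Γ.n_H _ (Γ.rB_mem i)]
    simp
  rw [key, key]
  set a1 := Γ.lam ^ Γ.n (g⁻¹ * U.B g s1) * Γ.p ((U.B g s1)⁻¹ * U.B (g * Γ.t * Γ.rB i) s1)
  set a2 := Γ.lam ^ Γ.n (g⁻¹ * U.B g s2) * Γ.p ((U.B g s2)⁻¹ * U.B (g * Γ.t * Γ.rB i) s2)
  have h1 : ‖a1‖ ≤ max C 0 := by
    simp only [a1, norm_mul, Γ.norm_zpow_lam, one_mul]; exact hC' _ (h g i s1)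
  have h2 : ‖a2‖ ≤ max C 0 := by
    simp only [a2, norm_mul, Γ.norm_zpow_lam, one_mul]; exact hC' _ (h g i s2)
  have : Γ.p (Γ.t * Γ.rB i)⁻¹ + Γ.lam⁻¹ * (Γ.p (g⁻¹ * U.B g s1) + a1) -
      (Γ.p (Γ.t * Γ.rB i)⁻¹ + Γ.lam⁻¹ * (Γ.p (g⁻¹ * U.B g s2) + a2)) - Γ.lam⁻¹ * z =
      Γ.lam⁻¹ * ((Γ.p (g⁻¹ * U.B g s1) - Γ.p (g⁻¹ * U.B g s2) - z) + (a1 - a2)) := by ring
  rw [this, norm_mul, norm_inv, Γ.lam_norm, inv_one, one_mul]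
  refine (norm_add_le _ _).trans ?_
  linarith [norm_sub_le a1 a2]

theorem exists_gap (Γ : Geo G) (J : ℕ) :
    ∃ δ : ℝ, 0 < δ ∧ ∀ k, 0 < k → k < J → δ ≤ ‖1 - Γ.lam⁻¹ ^ k‖ := by
  induction J with
  | zero => exact ⟨1, one_pos, fun k _ h => absurd h (Nat.not_lt_zero k)⟩
  | succ J ih =>
    obtain ⟨δ, hδ, h⟩ := ih
    rcases Nat.eq_zero_or_pos J with rfl | hJ
    · exact ⟨1, one_pos, fun k h1 h2 => by omega⟩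
    have : 0 < ‖1 - Γ.lam⁻¹ ^ J‖ := norm_pos_iff.2 (sub_ne_zero.2 fun h' => by
      rw [inv_pow, eq_comm, inv_eq_one] at h'
      exact Γ.lam_ne J hJ h')
    refine ⟨min δ _, lt_min hδ this, fun k h1 h2 => ?_⟩
    rcases Nat.lt_succ_iff_lt_or_eq.1 h2 with h3 | rfl
    · exact (min_le_left _ _).trans (h k h1 h3)
    · exact min_le_right _ _

theorem stepA {η : ℝ} (hη : 0 < η) : ∃ ρ : ℝ, ∀ z, ρ ≤ ‖z‖ → ∀ s1 s2,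
    M.m (Ys U Γ s1 s2 z 0) ≤ η := by
  obtain ⟨J, hJ⟩ := exists_nat_small hη
  obtain ⟨c0, hc0, h⟩ := stepA1 M U
  obtain ⟨δ, hδ, hgap⟩ := exists_gap Γ J
  refine ⟨(2 * (J * c0) + 1) / δ, fun z hz s1 s2 => ?_⟩
  rw [div_le_iff₀ hδ] at hz
  refine hJ _ (M.wander J (fun j => Ys U Γ s1 s2 (Γ.lam⁻¹ ^ j * z) (J * c0)) _
    (fun j hj => ?_) ?_)
  · have : ∀ j : ℕ, M.m (Ys U Γ s1 s2 z 0) ≤ M.m (Ys U Γ s1 s2 (Γ.lam⁻¹ ^ j * z) (j * c0)) := by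
      intro j
      induction j with
      | zero => simp
      | succ j ih =>
        refine ih.trans ((h _ _ _ _).trans_eq ?_)
        rw [pow_succ', mul_assoc]; push_cast; rw [add_mul, one_mul]
    refine (this j).trans (M.mono fun g hg => ⟨hg.1, hg.2.trans ?_⟩)
    exact mul_le_mul_of_nonneg_right (by exact_mod_cast hj.le) hc0
  · rintro i j hij hj g ⟨-, e1⟩ ⟨-, e2⟩
    obtain ⟨k, rfl⟩ := Nat.exists_eq_add_of_le hij.le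
    have h1 := hgap k (by omega) (by omega)
    set x := Γ.p (g⁻¹ * U.B g s1) - Γ.p (g⁻¹ * U.B g s2)
    have h2 : (x - Γ.lam⁻¹ ^ (i + k) * z) - (x - Γ.lam⁻¹ ^ i * z) =
        Γ.lam⁻¹ ^ i * ((1 - Γ.lam⁻¹ ^ k) * z) := by ring
    have h3 := norm_sub_le (x - Γ.lam⁻¹ ^ (i + k) * z) (x - Γ.lam⁻¹ ^ i * z)
    rw [h2, norm_mul, norm_mul, norm_pow, norm_inv, Γ.lam_norm, inv_one, one_pow, one_mul] at h3
    have h4 := mul_le_mul_of_nonneg_right h1 (norm_nonneg z)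
    linarith

end Pool.Agent.MP_5bc3cb_al
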